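import Mathlib

/-! Definitions for the statement of Dade's conjecture on alternating sums over chains of
`ℓ`-subgroups, for a finite group `G` and a prime `ℓ`. -/

namespace Pool.Agent.Lib_helper13.Dade

/-- `χ : H → ℂ` is an irreducible complex character of the group `H`: it is the character of an
irreducible representation of `H` on some `ℂ ^ n`. -/
def IsIrrChar {H : Type*} [Group H] (χ : H → ℂ) : Prop :=
  ∃ (n : ℕ) (ρ : Representation ℂ H (Fin n → ℂ)), ρ.IsIrreducible ∧ ρ.character = χ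

/-- `χ` has `ℓ`-defect `d`: the `ℓ`-parts satisfy `ℓ ^ d = |H|_ℓ / χ(1)_ℓ`. -/
def HasDefect (ℓ : ℕ) {H : Type*} [Group H] (χ : H → ℂ) (d : ℕ) : Prop :=
  ∃ n : ℕ, χ 1 = n ∧ padicValNat ℓ (Nat.card H) = d + padicValNat ℓ n

/-- Congruence of complex numbers modulo an ideal of the ring of algebraic integers. -/
def CongrMod (𝔐 : Ideal (integralClosure ℤ ℂ)) (a b : ℂ) : Prop :=
  ∃ m : integralClosure ℤ ℂ, m ∈ 𝔐 ∧ (m : ℂ) = a - b

variable {G : Type*} [Group G]

/-- The value at the class sum of `g` of the central function induced to `G` from the central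
character of `θ`, where `θ` is a character of the subgroup `S`: the sum of `θ(s)/θ(1)` over the
`s ∈ S` which are conjugate to `g` in `G`. -/
noncomputable def indCentral (S : Subgroup G) (θ : S → ℂ) (g : G) : ℂ :=
  (∑ᶠ (s : S) (_ : IsConj (s : G) g), θ s) / θ 1

/-- The value of the central character of `χ` at the class sum of `g`. -/
noncomputable def central (χ : G → ℂ) (g : G) : ℂ :=
  (∑ᶠ (x : G) (_ : IsConj x g), χ x) / χ 1

/-- `χ` and `χ'` lie in the same `ℓ`-block (with respect to the maximal ideal `𝔐` over `ℓ`):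
their central characters are congruent modulo `𝔐`. -/
def SameBlock (𝔐 : Ideal (integralClosure ℤ ℂ)) (χ χ' : G → ℂ) : Prop :=
  ∀ g, CongrMod 𝔐 (central χ g) (central χ' g)

/-- The block of the character `θ` of `S` induces to the block of `χ`. -/
def InducesTo (𝔐 : Ideal (integralClosure ℤ ℂ)) (S : Subgroup G) (θ : S → ℂ) (χ : G → ℂ) :
    Prop :=
  ∀ g, CongrMod 𝔐 (indCentral S θ g) (central χ g)

/-- `O_ℓ(G)`, the largest normal `ℓ`-subgroup of the finite group `G`. -/
def pCore (ℓ : ℕ) (G : Type*) [Group G] : Subgroup G :=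
  sSup {N : Subgroup G | N.Normal ∧ IsPGroup ℓ N}

/-- `σ = {D₁, …, Dₙ}` is the set of the members other than `O_ℓ(G)` of a chain
`O_ℓ(G) < D₁ < ⋯ < Dₙ` of `ℓ`-subgroups of `G`. -/
def IsLChain (ℓ : ℕ) (σ : Finset (Subgroup G)) : Prop :=
  (∀ D ∈ σ, IsPGroup ℓ D ∧ pCore ℓ G < D) ∧ ∀ D ∈ σ, ∀ E ∈ σ, D ≤ E ∨ E ≤ D

/-- The stabilizer of a chain: the intersection of the normalizers of its members. -/
def chainStab (σ : Finset (Subgroup G)) : Subgroup G :=
  ⨅ D ∈ σ, Subgroup.normalizer (D : Set G)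

/-- Conjugacy of chains under `G`. -/
def chainSetoid (ℓ : ℕ) (G : Type*) [Group G] :
    Setoid {σ : Finset (Subgroup G) // IsLChain ℓ σ} where
  r σ τ := ∃ g : G, (τ.1 : Set (Subgroup G)) =
    (fun D : Subgroup G => D.map (MulAut.conj g).toMonoidHom) '' (σ.1 : Set (Subgroup G))
  iseqv := by
    have hmul : ∀ (a b : G) (D : Subgroup G),
        (D.map (MulAut.conj a).toMonoidHom).map (MulAut.conj b).toMonoidHom =
          D.map (MulAut.conj (b * a)).toMonoidHom := by
      intro a b D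
      rw [Subgroup.map_map]
      congr 1
      ext x
      simp [mul_assoc]
    have hone : ∀ D : Subgroup G, D.map (MulAut.conj (1 : G)).toMonoidHom = D := by
      intro D
      have : (MulAut.conj (1 : G)).toMonoidHom = MonoidHom.id G := by
        ext x
        simp
      rw [this, Subgroup.map_id]
    refine ⟨fun σ => ⟨1, ?_⟩, ?_, ?_⟩
    · simp only [hone, Set.image_id']
    · rintro σ τ ⟨g, hg⟩
      refine ⟨g⁻¹, ?_⟩
      rw [hg, Set.image_image]
      simp only [hmul, inv_mul_cancel, hone, Set.image_id']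
    · rintro σ τ υ ⟨g, hg⟩ ⟨h, hh⟩
      refine ⟨h * g, ?_⟩
      rw [hh, hg, Set.image_image]
      simp only [hmul]

/-- `k^d(B_S)`: the number of irreducible characters of `S` of defect `d` whose block induces to
the block `B` of `χ`. -/
noncomputable def kd (𝔐 : Ideal (integralClosure ℤ ℂ)) (ℓ : ℕ) (χ : G → ℂ) (d : ℕ)
    (S : Subgroup G) : ℕ :=
  Nat.card {θ : S → ℂ // IsIrrChar θ ∧ HasDefect ℓ θ d ∧ InducesTo 𝔐 S θ χ}

/-- The alternating sum of Dade's conjecture for the block of `χ` and the defect `d`: the sum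
over representatives of the `G`-orbits of chains. -/
noncomputable def dadeSum (𝔐 : Ideal (integralClosure ℤ ℂ)) (ℓ : ℕ) (χ : G → ℂ) (d : ℕ) : ℤ :=
  ∑ᶠ o : Quotient (chainSetoid ℓ G),
    (-1) ^ o.out.1.card * (kd 𝔐 ℓ χ d (chainStab o.out.1) : ℤ)

/-- Dade's conjecture for `G` and `ℓ`: for every maximal ideal `𝔐` over `ℓ`, every irreducible
character `χ` whose block `B` has defect groups properly containing `O_ℓ(G)` (that is, `B`
contains a character of some defect `e` with `ℓ ^ e > |O_ℓ(G)|`) and every `d ≥ 0`, the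
alternating sum vanishes. -/
def DadeHolds (ℓ : ℕ) (G : Type*) [Group G] : Prop :=
  ∀ 𝔐 : Ideal (integralClosure ℤ ℂ), 𝔐.IsMaximal → (ℓ : integralClosure ℤ ℂ) ∈ 𝔐 →
    ∀ χ : G → ℂ, IsIrrChar χ →
      (∃ (χ' : G → ℂ) (e : ℕ), IsIrrChar χ' ∧ SameBlock 𝔐 χ' χ ∧ HasDefect ℓ χ' e ∧
        Nat.card (pCore ℓ G) < ℓ ^ e) →
      ∀ d : ℕ, dadeSum 𝔐 ℓ χ d = 0

end Pool.Agent.Lib_helper13.Dade
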