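import Mathlib

/-! Basic ordinary character theory of finite groups, at the level of functions. -/

namespace Pool.Agent.Lib_helper13

open Representation

/-- `χ : H → ℂ` is an irreducible complex character of the group `H`: it is the character of an
irreducible representation of `H` on some `ℂ ^ n`. -/
def IsIrr {H : Type*} [Group H] (χ : H → ℂ) : Prop :=
  ∃ (n : ℕ) (ρ : Representation ℂ H (Fin n → ℂ)), ρ.IsIrreducible ∧ ρ.character = χ

section Criterion

variable {H : Type*} [Group H] [Fintype H]

theorem natCard_ne_zero : (Nat.card H : ℂ) ≠ 0 := by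
  have : Nat.card H ≠ 0 := Nat.card_pos.ne'
  exact_mod_cast this

noncomputable instance invNatCard : Invertible (Nat.card H : ℂ) :=
  invertibleOfNonzero natCard_ne_zero

variable {V : Type*} [AddCommGroup V] [Module ℂ V] [FiniteDimensional ℂ V]
variable {W : Type*} [AddCommGroup W] [Module ℂ W] [FiniteDimensional ℂ W]

theorem sum_char_eq_finrank (ρ : Representation ℂ H V) (σ : Representation ℂ H W) :
    ∑ g : H, σ.character g * ρ.character g⁻¹ =
      (Nat.card H : ℂ) * Module.finrank ℂ (IntertwiningMap ρ σ) := by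
  have h := card_inv_mul_sum_char_mul_char_eq_finrank ρ σ
  rw [← h, ← mul_assoc, mul_inv_cancel₀ natCard_ne_zero, one_mul]

theorem sum_char_self (ρ : Representation ℂ H V) [ρ.IsIrreducible] :
    ∑ g : H, ρ.character g * ρ.character g⁻¹ = Nat.card H := by
  rw [sum_char_eq_finrank, IsIrreducible.finrank_intertwiningMap_self]
  simp

theorem irreducible_of_sum (ρ : Representation ℂ H V)
    (h : ∑ g : H, ρ.character g * ρ.character g⁻¹ = Nat.card H) : ρ.IsIrreducible := by
  rw [sum_char_eq_finrank] at h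
  have h1 : Module.finrank ℂ (IntertwiningMap ρ ρ) = 1 := by
    have := mul_left_cancel₀ natCard_ne_zero (h.trans (mul_one _).symm)
    exact_mod_cast this
  obtain ⟨v, hv, hv'⟩ := finrank_eq_one_iff'.mp h1
  have hnt : Nontrivial V := by
    by_contra hc
    rw [not_nontrivial_iff_subsingleton] at hc
    apply hv
    ext x
    exact Subsingleton.elim _ _
  -- every intertwining map is a scalar
  have hid : ∃ c : ℂ, c • v = IntertwiningMap.id ρ := hv' _
  obtain ⟨c, hc⟩ := hid
  have hidne : IntertwiningMap.id ρ ≠ 0 := by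
    intro h0
    obtain ⟨x, hx⟩ := exists_ne (0 : V)
    apply hx
    have := congrArg (fun f : IntertwiningMap ρ ρ => f x) h0
    simpa using this
  have hc0 : c ≠ 0 := by
    rintro rfl
    apply hidne
    rw [← hc, zero_smul]
  have hscal : ∀ f : IntertwiningMap ρ ρ, ∃ a : ℂ, ∀ x, f x = a • x := by
    intro f
    obtain ⟨a, ha⟩ := hv' f
    refine ⟨a * c⁻¹, fun x => ?_⟩
    have h2 : v = c⁻¹ • IntertwiningMap.id ρ := by
      rw [← hc, smul_smul, inv_mul_cancel₀ hc0, one_smul]
    rw [← ha, h2]
    simp [smul_smul]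
  have : ComplementedLattice (Subrepresentation ρ) :=
    (inferInstance : IsSemisimpleRepresentation ρ)
  refine { exists_pair_ne := ⟨⊥, ⊤, ?_⟩, eq_bot_or_eq_top := ?_ }
  · intro hbt
    obtain ⟨x, hx⟩ := exists_ne (0 : V)
    apply hx
    have hxt : x ∈ (⊤ : Subrepresentation ρ) := by
      change x ∈ (⊤ : Submodule ℂ V); trivial
    rw [← hbt] at hxt
    change x ∈ (⊥ : Submodule ℂ V) at hxt
    simpa using hxt
  · intro a
    obtain ⟨b, hab⟩ := exists_isCompl a
    have hab' : IsCompl a.toSubmodule b.toSubmodule := by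
      constructor
      · rw [disjoint_iff]
        exact congrArg Subrepresentation.toSubmodule (disjoint_iff.mp hab.1)
      · rw [codisjoint_iff]
        exact congrArg Subrepresentation.toSubmodule (codisjoint_iff.mp hab.2)
    let p : V →ₗ[ℂ] V := a.toSubmodule.subtype ∘ₗ Submodule.projectionOnto _ _ hab'
    have hp_a : ∀ x ∈ a.toSubmodule, p x = x := by
      intro x hx
      simp only [p, LinearMap.comp_apply, Submodule.subtype_apply]
      rw [Submodule.projectionOnto_apply_left hab' ⟨x, hx⟩]
    have hp_b : ∀ x ∈ b.toSubmodule, p x = 0 := by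
      intro x hx
      simp only [p, LinearMap.comp_apply, Submodule.subtype_apply]
      rw [(Submodule.projectionOnto_apply_eq_zero_iff hab').mpr hx]
      rfl
    have hpint : ∀ g : H, ∀ x : V, p (ρ g x) = ρ g (p x) := by
      intro g x
      obtain ⟨y, hy, z, hz, rfl⟩ : ∃ y ∈ a.toSubmodule, ∃ z ∈ b.toSubmodule, y + z = x := by
        have : x ∈ a.toSubmodule ⊔ b.toSubmodule := by
          rw [hab'.sup_eq_top]; trivial
        exact Submodule.mem_sup.mp this
      rw [map_add, map_add, map_add, map_add, hp_a y hy, hp_b z hz, hp_a _ (a.2 g hy),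
        hp_b _ (b.2 g hz), map_zero]
    obtain ⟨s, hs⟩ := hscal ⟨p, fun g => LinearMap.ext fun x => hpint g x⟩
    by_cases hs0 : s = 0
    · left
      ext x
      constructor
      · intro hx
        have := hs x
        rw [hs0, zero_smul] at this
        change p x = 0 at this
        rw [hp_a x hx] at this
        rw [this]
        change (0 : V) ∈ (⊥ : Submodule ℂ V)
        exact zero_mem _
      · intro hx
        change x ∈ (⊥ : Submodule ℂ V) at hx
        rw [Submodule.mem_bot] at hx
        rw [hx]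
        exact a.toSubmodule.zero_mem
    · right
      ext x
      constructor
      · intro _
        change x ∈ (⊤ : Submodule ℂ V); trivial
      · intro _
        have := hs x
        change p x = s • x at this
        have h3 : p x ∈ a.toSubmodule := by
          simp only [p, LinearMap.comp_apply, Submodule.subtype_apply]
          exact Submodule.coe_mem _
        rw [this] at h3
        have h4 := a.toSubmodule.smul_mem s⁻¹ h3
        rw [smul_smul, inv_mul_cancel₀ hs0, one_smul] at h4
        exact h4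

theorem irreducible_iff_sum (ρ : Representation ℂ H V) :
    ρ.IsIrreducible ↔ ∑ g : H, ρ.character g * ρ.character g⁻¹ = Nat.card H :=
  ⟨fun _ => sum_char_self ρ, irreducible_of_sum ρ⟩

end Criterion

section IsIrr

variable {H : Type*} [Group H] [Fintype H]

/-- Transport of a representation along a linear equivalence. -/
def transport {V W : Type*} [AddCommGroup V] [Module ℂ V] [AddCommGroup W] [Module ℂ W]
    (e : V ≃ₗ[ℂ] W) (ρ : Representation ℂ H V) : Representation ℂ H W where
  toFun g := e.toLinearMap ∘ₗ ρ g ∘ₗ e.symm.toLinearMap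
  map_one' := by ext x; simp
  map_mul' x y := by ext z; simp

omit [Fintype H] in
theorem transport_character {V W : Type*} [AddCommGroup V] [Module ℂ V] [AddCommGroup W]
    [Module ℂ W] (e : V ≃ₗ[ℂ] W) (ρ : Representation ℂ H V) :
    (transport e ρ).character = ρ.character := by
  ext g
  exact LinearMap.trace_conj' (ρ g) e

theorem isIrr_of_rep {V : Type*} [AddCommGroup V] [Module ℂ V] [FiniteDimensional ℂ V]
    (ρ : Representation ℂ H V) (h : ρ.IsIrreducible) : IsIrr ρ.character := by
  let b := Module.finBasis ℂ V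
  refine ⟨_, transport b.equivFun ρ, ?_, transport_character _ _⟩
  rw [irreducible_iff_sum, transport_character]
  exact (irreducible_iff_sum ρ).mp h

theorem isIrr_of_rep_sum {V : Type*} [AddCommGroup V] [Module ℂ V] [FiniteDimensional ℂ V]
    (ρ : Representation ℂ H V)
    (h : ∑ g : H, ρ.character g * ρ.character g⁻¹ = Nat.card H) : IsIrr ρ.character :=
  isIrr_of_rep ρ ((irreducible_iff_sum ρ).mpr h)

theorem IsIrr.sum_self {χ : H → ℂ} (h : IsIrr χ) : ∑ g, χ g * χ g⁻¹ = Nat.card H := by
  obtain ⟨n, ρ, hρ, rfl⟩ := h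
  exact (irreducible_iff_sum ρ).mp hρ

theorem IsIrr.sum_ne {χ ψ : H → ℂ} (h : IsIrr χ) (h' : IsIrr ψ) (hne : χ ≠ ψ) :
    ∑ g, χ g * ψ g⁻¹ = 0 := by
  obtain ⟨n, ρ, hρ, rfl⟩ := h
  obtain ⟨m, σ, hσ, rfl⟩ := h'
  have hE : IsEmpty (Representation.Equiv σ ρ) := by
    constructor
    intro e
    exact hne (char_iso e).symm
  rw [sum_char_eq_finrank]
  have : Subsingleton (IntertwiningMap σ ρ) := inferInstance
  rw [Module.finrank_zero_of_subsingleton]
  simp

omit [Fintype H] in
theorem IsIrr.exists_degree {χ : H → ℂ} (h : IsIrr χ) : ∃ n : ℕ, 0 < n ∧ χ 1 = n := by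
  obtain ⟨n, ρ, hρ, rfl⟩ := h
  refine ⟨n, ?_, by simp⟩
  rcases Nat.eq_zero_or_pos n with rfl | hn
  · exfalso
    obtain ⟨a, b, hab⟩ := hρ.exists_pair_ne
    apply hab
    ext x
    have : x = 0 := Subsingleton.elim _ _
    subst this
    constructor
    · intro _; exact b.toSubmodule.zero_mem
    · intro _; exact a.toSubmodule.zero_mem
  · exact hn

omit [Fintype H] in
theorem IsIrr.one_ne_zero {χ : H → ℂ} (h : IsIrr χ) : χ 1 ≠ 0 := by
  obtain ⟨n, hn, h1⟩ := h.exists_degree
  rw [h1]
  exact_mod_cast hn.ne'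

omit [Fintype H] in
theorem IsIrr.conj_eq {χ : H → ℂ} (h : IsIrr χ) (g x : H) : χ (g * x * g⁻¹) = χ x := by
  obtain ⟨n, ρ, hρ, rfl⟩ := h
  exact char_conj ρ x g

omit [Fintype H] in
theorem IsIrr.isConj {χ : H → ℂ} (h : IsIrr χ) {x y : H} (hxy : IsConj x y) : χ x = χ y := by
  obtain ⟨c, rfl⟩ := isConj_iff.mp hxy
  rw [h.conj_eq]

/-- Transport of irreducible characters along group isomorphisms. -/
theorem IsIrr.comp_mulEquiv {H' : Type*} [Group H'] {χ : H → ℂ} (h : IsIrr χ) (e : H' ≃* H) :
    IsIrr (χ ∘ e) := by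
  have : Fintype H' := Fintype.ofEquiv H e.symm.toEquiv
  obtain ⟨n, ρ, hρ, rfl⟩ := h
  have h1 : (Representation.character (ρ.comp e.toMonoidHom : Representation ℂ H' (Fin n → ℂ)))
      = ρ.character ∘ e := rfl
  rw [← h1]
  apply isIrr_of_rep_sum
  rw [h1]
  have h2 := (irreducible_iff_sum ρ).mp hρ
  rw [Nat.card_congr e.toEquiv, ← h2]
  refine Fintype.sum_equiv e.toEquiv _ _ ?_
  intro x
  simp

/-- The irreducible characters are linearly independent, hence finite in number. -/
theorem finite_isIrr : {χ : H → ℂ | IsIrr χ}.Finite := by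
  have hli : LinearIndepOn ℂ (id : (H → ℂ) → (H → ℂ)) {χ : H → ℂ | IsIrr χ} := by
    rw [linearIndepOn_iff']
    intro s g hs hsum χ hχ
    have h0 : ∑ x : H, (∑ ψ ∈ s, g ψ • (id ψ : H → ℂ)) x * χ x⁻¹ = 0 := by
      rw [hsum]; simp
    have h1 : ∑ x : H, (∑ ψ ∈ s, g ψ • (id ψ : H → ℂ)) x * χ x⁻¹ = g χ * Nat.card H := by
      have : ∀ x : H, (∑ ψ ∈ s, g ψ • (id ψ : H → ℂ)) x * χ x⁻¹ =
          ∑ ψ ∈ s, g ψ * (ψ x * χ x⁻¹) := by
        intro x
        simp only [Finset.sum_apply, Pi.smul_apply, id, smul_eq_mul, Finset.sum_mul]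
        exact Finset.sum_congr rfl fun _ _ => by ring
      simp_rw [this]
      rw [Finset.sum_comm]
      simp_rw [← Finset.mul_sum]
      rw [Finset.sum_eq_single χ]
      · rw [(hs hχ : IsIrr χ).sum_self]
      · intro ψ hψ hne
        rw [(hs hψ : IsIrr ψ).sum_ne (hs hχ) hne, mul_zero]
      · intro h; exact absurd hχ h
    rw [h0] at h1
    rcases mul_eq_zero.mp h1.symm with h2 | h2
    · exact h2
    · exact absurd h2 natCard_ne_zero
  exact hli.finite_of_isNoetherian

instance : Finite {χ : H → ℂ // IsIrr χ} := finite_isIrr.to_subtype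

end IsIrr

end Pool.Agent.Lib_helper13
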