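import Mathlib
import Pool.Agent.Lib_helper13.CharBasic

set_option linter.unusedSectionVars false

/-! Central characters: scalars, integrality, and vanishing modulo `ℓ` off centralizers of
normal `ℓ`-subgroups. -/

namespace Pool.Agent.Lib_helper13

open Representation

section Scalar

variable {H : Type*} [Group H]

theorem exists_scalar {V : Type*} [AddCommGroup V] [Module ℂ V] [FiniteDimensional ℂ V]
    (ρ : Representation ℂ H V) (hρ : ρ.IsIrreducible) (T : V →ₗ[ℂ] V)
    (hT : ∀ g x, T (ρ g x) = ρ g (T x)) : ∃ c : ℂ, T = c • LinearMap.id := by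
  have hb := (IsIrreducible.algebraMap_intertwiningMap_bijective_of_isAlgClosed (ρ := ρ)).2
  obtain ⟨c, hc⟩ := hb ⟨T, fun g => LinearMap.ext fun x => hT g x⟩
  refine ⟨c, ?_⟩
  ext x
  have := congrArg (fun f : IntertwiningMap ρ ρ => f x) hc
  change _ = T x at this
  rw [← this]
  simp [IntertwiningMap.algebraMap_apply]

/-- The scalar `∑ z(y) χ(y) / χ(1)` attached to an element of the integral group ring. -/
noncomputable def om [Fintype H] (χ : H → ℂ) (z : MonoidAlgebra ℤ H) : ℂ :=
  (∑ y : H, (z.coeff y : ℂ) * χ y) / χ 1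

theorem lift_eq_sum [Fintype H] {A : Type*} [Ring A] (F : H →* A) (z : MonoidAlgebra ℤ H) :
    MonoidAlgebra.lift ℤ A H F z = ∑ y : H, (z.coeff y) • F y := by
  rw [MonoidAlgebra.lift_apply]
  exact Finsupp.sum_fintype _ _ (by simp)

theorem om_scalar [Fintype H] {n : ℕ} (ρ : Representation ℂ H (Fin n → ℂ)) (hρ : ρ.IsIrreducible)
    (z : MonoidAlgebra ℤ H) (hz : z ∈ Subalgebra.center ℤ (MonoidAlgebra ℤ H)) :
    MonoidAlgebra.lift ℤ (Module.End ℂ (Fin n → ℂ)) H ρ z = om ρ.character z • LinearMap.id := by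
  obtain ⟨c, hc⟩ := exists_scalar ρ hρ (MonoidAlgebra.lift ℤ (Module.End ℂ (Fin n → ℂ)) H ρ z) (by
    intro g x
    have h1 : z * MonoidAlgebra.single g 1 = MonoidAlgebra.single g 1 * z :=
      (Subalgebra.mem_center_iff.mp hz _).symm
    have h2 := congrArg (MonoidAlgebra.lift ℤ (Module.End ℂ (Fin n → ℂ)) H ρ) h1
    rw [map_mul, map_mul, MonoidAlgebra.lift_single, one_smul] at h2
    exact congrArg (fun f : Module.End ℂ (Fin n → ℂ) => f x) h2)
  rw [hc]
  congr 1
  have h1 : (ρ.character 1 : ℂ) ≠ 0 := IsIrr.one_ne_zero ⟨n, ρ, hρ, rfl⟩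
  rw [om, eq_div_iff h1]
  have h2 := congrArg (LinearMap.trace ℂ (Fin n → ℂ)) hc
  rw [lift_eq_sum, map_sum] at h2
  have h3 : ∀ y : H, LinearMap.trace ℂ (Fin n → ℂ) (z.coeff y • ρ y) =
      (z.coeff y : ℂ) * ρ.character y := by
    intro y
    rw [← Int.cast_smul_eq_zsmul ℂ, map_smul]
    rfl
  simp_rw [h3] at h2
  rw [h2, map_smul, char_one]
  simp

theorem om_mul [Fintype H] {χ : H → ℂ} (hχ : IsIrr χ) {z w : MonoidAlgebra ℤ H}
    (hz : z ∈ Subalgebra.center ℤ (MonoidAlgebra ℤ H))
    (hw : w ∈ Subalgebra.center ℤ (MonoidAlgebra ℤ H)) : om χ (z * w) = om χ z * om χ w := by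
  obtain ⟨n, ρ, hρ, rfl⟩ := hχ
  have hn := IsIrr.one_ne_zero (χ := ρ.character) ⟨n, ρ, hρ, rfl⟩
  have h1 := om_scalar ρ hρ (z * w) (mul_mem hz hw)
  rw [map_mul, om_scalar ρ hρ z hz, om_scalar ρ hρ w hw] at h1
  have h2 := congrArg (LinearMap.trace ℂ (Fin n → ℂ)) h1
  rw [char_one] at hn
  have h4 : (om ρ.character z • (LinearMap.id : (Fin n → ℂ) →ₗ[ℂ] (Fin n → ℂ))) *
      (om ρ.character w • (LinearMap.id : (Fin n → ℂ) →ₗ[ℂ] (Fin n → ℂ))) =
      (om ρ.character z * om ρ.character w) • LinearMap.id := by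
    apply LinearMap.ext
    intro x
    simp [smul_smul, mul_comm]
  rw [h4, map_smul, map_smul] at h2
  have h3 : LinearMap.trace ℂ (Fin n → ℂ) LinearMap.id ≠ 0 := by
    rw [LinearMap.trace_id]; exact hn
  exact (mul_right_cancel₀ h3 h2).symm

theorem om_one [Fintype H] {χ : H → ℂ} (hχ : IsIrr χ) : om χ (1 : MonoidAlgebra ℤ H) = 1 := by
  classical
  rw [om, MonoidAlgebra.one_def]
  simp only [MonoidAlgebra.coeff_single, Finsupp.single_apply]
  rw [Finset.sum_eq_single 1]
  · simp [div_self hχ.one_ne_zero]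
  · intro b _ hb
    simp [Ne.symm hb]
  · simp

theorem om_add [Fintype H] (χ : H → ℂ) (z w : MonoidAlgebra ℤ H) :
    om χ (z + w) = om χ z + om χ w := by
  simp [om, add_mul, Finset.sum_add_distrib, add_div]

theorem om_zero [Fintype H] (χ : H → ℂ) : om χ (0 : MonoidAlgebra ℤ H) = 0 := by
  simp [om]

theorem om_smul [Fintype H] (χ : H → ℂ) (a : ℤ) (z : MonoidAlgebra ℤ H) :
    om χ (a • z) = a * om χ z := by
  have h : ∀ y, ((a • z).coeff y : ℂ) = a * z.coeff y := fun y => by
    rw [MonoidAlgebra.coeff_smul_apply, smul_eq_mul]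
    push_cast
    rfl
  simp_rw [om, h, mul_assoc, ← Finset.mul_sum, mul_div_assoc]

/-- The central character as a ring homomorphism. -/
noncomputable def omHom [Fintype H] {χ : H → ℂ} (hχ : IsIrr χ) :
    Subalgebra.center ℤ (MonoidAlgebra ℤ H) →+* ℂ where
  toFun z := om χ z
  map_one' := om_one hχ
  map_mul' z w := om_mul hχ z.2 w.2
  map_zero' := om_zero χ
  map_add' z w := om_add χ z w

instance centerIntegral [Finite H] :
    Algebra.IsIntegral ℤ (Subalgebra.center ℤ (MonoidAlgebra ℤ H)) := by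
  have : Module.Finite ℤ (MonoidAlgebra ℤ H) := inferInstance
  have : Module.Finite ℤ (Subalgebra.center ℤ (MonoidAlgebra ℤ H)) :=
    Module.Finite.of_injective (Subalgebra.center ℤ (MonoidAlgebra ℤ H)).val.toLinearMap
      Subtype.val_injective
  infer_instance

theorem isIntegral_om [Fintype H] {χ : H → ℂ} (hχ : IsIrr χ) {z : MonoidAlgebra ℤ H}
    (hz : z ∈ Subalgebra.center ℤ (MonoidAlgebra ℤ H)) : IsIntegral ℤ (om χ z) := by
  have h1 : IsIntegral ℤ (⟨z, hz⟩ : Subalgebra.center ℤ (MonoidAlgebra ℤ H)) :=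
    Algebra.IsIntegral.isIntegral _
  exact h1.map (omHom hχ).toIntAlgHom

end Scalar

section PGroupSums

/-- Sums of invariant functions over a set acted on by an `ℓ`-group, with values in a group killed
by `ℓ`, localize on the fixed points. -/
theorem sum_eq_sum_fixed {ℓ : ℕ} [Fact ℓ.Prime] {Q X M : Type*} [Group Q] (hQ : IsPGroup ℓ Q)
    [MulAction Q X] [Fintype X] [AddCommGroup M] (hM : ∀ m : M, ℓ • m = 0)
    (F : X → M) (hF : ∀ (q : Q) (x : X), F (q • x) = F x)
    [DecidablePred fun x : X => ∀ q : Q, q • x = x] :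
    ∑ x : X, F x = ∑ x ∈ Finset.univ.filter (fun x : X => ∀ q : Q, q • x = x), F x := by
  classical
  have key : ∀ s t : Finset X, (∀ v : M, (s.filter (fun x => F x = v)).card ≡
      (t.filter (fun x => F x = v)).card [MOD ℓ]) → ∑ x ∈ s, F x = ∑ x ∈ t, F x := by
    intro s t h
    have hs : ∀ s : Finset X, ∑ x ∈ s, F x =
        ∑ v ∈ Finset.univ.image F, (s.filter (fun x => F x = v)).card • v := by
      intro s
      rw [← Finset.sum_fiberwise_of_maps_to (s := s) (t := Finset.univ.image F) (g := F)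
        (fun i _ => Finset.mem_image_of_mem _ (Finset.mem_univ _))]
      refine Finset.sum_congr rfl fun v _ => ?_
      rw [Finset.card_eq_sum_ones, Finset.sum_smul]
      refine Finset.sum_congr rfl fun x hx => ?_
      rw [(Finset.mem_filter.mp hx).2, one_smul]
    rw [hs s, hs t]
    refine Finset.sum_congr rfl fun v _ => ?_
    have hmul : ∀ a b : ℕ, a ≡ b [MOD ℓ] → a • v = b • v := by
      have h1 : ∀ a b : ℕ, a ≤ b → a ≡ b [MOD ℓ] → a • v = b • v := by
        intro a b hab h
        obtain ⟨c, rfl⟩ := Nat.exists_eq_add_of_le hab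
        have : ℓ ∣ c := by
          have := (Nat.modEq_iff_dvd' hab).mp h
          simpa using this
        obtain ⟨d, rfl⟩ := this
        rw [add_smul, mul_comm, mul_smul, hM, smul_zero, add_zero]
      intro a b h
      rcases le_total a b with hab | hab
      · exact h1 a b hab h
      · exact (h1 b a hab h.symm).symm
    exact hmul _ _ (h v)
  apply key
  intro v
  -- the action of `Q` on the fibre
  let Y := {x : X // F x = v}
  let _ : MulAction Q Y :=
    { smul := fun q y => ⟨q • y.1, by rw [hF]; exact y.2⟩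
      one_smul := fun y => Subtype.ext (one_smul _ _)
      mul_smul := fun a b y => Subtype.ext (mul_smul _ _ _) }
  have h := hQ.card_modEq_card_fixedPoints Y
  have e1 : Nat.card Y = (Finset.univ.filter (fun x => F x = v)).card := by
    rw [Nat.card_eq_fintype_card, Fintype.card_subtype]
  have e2 : Nat.card (MulAction.fixedPoints Q Y) =
      ((Finset.univ.filter (fun x : X => ∀ q : Q, q • x = x)).filter (fun x => F x = v)).card := by
    rw [Finset.filter_filter]
    rw [← Fintype.card_subtype, ← Nat.card_eq_fintype_card]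
    refine Nat.card_congr ⟨fun y => ⟨y.1.1, ⟨fun q => ?_, y.1.2⟩⟩,
      fun x => ⟨⟨x.1, x.2.2⟩, fun q => Subtype.ext (x.2.1 q)⟩, fun _ => rfl, fun _ => rfl⟩
    exact congrArg Subtype.val (y.2 q)
  rw [e1, e2] at h
  exact h

theorem exists_pow_idem {M : Type*} [Monoid M] [Finite M] (a : M) :
    ∃ N, 0 < N ∧ a ^ N * a ^ N = a ^ N := by
  obtain ⟨i, j, hij, h⟩ := Finite.exists_ne_map_eq_of_infinite (fun n : ℕ => a ^ n)
  wlog hlt : i < j generalizing i j
  · exact this j i hij.symm h.symm (lt_of_le_of_ne (not_lt.mp hlt) hij.symm)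
  obtain ⟨p, hp, rfl⟩ : ∃ p, 0 < p ∧ j = i + p :=
    ⟨j - i, Nat.sub_pos_of_lt hlt, (Nat.add_sub_of_le hlt.le).symm⟩
  have h1 : ∀ n, i ≤ n → a ^ (n + p) = a ^ n := by
    intro n hn
    obtain ⟨c, rfl⟩ := Nat.exists_eq_add_of_le hn
    rw [add_right_comm, pow_add, ← h, ← pow_add]
  have h2 : ∀ k n, i ≤ n → a ^ (n + k * p) = a ^ n := by
    intro k
    induction k with
    | zero => intro n _; simp
    | succ k ih =>
      intro n hn
      rw [Nat.succ_mul, ← add_assoc, h1 _ (hn.trans (Nat.le_add_right _ _)), ih n hn]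
  refine ⟨(i + 1) * p, Nat.mul_pos (Nat.succ_pos _) hp, ?_⟩
  rw [← pow_add]
  exact h2 (i + 1) ((i + 1) * p) (by nlinarith)

end PGroupSums

section Nilpotent

variable {H : Type*} [Group H] [Fintype H]

/-- The group ring element with coefficient function `c`. -/
noncomputable def elt (c : H → ℤ) : MonoidAlgebra ℤ H := ∑ y, MonoidAlgebra.single y (c y)

theorem elt_coeff (c : H → ℤ) (x : H) : (elt c).coeff x = c x := by
  classical
  rw [elt, MonoidAlgebra.coeff_sum, Finsupp.finsetSum_apply, Finset.sum_eq_single x]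
  · simp
  · intro b _ hb
    simp [MonoidAlgebra.coeff_single, hb]
  · simp

theorem om_elt (χ : H → ℂ) (c : H → ℤ) : om χ (elt c) = (∑ y, (c y : ℂ) * χ y) / χ 1 := by
  simp [om, elt_coeff]

theorem mem_center_of_comm {R : Type*} [CommRing R] (z : MonoidAlgebra R H)
    (h : ∀ g : H, MonoidAlgebra.single g 1 * z = z * MonoidAlgebra.single g 1) :
    z ∈ Subalgebra.center R (MonoidAlgebra R H) := by
  rw [Subalgebra.mem_center_iff]
  intro b
  induction b using MonoidAlgebra.induction_linear with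
  | zero => simp
  | add x y hx hy => rw [add_mul, mul_add, hx, hy]
  | single g a =>
    have : MonoidAlgebra.single g a = a • (MonoidAlgebra.single g (1 : R)) := by
      rw [MonoidAlgebra.smul_single, smul_eq_mul, mul_one]
    rw [this, smul_mul_assoc, mul_smul_comm, h g]

theorem elt_mem_center (c : H → ℤ) (hc : ∀ g x, c (g * x * g⁻¹) = c x) :
    elt c ∈ Subalgebra.center ℤ (MonoidAlgebra ℤ H) := by
  apply mem_center_of_comm
  intro g
  rw [elt, Finset.mul_sum, Finset.sum_mul]
  refine Fintype.sum_equiv (MulAut.conj g).toEquiv _ _ ?_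
  intro x
  have : (MulAut.conj g).toEquiv x = g * x * g⁻¹ := rfl
  rw [this, MonoidAlgebra.single_mul_single, MonoidAlgebra.single_mul_single, hc]
  simp

theorem elt_map (ℓ : ℕ) (c : H → ℤ) :
    MonoidAlgebra.mapRingHom H (Int.castRingHom (ZMod ℓ)) (elt c) =
      ∑ y, MonoidAlgebra.single y (c y : ZMod ℓ) := by
  rw [elt, map_sum]
  refine Finset.sum_congr rfl fun y _ => ?_
  rw [MonoidAlgebra.mapRingHom_single]
  rfl

theorem elt_pow_zero {ℓ : ℕ} [Fact ℓ.Prime] (Q : Subgroup H) [Q.Normal] (hQ : IsPGroup ℓ Q)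
    (c : H → ℤ) (hc : ∀ g x, c (g * x * g⁻¹) = c x)
    (hc0 : ∀ y, (∀ q ∈ Q, q * y = y * q) → c y = 0) :
    ∃ N, 0 < N ∧ (MonoidAlgebra.mapRingHom H (Int.castRingHom (ZMod ℓ)) (elt c)) ^ N = 0 := by
  classical
  set z := MonoidAlgebra.mapRingHom H (Int.castRingHom (ZMod ℓ)) (elt c) with hz
  have hfin : Finite (MonoidAlgebra (ZMod ℓ) H) :=
    Finite.of_equiv (H →₀ ZMod ℓ) MonoidAlgebra.coeffEquiv.symm
  obtain ⟨N, hN, hid⟩ := exists_pow_idem z
  refine ⟨N, hN, ?_⟩
  by_contra hne
  have hzc : ∀ w, w * z = z * w := by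
    intro w
    have h1 : z ∈ Subalgebra.center (ZMod ℓ) (MonoidAlgebra (ZMod ℓ) H) := by
      apply mem_center_of_comm
      intro g
      have h2 := Subalgebra.mem_center_iff.mp (elt_mem_center c hc) (MonoidAlgebra.single g 1)
      have h3 := congrArg (MonoidAlgebra.mapRingHom H (Int.castRingHom (ZMod ℓ))) h2
      rw [map_mul, map_mul, MonoidAlgebra.mapRingHom_single, map_one] at h3
      exact h3
    exact Subalgebra.mem_center_iff.mp h1 w
  have hec : ∀ w, w * z ^ N = z ^ N * w := fun w => (Commute.pow_right (hzc w) N : _)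
  -- the additive group of elements fixed by the idempotent
  let K : AddSubgroup (MonoidAlgebra (ZMod ℓ) H) :=
    { carrier := {m | z ^ N * m = m}
      add_mem' := by
        intro a b ha hb
        simp only [Set.mem_ofPred_eq] at ha hb ⊢
        rw [mul_add, ha, hb]
      zero_mem' := by simp
      neg_mem' := by
        intro a ha
        simp only [Set.mem_ofPred_eq] at ha ⊢
        rw [mul_neg, ha] }
  have hkill : ∀ m : MonoidAlgebra (ZMod ℓ) H, ℓ • m = 0 := by
    intro m
    have : (ℓ : ZMod ℓ) • m = 0 := by simp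
    rwa [Nat.cast_smul_eq_nsmul] at this
  let _ : MulAction Q K :=
    { smul := fun q m => ⟨MonoidAlgebra.single (q : H) 1 * m.1, by
        change z ^ N * (MonoidAlgebra.single (q : H) 1 * m.1) = _
        rw [← mul_assoc, ← hec, mul_assoc]
        congr 1
        exact m.2⟩
      one_smul := fun m => Subtype.ext (by
        change MonoidAlgebra.single ((1 : Q) : H) 1 * m.1 = m.1
        rw [OneMemClass.coe_one, ← MonoidAlgebra.one_def, one_mul])
      mul_smul := fun a b m => Subtype.ext (by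
        change MonoidAlgebra.single ((a * b : Q) : H) 1 * m.1 =
          MonoidAlgebra.single (a : H) 1 * (MonoidAlgebra.single (b : H) 1 * m.1)
        rw [← mul_assoc, MonoidAlgebra.single_mul_single, one_mul, Subgroup.coe_mul]) }
  have hdvd : ℓ ∣ Nat.card K := by
    have h1 : addOrderOf (⟨z ^ N, hid⟩ : K) = ℓ := by
      apply addOrderOf_eq_prime
      · exact Subtype.ext (hkill _)
      · intro h0
        exact hne (congrArg Subtype.val h0)
    have h2 := addOrderOf_dvd_natCard (⟨z ^ N, hid⟩ : K)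
    rwa [h1] at h2
  obtain ⟨m, hm, hm0⟩ := hQ.exists_fixed_point_of_prime_dvd_card_of_fixed_point K hdvd
    (a := (0 : K)) (by
      intro q
      apply Subtype.ext
      change MonoidAlgebra.single (q : H) 1 * (0 : MonoidAlgebra (ZMod ℓ) H) = 0
      rw [mul_zero])
  have hfix : ∀ q ∈ Q, MonoidAlgebra.single q 1 * m.1 = m.1 := fun q hq =>
    congrArg Subtype.val (hm ⟨q, hq⟩)
  -- `z` kills `m`
  have hzm : z * m.1 = 0 := by
    rw [hz, elt_map, Finset.sum_mul]
    let _ : MulAction Q H :=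
      { smul := fun q y => q.1 * y * q.1⁻¹
        one_smul := fun y => by change ((1 : Q) : H) * y * ((1 : Q) : H)⁻¹ = y; simp
        mul_smul := fun a b y => by
          change ((a * b : Q) : H) * y * ((a * b : Q) : H)⁻¹ = a.1 * (b.1 * y * b.1⁻¹) * a.1⁻¹
          simp [mul_assoc] }
    have hsmul : ∀ (q : Q) (y : H), q • y = q.1 * y * q.1⁻¹ := fun _ _ => rfl
    rw [sum_eq_sum_fixed hQ hkill]
    · apply Finset.sum_eq_zero
      intro y hy
      have h1 := (Finset.mem_filter.mp hy).2
      have h2 : c y = 0 := by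
        apply hc0
        intro q hq
        have h3 := h1 ⟨q, hq⟩
        rw [hsmul] at h3
        exact mul_inv_eq_iff_eq_mul.mp h3
      rw [h2]
      simp
    · intro q y
      rw [hsmul, hc]
      have h1 : (MonoidAlgebra.single (q.1 * y * q.1⁻¹) ((c y : ℤ) : ZMod ℓ)) =
          MonoidAlgebra.single y ((c y : ℤ) : ZMod ℓ) *
            MonoidAlgebra.single (y⁻¹ * q.1 * y) 1 * MonoidAlgebra.single (q.1⁻¹) 1 := by
        rw [MonoidAlgebra.single_mul_single, MonoidAlgebra.single_mul_single]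
        congr 1
        · group
        · ring
      rw [h1, mul_assoc, mul_assoc, hfix _ (Q.inv_mem q.2), hfix]
      have := Subgroup.Normal.conj_mem (H := Q) inferInstance q.1 q.2 y⁻¹
      simpa using this
  apply hm0
  apply Subtype.ext
  obtain ⟨N', rfl⟩ : ∃ N', N = N' + 1 := ⟨N - 1, by omega⟩
  have h1 : z ^ (N' + 1) * m.1 = m.1 := m.2
  rw [pow_succ, mul_assoc, hzm, mul_zero] at h1
  exact h1

end Nilpotent

end Pool.Agent.Lib_helper13
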