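import Mathlib
import Pool.Agent.Lib_helper13.Central

set_option linter.unusedSectionVars false

/-! Completeness of the irreducible characters among class functions. -/

namespace Pool.Agent.Lib_helper13

open Representation

section

variable {H : Type*} [Group H] [Fintype H]

/-- The operator `∑ f(g) ρ(g⁻¹)`. -/
noncomputable def opSum {V : Type*} [AddCommGroup V] [Module ℂ V] (f : H → ℂ)
    (ρ : Representation ℂ H V) : V →ₗ[ℂ] V := ∑ g, f g • ρ g⁻¹

theorem opSum_apply {V : Type*} [AddCommGroup V] [Module ℂ V] (f : H → ℂ)
    (ρ : Representation ℂ H V) (x : V) : opSum f ρ x = ∑ g, f g • ρ g⁻¹ x := by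
  simp [opSum, LinearMap.sum_apply]

theorem opSum_comm {V : Type*} [AddCommGroup V] [Module ℂ V] (f : H → ℂ)
    (hf : ∀ g x, f (g * x * g⁻¹) = f x) (ρ : Representation ℂ H V) (h : H) (x : V) :
    opSum f ρ (ρ h x) = ρ h (opSum f ρ x) := by
  simp only [opSum_apply, map_sum, map_smul]
  refine Fintype.sum_equiv (MulAut.conj h⁻¹).toEquiv _ _ ?_
  intro g
  have h1 : (MulAut.conj h⁻¹).toEquiv g = h⁻¹ * g * h⁻¹⁻¹ := rfl
  rw [h1, hf]
  congr 1
  rw [← Module.End.mul_apply, ← map_mul, ← Module.End.mul_apply, ← map_mul]
  congr 2
  group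

/-- Restriction of a representation to a subrepresentation, on the nose. -/
theorem opSum_eq_zero_aux (f : H → ℂ) (hf : ∀ g x, f (g * x * g⁻¹) = f x)
    (h : ∀ χ : H → ℂ, IsIrr χ → ∑ g, f g * χ g⁻¹ = 0) :
    ∀ (n : ℕ) {V : Type} [AddCommGroup V] [Module ℂ V] [FiniteDimensional ℂ V]
    (ρ : Representation ℂ H V), Module.finrank ℂ V = n → opSum f ρ = 0 := by
  intro n
  induction n using Nat.strong_induction_on with
  | _ n ih =>
    intro V _ _ _ ρ hn
    by_cases hirr : ρ.IsIrreducible
    · obtain ⟨c, hc⟩ := exists_scalar ρ hirr (opSum f ρ) (fun g x => opSum_comm f hf ρ g x)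
      have h1 : LinearMap.trace ℂ V (opSum f ρ) = 0 := by
        rw [opSum, map_sum]
        have := h ρ.character (isIrr_of_rep ρ hirr)
        simp only [map_smul, smul_eq_mul]
        exact this
      rw [hc, map_smul, LinearMap.trace_id, smul_eq_mul] at h1
      have h2 : (Module.finrank ℂ V : ℂ) ≠ 0 := by
        have := (isIrr_of_rep ρ hirr).one_ne_zero
        rwa [char_one] at this
      have h3 : c = 0 := by
        rcases mul_eq_zero.mp h1 with h | h
        · exact h
        · exact absurd h h2
      rw [hc, h3, zero_smul]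
    · by_cases hsub : Subsingleton V
      · apply LinearMap.ext
        intro x
        exact Subsingleton.elim _ _
      · have hnt : Nontrivial V := not_subsingleton_iff_nontrivial.mp hsub
        -- a proper nonzero subrepresentation
        have hex : ∃ a : Subrepresentation ρ, a ≠ ⊥ ∧ a ≠ ⊤ := by
          by_contra hcon
          push Not at hcon
          apply hirr
          refine { exists_pair_ne := ⟨⊥, ⊤, ?_⟩, eq_bot_or_eq_top := ?_ }
          · intro hbt
            obtain ⟨x, hx⟩ := exists_ne (0 : V)
            apply hx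
            have hxt : x ∈ (⊤ : Subrepresentation ρ) := by
              change x ∈ (⊤ : Submodule ℂ V); trivial
            rw [← hbt] at hxt
            change x ∈ (⊥ : Submodule ℂ V) at hxt
            simpa using hxt
          · intro a
            by_cases ha : a = ⊥
            · exact Or.inl ha
            · exact Or.inr (hcon a ha)
        obtain ⟨a, ha, ha'⟩ := hex
        have hcl : ComplementedLattice (Subrepresentation ρ) :=
          (inferInstance : IsSemisimpleRepresentation ρ)
        obtain ⟨b, hab⟩ := exists_isCompl a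
        have hb' : b ≠ ⊤ := by
          rintro rfl
          apply ha
          have := disjoint_iff.mp hab.1
          rwa [inf_top_eq] at this
        have key : ∀ s : Subrepresentation ρ, s ≠ ⊤ → ∀ x ∈ s, opSum f ρ x = 0 := by
          intro s hs x hx
          have hlt : Module.finrank ℂ s.toSubmodule < n := by
            rw [← hn]
            apply Submodule.finrank_lt
            intro htop
            apply hs
            apply Subrepresentation.toSubmodule_injective
            exact htop
          have h1 := ih _ hlt s.toRepresentation rfl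
          have h2 := congrArg (fun T : s.toSubmodule →ₗ[ℂ] s.toSubmodule =>
            ((T ⟨x, hx⟩ : s.toSubmodule) : V)) h1
          simp only [opSum_apply, LinearMap.zero_apply, ZeroMemClass.coe_zero] at h2
          rw [opSum_apply, ← h2]
          rw [AddSubmonoidClass.coe_finsetSum]
          rfl
        apply LinearMap.ext
        intro x
        have hx : x ∈ (a ⊔ b).toSubmodule := by
          rw [codisjoint_iff.mp hab.2]
          change x ∈ (⊤ : Submodule ℂ V); trivial
        obtain ⟨y, hy, z, hz, rfl⟩ := Submodule.mem_sup.mp hx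
        rw [map_add, key a ha' y hy, key b hb' z hz, add_zero, LinearMap.zero_apply]

/-- A class function orthogonal to all irreducible characters vanishes. -/
theorem class_fn_eq_zero (f : H → ℂ) (hf : ∀ g x, f (g * x * g⁻¹) = f x)
    (h : ∀ χ : H → ℂ, IsIrr χ → ∑ g, f g * χ g⁻¹ = 0) : f = 0 := by
  classical
  -- the regular representation on functions
  let n := Fintype.card H
  let ρ : Representation ℂ H (H → ℂ) :=
    { toFun := fun g =>
        { toFun := fun F x => F (g⁻¹ * x)
          map_add' := fun _ _ => rfl
          map_smul' := fun _ _ => rfl }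
      map_one' := by
        apply LinearMap.ext
        intro F
        ext x
        change F (1⁻¹ * x) = F x
        simp
      map_mul' := by
        intro g k
        apply LinearMap.ext
        intro F
        ext x
        change F ((g * k)⁻¹ * x) = F (k⁻¹ * (g⁻¹ * x))
        rw [mul_inv_rev, mul_assoc] }
  let e : H ≃ Fin n := Fintype.equivFin H
  let E : (H → ℂ) ≃ₗ[ℂ] (Fin n → ℂ) := LinearEquiv.funCongrLeft ℂ ℂ e.symm
  have h1 := opSum_eq_zero_aux f hf h _ (transport E ρ) rfl
  have h2 : ∀ F : H → ℂ, opSum f ρ F = 0 := by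
    intro F
    have h3 := congrArg (fun T : (Fin n → ℂ) →ₗ[ℂ] (Fin n → ℂ) => T (E F)) h1
    simp only [opSum_apply, LinearMap.zero_apply] at h3
    rw [opSum_apply]
    apply E.injective
    rw [map_sum, map_zero, ← h3]
    refine Finset.sum_congr rfl fun g _ => ?_
    rw [map_smul]
    congr 1
    change E (ρ g⁻¹ F) = E (ρ g⁻¹ (E.symm (E F)))
    rw [E.symm_apply_apply]
  ext x
  have h4 := congrFun (h2 (Pi.single 1 1)) x⁻¹
  rw [opSum_apply, Finset.sum_apply] at h4
  have h5 : ∀ g : H, (f g • ρ g⁻¹ (Pi.single 1 1 : H → ℂ)) x⁻¹ = if g = x then f g else 0 := by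
    intro g
    change f g * (Pi.single 1 1 : H → ℂ) (g⁻¹⁻¹ * x⁻¹) = _
    rw [inv_inv, Pi.single_apply]
    by_cases hg : g = x
    · subst hg; simp
    · rw [if_neg hg, if_neg, mul_zero]
      intro h6
      exact hg (mul_inv_eq_one.mp h6)
  simp only [h5] at h4
  rw [Finset.sum_ite_eq' Finset.univ x f] at h4
  simpa using h4

/-- A nonzero class function has a nonzero inner product with some irreducible character. -/
theorem exists_irr_of_ne_zero (f : H → ℂ) (hf : ∀ g x, f (g * x * g⁻¹) = f x) (h0 : f ≠ 0) :
    ∃ χ : H → ℂ, IsIrr χ ∧ ∑ g, f g * χ g⁻¹ ≠ 0 := by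
  by_contra hcon
  push Not at hcon
  exact h0 (class_fn_eq_zero f hf hcon)

end

end Pool.Agent.Lib_helper13
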