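import Mathlib
import Pool.Agent.Lib_helper13.CharBasic

set_option linter.unusedSectionVars false

/-! The method of little groups for a semidirect product `A ⋊ K` with `A` abelian. -/

namespace Pool.Agent.Lib_helper13

open Representation

section Cosets

variable {K : Type*} [Group K] [Fintype K]

theorem sum_cosets (S : Subgroup K) [Fintype (K ⧸ S)] (F : K → ℂ)
    (hF : ∀ t, ∀ h ∈ S, F (t * h) = F t) :
    ∑ t : K, F t = Nat.card S * ∑ c : K ⧸ S, F c.out := by
  classical
  have hb : Function.Bijective (fun p : (K ⧸ S) × S => p.1.out * (p.2 : K)) := by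
    constructor
    · rintro ⟨c, h⟩ ⟨c', h'⟩ heq
      simp only at heq
      have h1 : c = c' := by
        have e1 : (QuotientGroup.mk (c.out * (h : K)) : K ⧸ S) = c := by
          rw [QuotientGroup.mk_mul_of_mem _ h.2, QuotientGroup.out_eq']
        have e2 : (QuotientGroup.mk (c'.out * (h' : K)) : K ⧸ S) = c' := by
          rw [QuotientGroup.mk_mul_of_mem _ h'.2, QuotientGroup.out_eq']
        rw [← e1, ← e2, heq]
      subst h1
      rw [Prod.mk.injEq]
      exact ⟨rfl, Subtype.ext (mul_left_cancel heq)⟩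
    · intro t
      refine ⟨(QuotientGroup.mk t, ⟨(QuotientGroup.mk t : K ⧸ S).out⁻¹ * t, ?_⟩), ?_⟩
      · rw [← QuotientGroup.eq, QuotientGroup.out_eq']
      · simp
  rw [← Fintype.sum_bijective _ hb (fun p => F (p.1.out * p.2)) F (fun _ => rfl),
    Fintype.sum_prod_type, Finset.mul_sum]
  refine Finset.sum_congr rfl fun c _ => ?_
  have : ∀ y : S, F (c.out * (y : K)) = F c.out := fun y => hF _ _ y.2
  simp only [this, Finset.sum_const, Finset.card_univ, nsmul_eq_mul, Nat.card_eq_fintype_card]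

end Cosets

section Trace

/-- Trace of a block monomial operator. -/
theorem trace_block {ι : Type*} [Fintype ι] [DecidableEq ι] {V : Type*} [AddCommGroup V]
    [Module ℂ V] [FiniteDimensional ℂ V] (π : ι → ι) (T : ι → V →ₗ[ℂ] V) :
    LinearMap.trace ℂ (ι → V) (LinearMap.pi fun c => (T c) ∘ₗ LinearMap.proj (π c)) =
      ∑ c, if π c = c then LinearMap.trace ℂ V (T c) else 0 := by
  have h1 : (LinearMap.pi fun c => (T c) ∘ₗ LinearMap.proj (π c) : (ι → V) →ₗ[ℂ] (ι → V)) =
      ∑ c, LinearMap.single ℂ (fun _ : ι => V) c ∘ₗ ((T c) ∘ₗ LinearMap.proj (π c)) := by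
    apply LinearMap.ext
    intro f
    ext d
    rw [LinearMap.sum_apply, Finset.sum_apply, Finset.sum_eq_single d]
    · simp
    · intro b _ hb
      simp [Ne.symm hb]
    · simp
  rw [h1, map_sum]
  refine Finset.sum_congr rfl fun c _ => ?_
  rw [LinearMap.trace_comp_comm']
  split_ifs with hc
  · congr 1
    ext v
    simp [hc]
  · have : ((T c) ∘ₗ LinearMap.proj (π c)) ∘ₗ LinearMap.single ℂ (fun _ : ι => V) c = 0 := by
      ext v
      simp [hc]
    rw [this, map_zero]

end Trace

section Induced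

variable {A K : Type*} [CommGroup A] [Group K] (φ : K →* MulAut A) (lam : A →* ℂˣ)

/-- The stabilizer in `K` of a linear character of `A`. -/
def stab : Subgroup K where
  carrier := {k | ∀ a, lam (φ k a) = lam a}
  one_mem' := by simp
  mul_mem' := by
    intro a b ha hb x
    rw [map_mul, MulAut.mul_apply, ha, hb]
  inv_mem' := by
    intro k hk a
    have h1 := hk (φ k⁻¹ a)
    rw [← MulAut.mul_apply, ← map_mul, mul_inv_cancel, map_one, MulAut.one_apply] at h1
    exact h1.symm

theorem mem_stab {k : K} : k ∈ stab φ lam ↔ ∀ a, lam (φ k a) = lam a := Iff.rfl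

theorem coset_mem (k : K) (c : K ⧸ stab φ lam) :
    c.out⁻¹ * k * (k⁻¹ • c).out ∈ stab φ lam := by
  have h1 : (QuotientGroup.mk (k * (k⁻¹ • c).out) : K ⧸ stab φ lam) = c := by
    have : (QuotientGroup.mk (k * (k⁻¹ • c).out) : K ⧸ stab φ lam) =
        k • (QuotientGroup.mk (k⁻¹ • c).out : K ⧸ stab φ lam) := rfl
    rw [this, QuotientGroup.out_eq', smul_inv_smul]
  have h2 : (QuotientGroup.mk c.out : K ⧸ stab φ lam) = QuotientGroup.mk (k * (k⁻¹ • c).out) := by
    rw [h1, QuotientGroup.out_eq']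
  rw [QuotientGroup.eq] at h2
  rwa [mul_assoc]

/-- Extension by zero of a representation of a subgroup. -/
noncomputable def sgExt {K : Type*} [Group K] {S : Subgroup K} {V : Type*} [AddCommGroup V]
    [Module ℂ V] (σ : Representation ℂ S V) (k : K) : V →ₗ[ℂ] V :=
  open Classical in if h : k ∈ S then σ ⟨k, h⟩ else 0

theorem sgExt_of_mem {K : Type*} [Group K] {S : Subgroup K} {V : Type*} [AddCommGroup V]
    [Module ℂ V] (σ : Representation ℂ S V) {k : K} (h : k ∈ S) : sgExt σ k = σ ⟨k, h⟩ := by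
  simp [sgExt, h]

theorem sgExt_one {K : Type*} [Group K] {S : Subgroup K} {V : Type*} [AddCommGroup V]
    [Module ℂ V] (σ : Representation ℂ S V) (v : V) : sgExt σ 1 v = v := by
  rw [sgExt_of_mem σ S.one_mem]
  have : (⟨1, S.one_mem⟩ : S) = 1 := rfl
  rw [this, map_one]
  rfl

theorem sgExt_mul {K : Type*} [Group K] {S : Subgroup K} {V : Type*} [AddCommGroup V]
    [Module ℂ V] (σ : Representation ℂ S V) {k l : K} (h : k ∈ S) (h' : l ∈ S) (v : V) :
    sgExt σ (k * l) v = sgExt σ k (sgExt σ l v) := by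
  rw [sgExt_of_mem σ h, sgExt_of_mem σ h', sgExt_of_mem σ (mul_mem h h')]
  have : (⟨k * l, mul_mem h h'⟩ : S) = ⟨k, h⟩ * ⟨l, h'⟩ := rfl
  rw [this, map_mul]
  rfl

/-- The representation of `A ⋊ K` induced from `lam ⊗ σ` on `A ⋊ stab lam`. -/
noncomputable def indRep {V : Type*} [AddCommGroup V] [Module ℂ V]
    (σ : Representation ℂ (stab φ lam) V) :
    Representation ℂ (A ⋊[φ] K) ((K ⧸ stab φ lam) → V) where
  toFun x := LinearMap.pi fun c =>
    (((lam (φ c.out⁻¹ x.left) : ℂˣ) : ℂ) •
      sgExt σ (c.out⁻¹ * x.right * (x.right⁻¹ • c).out)) ∘ₗ LinearMap.proj (x.right⁻¹ • c)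
  map_one' := by
    apply LinearMap.ext
    intro f
    ext1 c
    have h1 : (1 : K)⁻¹ • c = c := by simp
    simp only [LinearMap.pi_apply, LinearMap.comp_apply, map_one, LinearMap.smul_apply,
      SemidirectProduct.one_left, SemidirectProduct.one_right, LinearMap.proj_apply, h1,
      Units.val_one, one_smul, Module.End.one_apply, mul_one, inv_mul_cancel, sgExt_one]
  map_mul' x y := by
    apply LinearMap.ext
    intro f
    ext1 c
    simp only [LinearMap.pi_apply, LinearMap.comp_apply, LinearMap.smul_apply,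
      LinearMap.proj_apply, Module.End.mul_apply, map_smul, smul_smul]
    have h1 : (y.right⁻¹ * x.right⁻¹) • c = (x * y).right⁻¹ • c := by
      rw [SemidirectProduct.mul_right, mul_inv_rev]
    have h2 : c.out⁻¹ * (x * y).right * ((x * y).right⁻¹ • c).out =
        (c.out⁻¹ * x.right * (x.right⁻¹ • c).out) *
        ((x.right⁻¹ • c).out⁻¹ * y.right * (y.right⁻¹ • (x.right⁻¹ • c)).out) := by
      rw [smul_smul, h1, SemidirectProduct.mul_right]
      group
    rw [h2, sgExt_mul σ (coset_mem φ lam x.right c) (coset_mem φ lam y.right (x.right⁻¹ • c)),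
      smul_smul, h1]
    congr 1
    rw [SemidirectProduct.mul_left, map_mul, map_mul]
    have h3 : lam (φ c.out⁻¹ (φ x.right y.left)) = lam (φ (x.right⁻¹ • c).out⁻¹ y.left) := by
      have h4 := coset_mem φ lam x.right c (φ (x.right⁻¹ • c).out⁻¹ y.left)
      rw [← h4, ← MulAut.mul_apply, ← map_mul, ← MulAut.mul_apply, ← map_mul]
      congr 3
      group
    rw [h3]
    push_cast
    ring

theorem indRep_character [Fintype K] [DecidableEq (K ⧸ stab φ lam)] [Fintype (K ⧸ stab φ lam)]
    {V : Type*} [AddCommGroup V] [Module ℂ V] [FiniteDimensional ℂ V]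
    (σ : Representation ℂ (stab φ lam) V) (x : A ⋊[φ] K) :
    (indRep φ lam σ).character x = ∑ c : K ⧸ stab φ lam, if x.right⁻¹ • c = c then
      ((lam (φ c.out⁻¹ x.left) : ℂˣ) : ℂ) * σ.character ⟨c.out⁻¹ * x.right * (x.right⁻¹ • c).out,
        coset_mem φ lam x.right c⟩ else 0 := by
  have h := trace_block (fun c : K ⧸ stab φ lam => x.right⁻¹ • c) (fun c =>
    (((lam (φ c.out⁻¹ x.left) : ℂˣ) : ℂ) •
      sgExt σ (c.out⁻¹ * x.right * (x.right⁻¹ • c).out)))
  refine h.trans ?_
  refine Finset.sum_congr rfl fun c _ => ?_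
  rw [map_smul, sgExt_of_mem σ (coset_mem φ lam x.right c)]
  rfl

/-- Extension by zero of a function on a subgroup. -/
noncomputable def ext0 {K : Type*} [Group K] {S : Subgroup K} (ψ : S → ℂ) (k : K) : ℂ :=
  open Classical in if h : k ∈ S then ψ ⟨k, h⟩ else 0

theorem ext0_of_mem {K : Type*} [Group K] {S : Subgroup K} (ψ : S → ℂ) {k : K} (h : k ∈ S) :
    ext0 ψ k = ψ ⟨k, h⟩ := by simp [ext0, h]

theorem ext0_of_not_mem {K : Type*} [Group K] {S : Subgroup K} (ψ : S → ℂ) {k : K} (h : k ∉ S) :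
    ext0 ψ k = 0 := by simp [ext0, h]

/-- The induced class function. -/
noncomputable def indChar [Fintype K] (ψ : stab φ lam → ℂ) (x : A ⋊[φ] K) : ℂ :=
  (∑ t : K, ((lam (φ t⁻¹ x.left) : ℂˣ) : ℂ) * ext0 ψ (t⁻¹ * x.right * t)) /
    Nat.card (stab φ lam)

theorem indRep_character_eq [Fintype K] {n : ℕ} (σ : Representation ℂ (stab φ lam) (Fin n → ℂ)) :
    (indRep φ lam σ).character = indChar φ lam σ.character := by
  classical
  ext x
  rw [indRep_character, indChar]
  rw [sum_cosets (stab φ lam)]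
  · rw [mul_comm, mul_div_assoc, div_self (natCard_ne_zero (H := stab φ lam)), mul_one]
    refine Finset.sum_congr rfl fun c _ => ?_
    have hiff : x.right⁻¹ • c = c ↔ c.out⁻¹ * x.right * c.out ∈ stab φ lam := by
      have h1 : (QuotientGroup.mk (x.right * c.out) : K ⧸ stab φ lam) = x.right • c := by
        have : (QuotientGroup.mk (x.right * c.out) : K ⧸ stab φ lam) =
          x.right • (QuotientGroup.mk c.out : K ⧸ stab φ lam) := rfl
        rw [this, QuotientGroup.out_eq']
      rw [mul_assoc, ← QuotientGroup.eq, h1, QuotientGroup.out_eq', inv_smul_eq_iff]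
    split_ifs with hc
    · rw [ext0_of_mem _ (hiff.mp hc)]
      congr 3
      rw [hc]
    · rw [ext0_of_not_mem _ (fun h => hc (hiff.mpr h)), mul_zero]
  · intro t h hh
    have h1 : lam (φ (t * h)⁻¹ x.left) = lam (φ t⁻¹ x.left) := by
      rw [mul_inv_rev, map_mul, MulAut.mul_apply]
      exact (stab φ lam).inv_mem hh _
    rw [h1]
    congr 1
    by_cases hm : t⁻¹ * x.right * t ∈ stab φ lam
    · have hm' : (t * h)⁻¹ * x.right * (t * h) ∈ stab φ lam := by
        have : (t * h)⁻¹ * x.right * (t * h) = h⁻¹ * (t⁻¹ * x.right * t) * h := by group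
        rw [this]
        exact mul_mem (mul_mem (inv_mem hh) hm) hh
      rw [ext0_of_mem _ hm, ext0_of_mem _ hm']
      have := char_conj σ ⟨t⁻¹ * x.right * t, hm⟩ (⟨h, hh⟩⁻¹ : stab φ lam)
      rw [← this]
      congr 1
      apply Subtype.ext
      change (t * h)⁻¹ * x.right * (t * h) = h⁻¹ * (t⁻¹ * x.right * t) * h⁻¹⁻¹
      group
    · have hm' : (t * h)⁻¹ * x.right * (t * h) ∉ stab φ lam := by
        intro hm'
        apply hm
        have : t⁻¹ * x.right * t = h * ((t * h)⁻¹ * x.right * (t * h)) * h⁻¹ := by group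
        rw [this]
        exact mul_mem (mul_mem hh hm') (inv_mem hh)
      rw [ext0_of_not_mem _ hm, ext0_of_not_mem _ hm']

end Induced

end Pool.Agent.Lib_helper13
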