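import Mathlib
import Pool.Agent.Lib_helper13.Complete
import Pool.Agent.Lib_helper13.Little

set_option linter.unusedSectionVars false

/-! Classification of the irreducible characters of `A ⋊ K`, `A` abelian. -/

namespace Pool.Agent.Lib_helper13

open Representation

section LinChar

variable {A : Type*} [CommGroup A]

instance finiteLinChar [Finite A] : Finite (A →* ℂˣ) := by
  have : NeZero (Monoid.exponent A : ℂ) := by
    constructor
    have := Monoid.exponent_ne_zero_of_finite (G := A)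
    exact_mod_cast this
  obtain ⟨e⟩ := CommGroup.monoidHom_mulEquiv_of_hasEnoughRootsOfUnity A ℂ
  exact Finite.of_equiv A e.symm.toEquiv

theorem exists_linChar_ne_one [Finite A] {a : A} (ha : a ≠ 1) : ∃ μ : A →* ℂˣ, μ a ≠ 1 := by
  have : NeZero (Monoid.exponent A : ℂ) := by
    constructor
    have := Monoid.exponent_ne_zero_of_finite (G := A)
    exact_mod_cast this
  exact CommGroup.exists_apply_ne_one_of_hasEnoughRootsOfUnity A ℂ ha

theorem sum_lin [Fintype A] (μ : A →* ℂˣ) [Decidable (μ = 1)] :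
    ∑ a, ((μ a : ℂˣ) : ℂ) = if μ = 1 then (Nat.card A : ℂ) else 0 := by
  split_ifs with h
  · subst h
    simp [Nat.card_eq_fintype_card]
  · have := sum_hom_units_eq_zero ((Units.coeHom ℂ).comp μ) (by
      intro h1
      apply h
      ext a
      exact congrArg (fun f : A →* ℂ => f a) h1)
    exact this

theorem sum_dual [Finite A] [Fintype (A →* ℂˣ)] {a : A} (ha : a ≠ 1) :
    ∑ μ : A →* ℂˣ, ((μ a : ℂˣ) : ℂ) = 0 := by
  obtain ⟨ν, hν⟩ := exists_linChar_ne_one ha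
  have h1 : ∑ μ : A →* ℂˣ, ((μ a : ℂˣ) : ℂ) = ∑ μ : A →* ℂˣ, (((ν * μ) a : ℂˣ) : ℂ) :=
    (Fintype.sum_equiv (Equiv.mulLeft ν) _ _ fun μ => rfl).symm
  have h2 : ∑ μ : A →* ℂˣ, (((ν * μ) a : ℂˣ) : ℂ) =
      ((ν a : ℂˣ) : ℂ) * ∑ μ : A →* ℂˣ, ((μ a : ℂˣ) : ℂ) := by
    rw [Finset.mul_sum]
    refine Finset.sum_congr rfl fun μ _ => ?_
    simp
  rw [h2] at h1
  have h3 : ((ν a : ℂˣ) : ℂ) ≠ 1 := by
    intro h
    exact hν (Units.ext h)
  have h4 : (((ν a : ℂˣ) : ℂ) - 1) * ∑ μ : A →* ℂˣ, ((μ a : ℂˣ) : ℂ) = 0 := by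
    rw [sub_mul, one_mul, ← h1, sub_self]
  rcases mul_eq_zero.mp h4 with h | h
  · exact absurd (sub_eq_zero.mp h) h3
  · exact h

end LinChar

section Sdp

variable {A K : Type*} [CommGroup A] [Fintype A] [Group K] [Fintype K] (φ : K →* MulAut A)

noncomputable instance fintypeSdp : Fintype (A ⋊[φ] K) :=
  Fintype.ofEquiv (A × K) (SemidirectProduct.equivProd (φ := φ)).symm

theorem sum_sdp {M : Type*} [AddCommMonoid M] (F : A ⋊[φ] K → M) :
    ∑ x, F x = ∑ k : K, ∑ a : A, F ⟨a, k⟩ := by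
  rw [← Fintype.sum_equiv (SemidirectProduct.equivProd (φ := φ)).symm
    (fun p : A × K => F ⟨p.1, p.2⟩) F (fun _ => rfl), Fintype.sum_prod_type_right]

theorem natCard_sdp : Nat.card (A ⋊[φ] K) = Nat.card A * Nat.card K := SemidirectProduct.card

end Sdp

section Fou

variable {A K : Type*} [CommGroup A] [Fintype A] [Group K] [Fintype K] {φ : K →* MulAut A}
  (lam : A →* ℂˣ)

noncomputable instance fintypeStab {A K : Type*} [CommGroup A] [Group K] [Finite K]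
    {φ : K →* MulAut A} {lam : A →* ℂˣ} : Fintype (stab φ lam) := Fintype.ofFinite _

/-- The `lam`-component of a function on `A ⋊ K`. -/
noncomputable def fou (θ : A ⋊[φ] K → ℂ) (k : K) : ℂ :=
  (∑ a : A, (((lam a)⁻¹ : ℂˣ) : ℂ) * θ ⟨a, k⟩) / Nat.card A

theorem conj_inr (t k : K) (a : A) :
    (SemidirectProduct.inr t : A ⋊[φ] K) * ⟨a, k⟩ * (SemidirectProduct.inr t)⁻¹ =
      ⟨φ t a, t * k * t⁻¹⟩ := by
  ext <;> simp

theorem fou_conj {θ : A ⋊[φ] K → ℂ} (hθ : ∀ g x, θ (g * x * g⁻¹) = θ x) {t : K}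
    (ht : t ∈ stab φ lam) (k : K) : fou lam θ (t * k * t⁻¹) = fou lam θ k := by
  rw [fou, fou]
  congr 1
  symm
  refine Fintype.sum_equiv (φ t).toEquiv _ _ ?_
  intro a
  have h1 : (φ t).toEquiv a = φ t a := rfl
  rw [h1, ht a, ← conj_inr, hθ]

/-- Frobenius reciprocity for `indChar`. -/
theorem sum_mul_indChar {θ : A ⋊[φ] K → ℂ} (hθ : ∀ g x, θ (g * x * g⁻¹) = θ x)
    (ψ : stab φ lam → ℂ) :
    ∑ x, θ x * indChar φ lam ψ x⁻¹ =
      (Nat.card K * Nat.card A / Nat.card (stab φ lam)) *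
        ∑ k : stab φ lam, fou lam θ (k : K) * ψ k⁻¹ := by
  classical
  -- the summand attached to `t`
  have h1 : ∀ t : K, ∑ x : A ⋊[φ] K, θ x *
      (((lam (φ t⁻¹ (x⁻¹).left) : ℂˣ) : ℂ) * ext0 ψ (t⁻¹ * (x⁻¹).right * t)) =
      ∑ x : A ⋊[φ] K, θ x * (((lam (x⁻¹).left : ℂˣ) : ℂ) * ext0 ψ ((x⁻¹).right)) := by
    intro t
    refine Fintype.sum_equiv (MulAut.conj (SemidirectProduct.inr t⁻¹ : A ⋊[φ] K)).toEquiv _ _ ?_
    intro x
    have h2 : (MulAut.conj (SemidirectProduct.inr t⁻¹ : A ⋊[φ] K)).toEquiv x =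
      SemidirectProduct.inr t⁻¹ * x * (SemidirectProduct.inr t⁻¹)⁻¹ := rfl
    rw [h2, hθ]
    congr 1
    have h3 : (SemidirectProduct.inr t⁻¹ * x * (SemidirectProduct.inr t⁻¹)⁻¹ : A ⋊[φ] K)⁻¹ =
      SemidirectProduct.inr t⁻¹ * x⁻¹ * (SemidirectProduct.inr t⁻¹)⁻¹ := by group
    rw [h3]
    obtain ⟨b, l⟩ := x⁻¹
    rw [conj_inr]
    simp
  have h2 : ∑ x : A ⋊[φ] K, θ x * (((lam (x⁻¹).left : ℂˣ) : ℂ) * ext0 ψ ((x⁻¹).right)) =
      Nat.card A * ∑ k : stab φ lam, fou lam θ (k : K) * ψ k⁻¹ := by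
    rw [sum_sdp]
    have h3 : ∀ k : K, ∑ a : A, θ (⟨a, k⟩ : A ⋊[φ] K) *
        (((lam ((⟨a, k⟩ : A ⋊[φ] K)⁻¹).left : ℂˣ) : ℂ) *
          ext0 ψ (((⟨a, k⟩ : A ⋊[φ] K)⁻¹).right)) =
        if h : k ∈ stab φ lam then Nat.card A * (fou lam θ k * ψ ⟨k, h⟩⁻¹) else 0 := by
      intro k
      split_ifs with hk
      · have h4 : ∀ a : A, lam ((⟨a, k⟩ : A ⋊[φ] K)⁻¹).left = (lam a)⁻¹ := by
          intro a
          rw [SemidirectProduct.inv_left]
          change lam (φ k⁻¹ a⁻¹) = _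
          rw [(stab φ lam).inv_mem hk, map_inv]
        have h5 : ∀ a : A, ((⟨a, k⟩ : A ⋊[φ] K)⁻¹).right = k⁻¹ := fun a => rfl
        simp only [h4, h5]
        rw [ext0_of_mem ψ ((stab φ lam).inv_mem hk), fou]
        have hA : (Nat.card A : ℂ) ≠ 0 := natCard_ne_zero
        field_simp
        rw [Finset.sum_mul]
        refine Finset.sum_congr rfl fun a _ => ?_
        change _ = _ * ψ ⟨k⁻¹, _⟩
        ring
      · apply Finset.sum_eq_zero
        intro a _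
        rw [ext0_of_not_mem, mul_zero, mul_zero]
        intro h
        exact hk (by simpa using (stab φ lam).inv_mem h)
    simp only [h3]
    rw [Finset.mul_sum]
    rw [← Finset.sum_subset (Finset.subset_univ (Finset.univ.filter (fun k => k ∈ stab φ lam)))]
    · rw [← Finset.sum_subtype_eq_sum_filter, Finset.subtype_univ]
      refine Fintype.sum_equiv (Equiv.refl _) _ _ ?_
      rintro ⟨k, hk⟩
      simp only [Equiv.refl_apply]
      rw [dif_pos hk]
    · intro k _ hk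
      rw [dif_neg]
      intro h
      exact hk (Finset.mem_filter.mpr ⟨Finset.mem_univ _, h⟩)
  have h3 : ∀ x : A ⋊[φ] K, θ x * indChar φ lam ψ x⁻¹ = (∑ t : K, θ x *
      (((lam (φ t⁻¹ (x⁻¹).left) : ℂˣ) : ℂ) * ext0 ψ (t⁻¹ * (x⁻¹).right * t))) /
        Nat.card (stab φ lam) := by
    intro x
    rw [indChar, ← Finset.mul_sum, mul_div_assoc]
  simp only [h3]
  rw [← Finset.sum_div, Finset.sum_comm]
  simp only [h1, h2]
  rw [Finset.sum_const, Finset.card_univ, nsmul_eq_mul, Nat.card_eq_fintype_card (α := K)]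
  ring

theorem lin_comp_eq_iff (t : K) : (lam⁻¹ * lam.comp (φ t⁻¹).toMonoidHom = 1) ↔
    t ∈ stab φ lam := by
  constructor
  · intro h
    rw [← Subgroup.inv_mem_iff]
    intro a
    have := congrArg (fun f : A →* ℂˣ => f a) h
    simp only [MonoidHom.mul_apply, MonoidHom.inv_apply, MonoidHom.comp_apply,
      MonoidHom.one_apply] at this
    exact (inv_mul_eq_one.mp this).symm
  · intro h
    ext a
    have := (stab φ lam).inv_mem h a
    simp only [MonoidHom.mul_apply, MonoidHom.inv_apply, MonoidHom.comp_apply,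
      MonoidHom.one_apply]
    change (((lam a)⁻¹ * lam (φ t⁻¹ a) : ℂˣ) : ℂ) = 1
    rw [this, inv_mul_cancel, Units.val_one]

theorem fou_indChar {ψ : stab φ lam → ℂ} (hψ : ∀ g x, ψ (g * x * g⁻¹) = ψ x)
    (k : stab φ lam) : fou lam (indChar φ lam ψ) (k : K) = ψ k := by
  classical
  have hA : (Nat.card A : ℂ) ≠ 0 := natCard_ne_zero
  have hS : (Nat.card (stab φ lam) : ℂ) ≠ 0 := natCard_ne_zero
  rw [fou, div_eq_iff hA]
  have h1 : ∀ a : A, (((lam a)⁻¹ : ℂˣ) : ℂ) * indChar φ lam ψ ⟨a, (k : K)⟩ =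
      (∑ t : K, (((lam⁻¹ * lam.comp (φ t⁻¹).toMonoidHom) a : ℂˣ) : ℂ) *
        ext0 ψ (t⁻¹ * k * t)) / Nat.card (stab φ lam) := by
    intro a
    rw [indChar, mul_div_assoc', Finset.mul_sum]
    congr 1
    refine Finset.sum_congr rfl fun t _ => ?_
    rw [← mul_assoc]
    rfl
  simp only [h1]
  rw [← Finset.sum_div, Finset.sum_comm]
  simp only [← Finset.sum_mul]
  rw [div_eq_iff hS]
  have h2 : ∀ t : K, (∑ a : A, (((lam⁻¹ * lam.comp (φ t⁻¹).toMonoidHom) a : ℂˣ) : ℂ)) *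
      ext0 ψ (t⁻¹ * k * t) = if t ∈ stab φ lam then Nat.card A * ψ k else 0 := by
    intro t
    rw [sum_lin]
    split_ifs with h h' h'
    · congr 1
      have h3 : t⁻¹ * (k : K) * t ∈ stab φ lam := mul_mem (mul_mem (inv_mem h') k.2) h'
      rw [ext0_of_mem ψ h3]
      have := hψ ⟨t, h'⟩⁻¹ k
      rw [← this]
      congr 1
      apply Subtype.ext
      change t⁻¹ * (k : K) * t = t⁻¹ * (k : K) * t⁻¹⁻¹
      rw [inv_inv]
    · exact absurd ((lin_comp_eq_iff lam t).mp h) h'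
    · exact absurd ((lin_comp_eq_iff lam t).mpr h') h
    · rw [zero_mul]
  simp only [h2]
  rw [← Finset.sum_filter, Finset.sum_const, nsmul_eq_mul]
  have h3 : ((Finset.univ.filter (fun t => t ∈ stab φ lam)).card : ℂ) =
      Nat.card (stab φ lam) := by
    rw [Nat.card_eq_fintype_card, Fintype.card_subtype]
  rw [h3]
  ring

theorem isIrr_indChar {ψ : stab φ lam → ℂ} (hψ : IsIrr ψ) : IsIrr (indChar φ lam ψ) := by
  obtain ⟨n, σ, hσ, rfl⟩ := hψ
  have hψ : IsIrr σ.character := ⟨n, σ, hσ, rfl⟩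
  rw [← indRep_character_eq]
  apply isIrr_of_rep_sum
  have hcl : ∀ g x, (indRep φ lam σ).character (g * x * g⁻¹) = (indRep φ lam σ).character x :=
    fun g x => char_conj _ _ _
  rw [indRep_character_eq] at hcl ⊢
  have h1 := sum_mul_indChar lam hcl σ.character
  rw [h1]
  have h2 : ∀ k : stab φ lam, fou lam (indChar φ lam σ.character) (k : K) = σ.character k :=
    fun k => fou_indChar lam (fun g x => hψ.conj_eq g x) k
  simp only [h2]
  rw [hψ.sum_self, natCard_sdp]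
  have hS : (Nat.card (stab φ lam) : ℂ) ≠ 0 := natCard_ne_zero
  push_cast
  field_simp

theorem exists_of_fou_ne_zero {θ : A ⋊[φ] K → ℂ} (hθ : IsIrr θ)
    (h : ∃ k ∈ stab φ lam, fou lam θ k ≠ 0) :
    ∃ ψ : stab φ lam → ℂ, IsIrr ψ ∧ indChar φ lam ψ = θ := by
  obtain ⟨k₀, hk₀, hk₀'⟩ := h
  obtain ⟨ψ, hψ, hne⟩ := exists_irr_of_ne_zero (fun k : stab φ lam => fou lam θ (k : K))
    (fun g x => fou_conj lam (fun g x => hθ.conj_eq g x) g.2 _) (by
      intro h0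
      exact hk₀' (congrFun h0 ⟨k₀, hk₀⟩))
  refine ⟨ψ, hψ, ?_⟩
  by_contra hcon
  have h1 := hθ.sum_ne (isIrr_indChar lam hψ) (fun h => hcon h.symm)
  rw [sum_mul_indChar lam (fun g x => hθ.conj_eq g x)] at h1
  have hS : (Nat.card (stab φ lam) : ℂ) ≠ 0 := natCard_ne_zero
  have hA : (Nat.card A : ℂ) ≠ 0 := natCard_ne_zero
  have hK : (Nat.card K : ℂ) ≠ 0 := natCard_ne_zero
  rcases mul_eq_zero.mp h1 with h2 | h2
  · exact (div_ne_zero (mul_ne_zero hK hA) hS) h2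
  · exact hne h2

end Fou

end Pool.Agent.Lib_helper13
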