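import Mathlib
import Pool.Agent.Lib_helper13.Fourier

set_option linter.unusedSectionVars false

/-! Counting irreducible characters of `A ⋊ K` by little groups. -/

namespace Pool.Agent.Lib_helper13

open Representation

section

variable {A K : Type*} [CommGroup A] [Fintype A] [Group K] [Fintype K] {φ : K →* MulAut A}

noncomputable instance fintypeLinChar {A : Type*} [CommGroup A] [Finite A] :
    Fintype (A →* ℂˣ) := Fintype.ofFinite _

theorem exists_fou_one_ne_zero {θ : A ⋊[φ] K → ℂ} (hθ : IsIrr θ) :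
    ∃ lam : A →* ℂˣ, fou lam θ (1 : K) ≠ 0 := by
  classical
  by_contra hcon
  push Not at hcon
  have hA : (Nat.card A : ℂ) ≠ 0 := natCard_ne_zero
  have h1 : ∑ lam : A →* ℂˣ, (Nat.card A : ℂ) * fou lam θ (1 : K) = 0 := by
    apply Finset.sum_eq_zero
    intro lam _
    rw [hcon, mul_zero]
  have h2 : ∀ lam : A →* ℂˣ, (Nat.card A : ℂ) * fou lam θ (1 : K) =
      ∑ a : A, (((lam a⁻¹) : ℂˣ) : ℂ) * θ ⟨a, 1⟩ := by
    intro lam
    rw [fou, mul_div_cancel₀ _ hA]
    simp only [map_inv]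
  simp only [h2] at h1
  rw [Finset.sum_comm] at h1
  simp only [← Finset.sum_mul] at h1
  rw [Finset.sum_eq_single (1 : A)] at h1
  · have h3 : (∑ lam : A →* ℂˣ, (((lam (1 : A)⁻¹) : ℂˣ) : ℂ)) = Fintype.card (A →* ℂˣ) := by
      simp
    rw [h3] at h1
    rcases mul_eq_zero.mp h1 with h4 | h4
    · have : Fintype.card (A →* ℂˣ) ≠ 0 := Fintype.card_ne_zero
      exact this (by exact_mod_cast h4)
    · exact hθ.one_ne_zero h4
  · intro b _ hb
    rw [sum_dual (fun h => hb (by simpa using h)), zero_mul]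
  · simp

/-- The elements of `K` carrying `lam` to `lam'`. -/
noncomputable def transp (φ : K →* MulAut A) (lam lam' : A →* ℂˣ) : Finset K :=
  open Classical in Finset.univ.filter fun t : K => ∀ a, lam (φ t⁻¹ a) = lam' a

theorem mem_transp {lam lam' : A →* ℂˣ} {t : K} :
    t ∈ transp φ lam lam' ↔ ∀ a, lam (φ t⁻¹ a) = lam' a := by
  classical
  simp [transp]

theorem fou_one_indChar (lam lam' : A →* ℂˣ) (ψ : stab φ lam → ℂ) :
    fou lam' (indChar φ lam ψ) (1 : K) = (ψ 1 / Nat.card (stab φ lam)) *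
      (transp φ lam lam').card := by
  classical
  have hA : (Nat.card A : ℂ) ≠ 0 := natCard_ne_zero
  have hS : (Nat.card (stab φ lam) : ℂ) ≠ 0 := natCard_ne_zero
  rw [fou, div_eq_iff hA]
  have h1 : ∀ a : A, (((lam' a)⁻¹ : ℂˣ) : ℂ) * indChar φ lam ψ ⟨a, (1 : K)⟩ =
      (∑ t : K, (((lam'⁻¹ * lam.comp (φ t⁻¹).toMonoidHom) a : ℂˣ) : ℂ) * ψ 1) /
        Nat.card (stab φ lam) := by
    intro a
    rw [indChar, mul_div_assoc', Finset.mul_sum]
    congr 1
    refine Finset.sum_congr rfl fun t _ => ?_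
    have h2 : ext0 ψ (t⁻¹ * (1 : K) * t) = ψ 1 := by
      have : t⁻¹ * (1 : K) * t = 1 := by group
      rw [this, ext0_of_mem ψ (stab φ lam).one_mem]
      rfl
    change _ * ((_ : ℂ) * ext0 ψ (t⁻¹ * (1 : K) * t)) = _
    rw [h2, ← mul_assoc]
    rfl
  simp only [h1]
  rw [← Finset.sum_div, Finset.sum_comm]
  simp only [← Finset.sum_mul]
  have h2 : ∀ t : K, (∑ a : A, (((lam'⁻¹ * lam.comp (φ t⁻¹).toMonoidHom) a : ℂˣ) : ℂ)) =
      if t ∈ transp φ lam lam' then (Nat.card A : ℂ) else 0 := by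
    intro t
    rw [sum_lin]
    congr 1
    apply propext
    rw [mem_transp]
    constructor
    · intro h a
      have := congrArg (fun f : A →* ℂˣ => f a) h
      change (lam' a)⁻¹ * lam (φ t⁻¹ a) = 1 at this
      exact (inv_mul_eq_one.mp this).symm
    · intro h
      ext a
      change (((lam' a)⁻¹ * lam (φ t⁻¹ a) : ℂˣ) : ℂ) = 1
      rw [h, inv_mul_cancel, Units.val_one]
  simp only [h2]
  rw [Finset.sum_ite_mem, Finset.univ_inter, Finset.sum_const, nsmul_eq_mul]
  ring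

theorem card_transporter {lam lam' : A →* ℂˣ} (h : (transp φ lam lam').Nonempty) :
    (transp φ lam lam').card = Nat.card (stab φ lam') := by
  classical
  obtain ⟨t₀, ht₀⟩ := h
  rw [mem_transp] at ht₀
  rw [Nat.card_eq_fintype_card, ← Finset.card_univ]
  symm
  apply Finset.card_bij (fun (s : stab φ lam') _ => (s : K) * t₀)
  · intro s _
    rw [mem_transp]
    intro a
    rw [mul_inv_rev, map_mul, MulAut.mul_apply, ht₀]
    exact (stab φ lam').inv_mem s.2 a
  · intro s _ s' _ h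
    exact Subtype.ext (mul_right_cancel h)
  · intro t ht
    rw [mem_transp] at ht
    have h1 : (t * t₀⁻¹)⁻¹ ∈ stab φ lam' := by
      intro a
      rw [← ht₀, ← MulAut.mul_apply, ← map_mul]
      have : t₀⁻¹ * (t * t₀⁻¹)⁻¹ = t⁻¹ := by group
      rw [this, ht]
    refine ⟨⟨t * t₀⁻¹, by simpa using (stab φ lam').inv_mem h1⟩, Finset.mem_univ _, by simp⟩

theorem sum_card_transp (lam : A →* ℂˣ) :
    ∑ lam' : A →* ℂˣ, (transp φ lam lam').card = Nat.card K := by
  classical
  rw [Nat.card_eq_fintype_card, ← Finset.card_univ]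
  have h := Finset.card_eq_sum_card_fiberwise (s := (Finset.univ : Finset K))
    (t := (Finset.univ : Finset (A →* ℂˣ))) (f := fun t => lam.comp (φ t⁻¹).toMonoidHom)
    (fun _ _ => Finset.mem_univ _)
  rw [h]
  refine Finset.sum_congr rfl fun lam' _ => ?_
  congr 1
  ext t
  rw [mem_transp, Finset.mem_filter]
  constructor
  · intro h
    refine ⟨Finset.mem_univ _, ?_⟩
    ext a
    exact congrArg Units.val (h a)
  · rintro ⟨-, h⟩ a
    exact congrArg (fun f : A →* ℂˣ => f a) h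

/-- For an irreducible character `θ`, the weighted number of constituents on `A` is `|K|`. -/
theorem sum_stab_of_irr {θ : A ⋊[φ] K → ℂ} (hθ : IsIrr θ)
    [DecidablePred fun lam : A →* ℂˣ => ∃ k ∈ stab φ lam, fou lam θ k ≠ 0] :
    ∑ lam : A →* ℂˣ, (if ∃ k ∈ stab φ lam, fou lam θ k ≠ 0 then Nat.card (stab φ lam) else 0) =
      Nat.card K := by
  classical
  obtain ⟨lam, hlam⟩ := exists_fou_one_ne_zero hθ
  obtain ⟨ψ, hψ, rfl⟩ := exists_of_fou_ne_zero lam hθ ⟨1, one_mem _, hlam⟩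
  have hψ1 : ψ 1 / Nat.card (stab φ lam) ≠ 0 :=
    div_ne_zero hψ.one_ne_zero natCard_ne_zero
  rw [← sum_card_transp (φ := φ) lam]
  refine Finset.sum_congr rfl fun lam' _ => ?_
  split_ifs with h
  · obtain ⟨ψ', hψ', hind⟩ := exists_of_fou_ne_zero lam' hθ h
    have h1 : fou lam' (indChar φ lam ψ) (1 : K) ≠ 0 := by
      rw [← hind]
      have h2 := fou_indChar lam' (fun g x => hψ'.conj_eq g x) (1 : stab φ lam')
      rw [OneMemClass.coe_one] at h2
      rw [h2]
      exact hψ'.one_ne_zero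
    rw [fou_one_indChar] at h1
    have h3 : (transp φ lam lam').card ≠ 0 := by
      intro h4
      rw [h4] at h1
      simp at h1
    rw [card_transporter (Finset.card_pos.mp (Nat.pos_of_ne_zero h3))]
  · by_contra hne
    apply h
    refine ⟨1, one_mem _, ?_⟩
    rw [fou_one_indChar]
    apply mul_ne_zero hψ1
    intro h5
    exact hne (by exact_mod_cast h5.symm)

/-- Counting irreducible characters of `A ⋊ K` satisfying a predicate. -/
theorem card_irr_sdp (P : (A ⋊[φ] K → ℂ) → Prop) :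
    Nat.card {θ : A ⋊[φ] K → ℂ // IsIrr θ ∧ P θ} * Nat.card K =
      ∑ lam : A →* ℂˣ, Nat.card (stab φ lam) *
        Nat.card {ψ : stab φ lam → ℂ // IsIrr ψ ∧ P (indChar φ lam ψ)} := by
  classical
  have hfin : (Set.Finite {θ : A ⋊[φ] K → ℂ | IsIrr θ ∧ P θ}) :=
    finite_isIrr.subset fun θ h => h.1
  let T : Finset (A ⋊[φ] K → ℂ) := hfin.toFinset
  have hT : ∀ θ, θ ∈ T ↔ IsIrr θ ∧ P θ := fun θ => by simp [T]
  have hcard : Nat.card {θ : A ⋊[φ] K → ℂ // IsIrr θ ∧ P θ} = T.card := by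
    have : Nat.card {θ : A ⋊[φ] K → ℂ // IsIrr θ ∧ P θ} = Nat.card T :=
      Nat.card_congr (Equiv.subtypeEquivRight fun θ => (hT θ).symm)
    rw [this]
    simp
  have hlam : ∀ lam : A →* ℂˣ,
      Nat.card {ψ : stab φ lam → ℂ // IsIrr ψ ∧ P (indChar φ lam ψ)} =
        (T.filter fun θ => ∃ k ∈ stab φ lam, fou lam θ k ≠ 0).card := by
    intro lam
    have h1 : (T.filter fun θ => ∃ k ∈ stab φ lam, fou lam θ k ≠ 0).card =
        Nat.card {θ // θ ∈ T.filter fun θ => ∃ k ∈ stab φ lam, fou lam θ k ≠ 0} := by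
      rw [Nat.card_eq_fintype_card, Fintype.card_coe]
    rw [h1]
    refine Nat.card_congr (Equiv.ofBijective (fun ψ => ⟨indChar φ lam ψ.1, ?_⟩) ⟨?_, ?_⟩)
    · rw [Finset.mem_filter, hT]
      refine ⟨⟨isIrr_indChar lam ψ.2.1, ψ.2.2⟩, 1, one_mem _, ?_⟩
      have h2 := fou_indChar lam (fun g x => ψ.2.1.conj_eq g x) (1 : stab φ lam)
      rw [OneMemClass.coe_one] at h2
      rw [h2]
      exact ψ.2.1.one_ne_zero
    · rintro ⟨ψ, hψ, hP⟩ ⟨ψ', hψ', hP'⟩ h
      apply Subtype.ext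
      ext k
      have h2 := fou_indChar lam (fun g x => hψ.conj_eq g x) k
      have h3 := fou_indChar lam (fun g x => hψ'.conj_eq g x) k
      have h4 : indChar φ lam ψ = indChar φ lam ψ' := congrArg Subtype.val h
      change ψ k = ψ' k
      rw [← h2, ← h3, h4]
    · rintro ⟨θ, hθ⟩
      rw [Finset.mem_filter, hT] at hθ
      obtain ⟨ψ, hψ, hind⟩ := exists_of_fou_ne_zero lam hθ.1.1 hθ.2
      refine ⟨⟨ψ, hψ, ?_⟩, Subtype.ext hind⟩
      rw [hind]
      exact hθ.1.2
  rw [hcard]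
  simp only [hlam]
  simp only [Finset.card_filter, Finset.mul_sum]
  rw [Finset.sum_comm]
  rw [Finset.card_eq_sum_ones, Finset.sum_mul]
  refine Finset.sum_congr rfl fun θ hθ => ?_
  rw [one_mul, ← sum_stab_of_irr ((hT θ).mp hθ).1]
  refine Finset.sum_congr rfl fun lam _ => ?_
  split_ifs <;> simp

end

end Pool.Agent.Lib_helper13
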