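import Mathlib
import Pool.Agent.Lib_helper13.Central

set_option linter.unusedSectionVars false

/-! Congruences modulo a maximal ideal of the ring of algebraic integers. -/

namespace Pool.Agent.Lib_helper13

open Representation

/-- `a ≡ b` modulo the ideal `𝔐` of the ring of algebraic integers. -/
def CongrMod (𝔐 : Ideal (integralClosure ℤ ℂ)) (a b : ℂ) : Prop :=
  ∃ m : integralClosure ℤ ℂ, m ∈ 𝔐 ∧ (m : ℂ) = a - b

section Red

variable (𝔐 : Ideal (integralClosure ℤ ℂ))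

/-- Reduction modulo `𝔐` of algebraic integers (junk value `0` on other complex numbers). -/
noncomputable def red (a : ℂ) : (integralClosure ℤ ℂ) ⧸ 𝔐 :=
  open Classical in if h : IsIntegral ℤ a then Ideal.Quotient.mk 𝔐 ⟨a, h⟩ else 0

theorem red_of_integral {a : ℂ} (h : IsIntegral ℤ a) :
    red 𝔐 a = Ideal.Quotient.mk 𝔐 ⟨a, h⟩ := by
  simp [red, h]

theorem red_eq_iff {a b : ℂ} (ha : IsIntegral ℤ a) (hb : IsIntegral ℤ b) :
    red 𝔐 a = red 𝔐 b ↔ CongrMod 𝔐 a b := by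
  rw [red_of_integral 𝔐 ha, red_of_integral 𝔐 hb, Ideal.Quotient.eq]
  constructor
  · intro h
    exact ⟨_, h, rfl⟩
  · rintro ⟨m, hm, hm'⟩
    have : m = (⟨a, ha⟩ - ⟨b, hb⟩ : integralClosure ℤ ℂ) := Subtype.ext hm'
    rw [← this]
    exact hm

theorem red_add {a b : ℂ} (ha : IsIntegral ℤ a) (hb : IsIntegral ℤ b) :
    red 𝔐 (a + b) = red 𝔐 a + red 𝔐 b := by
  rw [red_of_integral 𝔐 ha, red_of_integral 𝔐 hb, red_of_integral 𝔐 (ha.add hb), ← map_add]
  rfl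

theorem red_mul {a b : ℂ} (ha : IsIntegral ℤ a) (hb : IsIntegral ℤ b) :
    red 𝔐 (a * b) = red 𝔐 a * red 𝔐 b := by
  rw [red_of_integral 𝔐 ha, red_of_integral 𝔐 hb, red_of_integral 𝔐 (ha.mul hb), ← map_mul]
  rfl

theorem red_zero : red 𝔐 0 = 0 := by
  rw [red_of_integral 𝔐 isIntegral_zero]
  exact map_zero _

theorem red_one : red 𝔐 1 = 1 := by
  rw [red_of_integral 𝔐 isIntegral_one]
  exact map_one _

theorem isIntegral_sum {ι : Type*} (s : Finset ι) (f : ι → ℂ) (h : ∀ i ∈ s, IsIntegral ℤ (f i)) :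
    IsIntegral ℤ (∑ i ∈ s, f i) := IsIntegral.sum _ h

theorem red_sum {ι : Type*} (s : Finset ι) (f : ι → ℂ) (h : ∀ i ∈ s, IsIntegral ℤ (f i)) :
    red 𝔐 (∑ i ∈ s, f i) = ∑ i ∈ s, red 𝔐 (f i) := by
  classical
  induction s using Finset.induction_on with
  | empty => simp [red_zero]
  | insert a s ha ih =>
    rw [Finset.sum_insert ha, Finset.sum_insert ha,
      red_add 𝔐 (h a (Finset.mem_insert_self _ _))
        (isIntegral_sum s f fun i hi => h i (Finset.mem_insert_of_mem hi)),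
      ih fun i hi => h i (Finset.mem_insert_of_mem hi)]

theorem red_eq_zero_of_mem {a : ℂ} (h : ∃ m : integralClosure ℤ ℂ, m ∈ 𝔐 ∧ (m : ℂ) = a) :
    red 𝔐 a = 0 := by
  obtain ⟨m, hm, rfl⟩ := h
  rw [red_of_integral 𝔐 m.2]
  exact Ideal.Quotient.eq_zero_iff_mem.mpr hm

theorem isIntegral_natCast (n : ℕ) : IsIntegral ℤ (n : ℂ) := by
  have := isIntegral_algebraMap (R := ℤ) (A := ℂ) (x := (n : ℤ))
  simpa using this

theorem red_natCast_mul (n : ℕ) {a : ℂ} (ha : IsIntegral ℤ a) :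
    red 𝔐 (n * a) = n • red 𝔐 a := by
  induction n with
  | zero => simp [red_zero]
  | succ n ih =>
    rw [Nat.cast_succ, add_mul, one_mul, red_add 𝔐 ((isIntegral_natCast n).mul ha) ha, ih,
      succ_nsmul]

theorem nsmul_quot_eq_zero {ℓ : ℕ} (hℓ : (ℓ : integralClosure ℤ ℂ) ∈ 𝔐)
    (m : (integralClosure ℤ ℂ) ⧸ 𝔐) : ℓ • m = 0 := by
  rw [nsmul_eq_mul]
  have : ((ℓ : ℕ) : (integralClosure ℤ ℂ) ⧸ 𝔐) = 0 := by
    rw [← map_natCast (Ideal.Quotient.mk 𝔐)]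
    exact Ideal.Quotient.eq_zero_iff_mem.mpr hℓ
  rw [this, zero_mul]

end Red

section Vanish

variable {H : Type*} [Group H] [Fintype H]
variable (𝔐 : Ideal (integralClosure ℤ ℂ)) [h𝔐 : 𝔐.IsPrime]

theorem om_mem_of_normal {ℓ : ℕ} [Fact ℓ.Prime] (hℓ : (ℓ : integralClosure ℤ ℂ) ∈ 𝔐)
    {χ : H → ℂ} (hχ : IsIrr χ) (Q : Subgroup H) [Q.Normal] (hQ : IsPGroup ℓ Q)
    (c : H → ℤ) (hc : ∀ g x, c (g * x * g⁻¹) = c x)
    (hc0 : ∀ y, (∀ q ∈ Q, q * y = y * q) → c y = 0) :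
    red 𝔐 (om χ (elt c)) = 0 := by
  classical
  obtain ⟨N, hN, hz⟩ := elt_pow_zero Q hQ c hc hc0
  have hzc := elt_mem_center c hc
  rw [← map_pow] at hz
  have hdiv : ∀ y, (ℓ : ℤ) ∣ ((elt c) ^ N).coeff y := by
    intro y
    have h1 := congrArg (fun t : MonoidAlgebra (ZMod ℓ) H => t.coeff y) hz
    simp only [MonoidAlgebra.coeff_mapRingHom, MonoidAlgebra.coeff_zero, Finsupp.coe_zero,
      Pi.zero_apply] at h1
    exact (ZMod.intCast_zmod_eq_zero_iff_dvd _ _).mp h1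
  choose w hw using hdiv
  have hwz : (elt c) ^ N = (ℓ : ℤ) • elt w := by
    apply MonoidAlgebra.ext
    ext y
    rw [hw, MonoidAlgebra.coeff_smul_apply, elt_coeff, smul_eq_mul]
  have hℓ0 : (ℓ : ℤ) ≠ 0 := by exact_mod_cast (Fact.out : ℓ.Prime).ne_zero
  have hwc : elt w ∈ Subalgebra.center ℤ (MonoidAlgebra ℤ H) := by
    have h1 : (ℓ : ℤ) • elt w ∈ Subalgebra.center ℤ (MonoidAlgebra ℤ H) := by
      rw [← hwz]; exact pow_mem hzc N
    rw [Subalgebra.mem_center_iff] at h1 ⊢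
    intro b
    have h2 := h1 b
    rw [mul_smul_comm, smul_mul_assoc] at h2
    apply MonoidAlgebra.ext
    ext y
    have h3 := congrArg (fun t : MonoidAlgebra ℤ H => t.coeff y) h2
    simp only [MonoidAlgebra.coeff_smul_apply, smul_eq_mul] at h3
    exact mul_left_cancel₀ hℓ0 h3
  have h1 : om χ (elt c) ^ N = ℓ * om χ (elt w) := by
    have h2 := om_smul χ ℓ (elt w)
    rw [← hwz] at h2
    have h3 : om χ ((elt c) ^ N) = om χ (elt c) ^ N := by
      have := map_pow (omHom hχ) ⟨elt c, hzc⟩ N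
      exact this
    rw [← h3, h2]
    simp
  have hi1 := isIntegral_om hχ hzc
  have hi2 := isIntegral_om hχ hwc
  apply red_eq_zero_of_mem
  refine ⟨⟨_, hi1⟩, ?_, rfl⟩
  apply h𝔐.mem_of_pow_mem N
  have h4 : (⟨om χ (elt c), hi1⟩ : integralClosure ℤ ℂ) ^ N = ℓ * ⟨om χ (elt w), hi2⟩ := by
    apply Subtype.ext
    push_cast
    exact h1
  rw [h4]
  exact 𝔐.mul_mem_right _ hℓ

end Vanish

end Pool.Agent.Lib_helper13
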