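import Mathlib
import Pool.Agent.Lib_helper13.Modulus

set_option linter.unusedSectionVars false

/-! Normalized sums of irreducible characters against class functions. -/

namespace Pool.Agent.Lib_helper13

open Representation

section Wt

variable {Y : Type*} [Group Y] [Fintype Y]

/-- `∑ f(y) ψ(y) / ψ(1)`. -/
noncomputable def wt (ψ f : Y → ℂ) : ℂ := (∑ y, f y * ψ y) / ψ 1

theorem wt_add (ψ f f' : Y → ℂ) : wt ψ (f + f') = wt ψ f + wt ψ f' := by
  simp [wt, add_mul, Finset.sum_add_distrib, add_div]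

theorem wt_sum {ι : Type*} (s : Finset ι) (ψ : Y → ℂ) (f : ι → Y → ℂ) :
    wt ψ (fun y => ∑ i ∈ s, f i y) = ∑ i ∈ s, wt ψ (f i) := by
  simp only [wt, Finset.sum_mul]
  rw [Finset.sum_comm, Finset.sum_div]

theorem wt_smul (ψ f : Y → ℂ) (a : ℂ) : wt ψ (fun y => a * f y) = a * wt ψ f := by
  simp only [wt, mul_assoc, ← Finset.mul_sum, mul_div_assoc]

/-- Expansion of a normalized sum along a class function pulled back from a bigger group. -/
theorem wt_comp_classes {K : Type*} [Group K] [Fintype K] [Fintype (ConjClasses K)]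
    [DecidableEq (ConjClasses K)] (ι : Y → K) (ψ : Y → ℂ) (f : ConjClasses K → ℂ) :
    wt ψ (fun y => f (ConjClasses.mk (ι y))) =
      ∑ L : ConjClasses K, f L * wt ψ (fun y => if ConjClasses.mk (ι y) = L then 1 else 0) := by
  simp_rw [← wt_smul]
  rw [← wt_sum]
  congr 1
  ext y
  rw [Finset.sum_eq_single (ConjClasses.mk (ι y))]
  · simp
  · intro b _ hb
    simp [Ne.symm hb]
  · simp

theorem exists_lift_class {K : Type*} [Group K] (f : K → ℂ) (hf : ∀ g x, f (g * x * g⁻¹) = f x) :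
    ∃ F : ConjClasses K → ℂ, ∀ x, F (ConjClasses.mk x) = f x := by
  refine ⟨fun L => Quotient.liftOn L f ?_, fun x => rfl⟩
  intro a b hab
  obtain ⟨c, rfl⟩ := isConj_iff.mp hab
  rw [hf]

theorem isIntegral_wt {ψ : Y → ℂ} (hψ : IsIrr ψ) (f : Y → ℂ)
    (hf : ∀ g x, f (g * x * g⁻¹) = f x) (hi : ∀ y, IsIntegral ℤ (f y)) :
    IsIntegral ℤ (wt ψ f) := by
  classical
  obtain ⟨F, hF⟩ := exists_lift_class f hf
  have h1 : f = fun y => F (ConjClasses.mk (id y)) := by ext y; rw [hF]; rfl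
  rw [h1, wt_comp_classes]
  apply isIntegral_sum
  intro L _
  obtain ⟨x, rfl⟩ := L.exists_rep
  apply IsIntegral.mul
  · have := hi x
    rwa [← hF x] at this
  · have h2 := isIntegral_om hψ (elt_mem_center (fun y : Y => if ConjClasses.mk y =
      ConjClasses.mk x then (1 : ℤ) else 0) (by
        intro g y
        have : ConjClasses.mk (g * y * g⁻¹) = ConjClasses.mk y := by
          rw [ConjClasses.mk_eq_mk_iff_isConj]
          exact isConj_iff.mpr ⟨g⁻¹, by group⟩
        rw [this]))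
    rw [om_elt] at h2
    have h3 : (wt ψ fun y => if ConjClasses.mk (id y) = ConjClasses.mk x then 1 else 0) =
        (∑ y, ((if ConjClasses.mk y = ConjClasses.mk x then (1 : ℤ) else 0 : ℤ) : ℂ) * ψ y) /
          ψ 1 := by
      rw [wt]
      congr 2 with y
      push_cast
      rfl
    change IsIntegral ℤ (wt ψ fun y => if ConjClasses.mk (id y) = ConjClasses.mk x then 1 else 0)
    rw [h3]
    exact h2

variable (𝔐 : Ideal (integralClosure ℤ ℂ)) [h𝔐 : 𝔐.IsPrime]

theorem red_wt_eq {ℓ : ℕ} [Fact ℓ.Prime] (hℓ : (ℓ : integralClosure ℤ ℂ) ∈ 𝔐)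
    {ψ : Y → ℂ} (hψ : IsIrr ψ) (Q : Subgroup Y) [Q.Normal] (hQ : IsPGroup ℓ Q) (f f' : Y → ℂ)
    (hf : ∀ g x, f (g * x * g⁻¹) = f x) (hi : ∀ y, IsIntegral ℤ (f y))
    (hf' : ∀ g x, f' (g * x * g⁻¹) = f' x) (hi' : ∀ y, IsIntegral ℤ (f' y))
    (heq : ∀ y, (∀ q ∈ Q, q * y = y * q) → red 𝔐 (f y) = red 𝔐 (f' y)) :
    red 𝔐 (wt ψ f) = red 𝔐 (wt ψ f') := by
  classical
  obtain ⟨F, hF⟩ := exists_lift_class f hf
  obtain ⟨F', hF'⟩ := exists_lift_class f' hf'
  have h1 : f = fun y => F (ConjClasses.mk (id y)) := by ext y; rw [hF]; rfl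
  have h1' : f' = fun y => F' (ConjClasses.mk (id y)) := by ext y; rw [hF']; rfl
  have hcl : ∀ x g y : Y, (if ConjClasses.mk (g * y * g⁻¹) = ConjClasses.mk x then (1 : ℤ) else 0) =
      if ConjClasses.mk y = ConjClasses.mk x then (1 : ℤ) else 0 := by
    intro x g y
    have : ConjClasses.mk (g * y * g⁻¹) = ConjClasses.mk y := by
      rw [ConjClasses.mk_eq_mk_iff_isConj]
      exact isConj_iff.mpr ⟨g⁻¹, by group⟩
    rw [this]
  have hom : ∀ x : Y, wt ψ (fun y => if ConjClasses.mk (id y) = ConjClasses.mk x then 1 else 0) =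
      om ψ (elt (fun y : Y => if ConjClasses.mk y = ConjClasses.mk x then (1 : ℤ) else 0)) := by
    intro x
    rw [om_elt, wt]
    congr 2 with y
    push_cast
    rfl
  have hint : ∀ x : Y, IsIntegral ℤ
      (wt ψ (fun y => if ConjClasses.mk (id y) = ConjClasses.mk x then 1 else 0)) := by
    intro x
    rw [hom]
    exact isIntegral_om hψ (elt_mem_center _ (hcl x))
  rw [h1, h1', wt_comp_classes, wt_comp_classes, red_sum, red_sum]
  · refine Finset.sum_congr rfl fun L _ => ?_
    obtain ⟨x, rfl⟩ := L.exists_rep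
    change red 𝔐 (F (ConjClasses.mk x) * _) = red 𝔐 (F' (ConjClasses.mk x) * _)
    rw [hF, hF', red_mul 𝔐 (hi x) (hint x), red_mul 𝔐 (hi' x) (hint x)]
    by_cases hx : ∀ q ∈ Q, q * x = x * q
    · rw [heq x hx]
    · have : red 𝔐 (wt ψ (fun y => if ConjClasses.mk (id y) = ConjClasses.mk x then 1 else 0)) =
          0 := by
        rw [hom]
        apply om_mem_of_normal 𝔐 hℓ hψ Q hQ _ (hcl x)
        intro y hy
        rw [if_neg]
        intro hxy
        apply hx
        rw [ConjClasses.mk_eq_mk_iff_isConj] at hxy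
        obtain ⟨c, rfl⟩ := isConj_iff.mp hxy
        intro q hq
        have h2 := hy (c⁻¹ * q * c) (by
          have := Subgroup.Normal.conj_mem (H := Q) inferInstance q hq c⁻¹
          simpa using this)
        have h3 : q * (c * y * c⁻¹) = c * ((c⁻¹ * q * c) * y) * c⁻¹ := by group
        rw [h3, h2]
        group
      rw [this, mul_zero, mul_zero]
  · intro L _
    obtain ⟨x, rfl⟩ := L.exists_rep
    change IsIntegral ℤ (F' (ConjClasses.mk x) * _)
    rw [hF']
    exact (hi' x).mul (hint x)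
  · intro L _
    obtain ⟨x, rfl⟩ := L.exists_rep
    change IsIntegral ℤ (F (ConjClasses.mk x) * _)
    rw [hF]
    exact (hi x).mul (hint x)

end Wt

end Pool.Agent.Lib_helper13
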