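import Mathlib
import Pool.Agent.Lib_helper13.Weights
import Pool.Agent.Lib_helper13.LittleCount

set_option linter.unusedSectionVars false

/-! Induced central functions, defects, and counts of irreducible characters. -/

namespace Pool.Agent.Lib_helper13

open Representation

open Classical in
/-- The indicator function of conjugacy. -/
noncomputable def conjInd {G : Type*} [Group G] (x g : G) : ℂ := if IsConj x g then 1 else 0

theorem conjInd_congr {G G' : Type*} [Group G] [Group G'] {x g : G} {x' g' : G'}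
    (h : IsConj x g ↔ IsConj x' g') : conjInd x g = conjInd x' g' := by
  classical
  rw [conjInd, conjInd]
  exact if_congr h rfl rfl

theorem conjInd_left {G : Type*} [Group G] {x x' : G} (h : IsConj x x') (g : G) :
    conjInd x g = conjInd x' g :=
  conjInd_congr ⟨fun h1 => h.symm.trans h1, fun h1 => h.trans h1⟩

theorem conjInd_right {G : Type*} [Group G] {g g' : G} (h : IsConj g g') (x : G) :
    conjInd x g = conjInd x g' :=
  conjInd_congr ⟨fun h1 => h1.trans h, fun h1 => h1.trans h.symm⟩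

theorem conjInd_conj {G : Type*} [Group G] (a x g : G) :
    conjInd (a * x * a⁻¹) g = conjInd x g :=
  (conjInd_left (isConj_iff.mpr ⟨a, rfl⟩) g).symm

theorem isIntegral_conjInd {G : Type*} [Group G] (x g : G) : IsIntegral ℤ (conjInd x g) := by
  classical
  rw [conjInd]
  split_ifs
  · exact isIntegral_one
  · exact isIntegral_zero

section Cen

variable {Y Y' G : Type*} [Group Y] [Fintype Y] [Group Y'] [Fintype Y'] [Group G]

/-- Transport of weights along an isomorphism. -/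
theorem wt_comp_equiv (e : Y ≃* Y') (ψ f : Y' → ℂ) :
    wt (fun y => ψ (e y)) (fun y => f (e y)) = wt ψ f := by
  rw [wt, wt, map_one]
  congr 1
  exact Fintype.sum_equiv e.toEquiv _ _ (fun y => rfl)

/-- `χ` has `ℓ`-defect `d`: the `ℓ`-part of `|Y|/χ(1)` is `ℓ ^ d`. -/
def HasDefect (ℓ : ℕ) (χ : Y → ℂ) (d : ℕ) : Prop :=
  ∃ n : ℕ, χ 1 = n ∧ padicValNat ℓ (Nat.card Y) = d + padicValNat ℓ n

theorem hasDefect_comp_equiv (e : Y ≃* Y') {ℓ d : ℕ} {ψ : Y' → ℂ} :
    HasDefect ℓ (fun y => ψ (e y)) d ↔ HasDefect ℓ ψ d := by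
  unfold HasDefect
  simp only [map_one]
  rw [Nat.card_congr e.toEquiv]

/-- Transport of counts of irreducible characters along an isomorphism. -/
theorem card_irr_equiv (e : Y ≃* Y') (P : (Y → ℂ) → Prop) (P' : (Y' → ℂ) → Prop)
    (h : ∀ ψ : Y' → ℂ, IsIrr ψ → (P (fun y => ψ (e y)) ↔ P' ψ)) :
    Nat.card {ψ : Y → ℂ // IsIrr ψ ∧ P ψ} = Nat.card {ψ : Y' → ℂ // IsIrr ψ ∧ P' ψ} := by
  refine Nat.card_congr ⟨fun ψ => ⟨fun y => ψ.1 (e.symm y), ?_, ?_⟩,
    fun ψ => ⟨fun y => ψ.1 (e y), ?_, ?_⟩, ?_, ?_⟩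
  · exact ψ.2.1.comp_mulEquiv e.symm
  · refine (h (fun y => ψ.1 (e.symm y)) (ψ.2.1.comp_mulEquiv e.symm)).mp ?_
    have : (fun y => (fun y => ψ.1 (e.symm y)) (e y)) = ψ.1 := by
      ext y
      simp
    rw [this]
    exact ψ.2.2
  · exact ψ.2.1.comp_mulEquiv e
  · exact (h ψ.1 ψ.2.1).mpr ψ.2.2
  · intro ψ
    apply Subtype.ext
    ext y
    simp
  · intro ψ
    apply Subtype.ext
    ext y
    simp

variable (𝔐 : Ideal (integralClosure ℤ ℂ))

/-- The central function of `θ`, induced along `i`, reduced modulo `𝔐`. -/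
noncomputable def cen (i : Y →* G) (θ : Y → ℂ) (g : G) : (integralClosure ℤ ℂ) ⧸ 𝔐 :=
  red 𝔐 (wt θ (fun y => conjInd (i y) g))

theorem cen_comp_equiv (e : Y ≃* Y') (i : Y' →* G) (θ : Y' → ℂ) :
    cen 𝔐 (i.comp e.toMonoidHom) (fun y => θ (e y)) = cen 𝔐 i θ := by
  ext g
  rw [cen, cen, ← wt_comp_equiv e]
  rfl

theorem cen_conj {i i' : Y →* G} (h : ∀ y, IsConj (i y) (i' y)) (θ : Y → ℂ) :
    cen 𝔐 i θ = cen 𝔐 i' θ := by
  ext g
  rw [cen, cen]
  congr 2
  ext y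
  exact conjInd_left (h y) g

/-- The number of irreducible characters of `Y` of defect `d` whose induced central function
is `ω`. -/
noncomputable def cnt (ℓ d : ℕ) (i : Y →* G) (ω : G → (integralClosure ℤ ℂ) ⧸ 𝔐) : ℕ :=
  Nat.card {θ : Y → ℂ // IsIrr θ ∧ (HasDefect ℓ θ d ∧ ∀ g, cen 𝔐 i θ g = ω g)}

theorem cnt_comp_equiv (ℓ d : ℕ) (e : Y ≃* Y') (i : Y' →* G)
    (ω : G → (integralClosure ℤ ℂ) ⧸ 𝔐) :
    cnt 𝔐 ℓ d (i.comp e.toMonoidHom) ω = cnt 𝔐 ℓ d i ω := by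
  apply card_irr_equiv e
  intro ψ _
  rw [hasDefect_comp_equiv, cen_comp_equiv]

theorem cnt_conj (ℓ d : ℕ) {i i' : Y →* G} (h : ∀ y, IsConj (i y) (i' y))
    (ω : G → (integralClosure ℤ ℂ) ⧸ 𝔐) : cnt 𝔐 ℓ d i ω = cnt 𝔐 ℓ d i' ω := by
  rw [cnt, cnt, ]
  simp only [cen_conj 𝔐 h]

theorem cen_isConj (i : Y →* G) (θ : Y → ℂ) {g g' : G} (h : IsConj g g') :
    cen 𝔐 i θ g = cen 𝔐 i θ g' := by
  rw [cen, cen]
  congr 2
  ext y
  exact conjInd_right h _

end Cen

section Ind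

variable {A K : Type*} [CommGroup A] [Fintype A] [Group K] [Fintype K] {φ : K →* MulAut A}
  (lam : A →* ℂˣ)

theorem indChar_one (ψ : stab φ lam → ℂ) :
    indChar φ lam ψ 1 = (Nat.card K : ℂ) / Nat.card (stab φ lam) * ψ 1 := by
  rw [indChar]
  have h : ∀ t : K, ((lam (φ t⁻¹ (1 : A ⋊[φ] K).left) : ℂˣ) : ℂ) *
      ext0 ψ (t⁻¹ * (1 : A ⋊[φ] K).right * t) = ψ 1 := by
    intro t
    have : t⁻¹ * (1 : A ⋊[φ] K).right * t = 1 := by simp
    rw [this, ext0_of_mem ψ (stab φ lam).one_mem]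
    simp only [SemidirectProduct.one_left, map_one, Units.val_one, one_mul]
    rfl
  simp only [h]
  rw [Finset.sum_const, Finset.card_univ, nsmul_eq_mul, Nat.card_eq_fintype_card (α := K)]
  ring

theorem wt_indChar (ψ : stab φ lam → ℂ) (f : A ⋊[φ] K → ℂ)
    (hf : ∀ g x, f (g * x * g⁻¹) = f x) :
    wt (indChar φ lam ψ) f =
      wt ψ (fun k => ∑ a : A, f ⟨a, (k : K)⟩ * ((lam a : ℂˣ) : ℂ)) := by
  classical
  have hS : (Nat.card (stab φ lam) : ℂ) ≠ 0 := natCard_ne_zero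
  have hK : (Nat.card K : ℂ) ≠ 0 := natCard_ne_zero
  rw [wt, wt, indChar_one]
  have h1 : ∀ t : K, ∑ x : A ⋊[φ] K, f x *
      (((lam (φ t⁻¹ x.left) : ℂˣ) : ℂ) * ext0 ψ (t⁻¹ * x.right * t)) =
      ∑ x : A ⋊[φ] K, f x * (((lam x.left : ℂˣ) : ℂ) * ext0 ψ (x.right)) := by
    intro t
    refine Fintype.sum_equiv (MulAut.conj (SemidirectProduct.inr t⁻¹ : A ⋊[φ] K)).toEquiv _ _ ?_
    intro x
    have h2 : (MulAut.conj (SemidirectProduct.inr t⁻¹ : A ⋊[φ] K)).toEquiv x =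
      SemidirectProduct.inr t⁻¹ * x * (SemidirectProduct.inr t⁻¹)⁻¹ := rfl
    rw [h2, hf]
    congr 1
    obtain ⟨b, l⟩ := x
    rw [conj_inr]
    simp
  have h2 : ∑ x : A ⋊[φ] K, f x * indChar φ lam ψ x =
      (Nat.card K : ℂ) / Nat.card (stab φ lam) *
        ∑ x : A ⋊[φ] K, f x * (((lam x.left : ℂˣ) : ℂ) * ext0 ψ (x.right)) := by
    have h3 : ∀ x : A ⋊[φ] K, f x * indChar φ lam ψ x = (∑ t : K, f x *
        (((lam (φ t⁻¹ x.left) : ℂˣ) : ℂ) * ext0 ψ (t⁻¹ * x.right * t))) /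
          Nat.card (stab φ lam) := by
      intro x
      rw [indChar, ← Finset.mul_sum, mul_div_assoc]
    simp only [h3]
    rw [← Finset.sum_div, Finset.sum_comm]
    simp only [h1]
    rw [Finset.sum_const, Finset.card_univ, nsmul_eq_mul, Nat.card_eq_fintype_card (α := K)]
    ring
  have h3 : ∑ x : A ⋊[φ] K, f x * (((lam x.left : ℂˣ) : ℂ) * ext0 ψ (x.right)) =
      ∑ k : stab φ lam, (∑ a : A, f ⟨a, (k : K)⟩ * ((lam a : ℂˣ) : ℂ)) * ψ k := by
    rw [sum_sdp]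
    have h4 : ∀ k : K, ∑ a : A, f (⟨a, k⟩ : A ⋊[φ] K) *
        (((lam (⟨a, k⟩ : A ⋊[φ] K).left : ℂˣ) : ℂ) * ext0 ψ (⟨a, k⟩ : A ⋊[φ] K).right) =
        if h : k ∈ stab φ lam then (∑ a : A, f ⟨a, k⟩ * ((lam a : ℂˣ) : ℂ)) * ψ ⟨k, h⟩
          else 0 := by
      intro k
      split_ifs with hk
      · rw [Finset.sum_mul]
        refine Finset.sum_congr rfl fun a _ => ?_
        simp only
        rw [ext0_of_mem ψ hk]
        ring
      · apply Finset.sum_eq_zero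
        intro a _
        simp only
        rw [ext0_of_not_mem ψ hk]
        ring
    simp only [h4]
    rw [← Finset.sum_subset (Finset.subset_univ (Finset.univ.filter (fun k => k ∈ stab φ lam)))]
    · rw [← Finset.sum_subtype_eq_sum_filter, Finset.subtype_univ]
      refine Fintype.sum_equiv (Equiv.refl _) _ _ ?_
      rintro ⟨k, hk⟩
      simp only [Equiv.refl_apply]
      rw [dif_pos hk]
    · intro k _ hk
      rw [dif_neg]
      intro h
      exact hk (Finset.mem_filter.mpr ⟨Finset.mem_univ _, h⟩)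
  rw [h2, h3]
  by_cases hψ : ψ 1 = 0
  · rw [hψ]; simp
  · field_simp

theorem hasDefect_indChar {ℓ : ℕ} [hℓ : Fact ℓ.Prime] (hA : ¬ ℓ ∣ Nat.card A)
    {ψ : stab φ lam → ℂ} (hψ : IsIrr ψ) (d : ℕ) :
    HasDefect ℓ (indChar φ lam ψ) d ↔ HasDefect ℓ ψ d := by
  obtain ⟨n, hn, hn'⟩ := hψ.exists_degree
  have hS : (Nat.card (stab φ lam) : ℂ) ≠ 0 := natCard_ne_zero
  have hS0 : Nat.card (stab φ lam) ≠ 0 := Nat.card_pos.ne'
  have hi0 : (stab φ lam).index ≠ 0 := Subgroup.index_ne_zero_of_finite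
  have hcard : Nat.card (stab φ lam) * (stab φ lam).index = Nat.card K :=
    Subgroup.card_mul_index _
  have h1 : indChar φ lam ψ 1 = (((stab φ lam).index * n : ℕ) : ℂ) := by
    rw [indChar_one, hn', ← hcard]
    push_cast
    field_simp
  have hv1 : padicValNat ℓ (Nat.card (A ⋊[φ] K)) =
      padicValNat ℓ (Nat.card (stab φ lam)) + padicValNat ℓ (stab φ lam).index := by
    rw [natCard_sdp, padicValNat.mul Nat.card_pos.ne' Nat.card_pos.ne',
      padicValNat.eq_zero_of_not_dvd hA, zero_add, ← hcard, padicValNat.mul hS0 hi0]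
  have hv2 : padicValNat ℓ ((stab φ lam).index * n) =
      padicValNat ℓ (stab φ lam).index + padicValNat ℓ n := padicValNat.mul hi0 hn.ne'
  constructor
  · rintro ⟨m, hm, hm'⟩
    rw [h1] at hm
    have hm2 : (stab φ lam).index * n = m := by exact_mod_cast hm
    refine ⟨n, hn', ?_⟩
    rw [← hm2, hv1, hv2] at hm'
    omega
  · rintro ⟨m, hm, hm'⟩
    rw [hn'] at hm
    have hm2 : n = m := by exact_mod_cast hm
    refine ⟨(stab φ lam).index * n, h1, ?_⟩
    rw [hv1, hv2, hm2]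
    omega

end Ind

end Pool.Agent.Lib_helper13
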