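import Mathlib
import Pool.Agent.Lib_helper13.Weights

set_option linter.unusedSectionVars false

/-! Induced central functions modulo `𝔐` are multiplicative (Brauer homomorphism argument). -/

namespace Pool.Agent.Lib_helper13

open Representation

section Nilp

variable {H : Type*} [Group H] [Fintype H]

/-- Integral class functions of a subgroup `Y`, extended by zero to the ambient group. -/
def SuppClass (Y : Subgroup H) (c : H → ℤ) : Prop :=
  (∀ x, x ∉ Y → c x = 0) ∧ ∀ g ∈ Y, ∀ x, c (g * x * g⁻¹) = c x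

theorem commute_single_elt (Y : Subgroup H) (c : H → ℤ) (hc : SuppClass Y c) {g : H}
    (hg : g ∈ Y) : MonoidAlgebra.single g 1 * elt c = elt c * MonoidAlgebra.single g 1 := by
  rw [elt, Finset.mul_sum, Finset.sum_mul]
  refine Fintype.sum_equiv (MulAut.conj g).toEquiv _ _ ?_
  intro x
  have : (MulAut.conj g).toEquiv x = g * x * g⁻¹ := rfl
  rw [this, MonoidAlgebra.single_mul_single, MonoidAlgebra.single_mul_single, hc.2 g hg]
  simp

theorem elt_pow_zero' {ℓ : ℕ} [Fact ℓ.Prime] (Y Q : Subgroup H) (hQY : Q ≤ Y)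
    (hQ : IsPGroup ℓ Q) (hn : ∀ g ∈ Y, ∀ q ∈ Q, g * q * g⁻¹ ∈ Q)
    (c : H → ℤ) (hc : SuppClass Y c)
    (hc0 : ∀ y ∈ Y, (∀ q ∈ Q, q * y = y * q) → c y = 0) :
    ∃ N, 0 < N ∧ (MonoidAlgebra.mapRingHom H (Int.castRingHom (ZMod ℓ)) (elt c)) ^ N = 0 := by
  classical
  set z := MonoidAlgebra.mapRingHom H (Int.castRingHom (ZMod ℓ)) (elt c) with hz
  have hfin : Finite (MonoidAlgebra (ZMod ℓ) H) :=
    Finite.of_equiv (H →₀ ZMod ℓ) MonoidAlgebra.coeffEquiv.symm
  obtain ⟨N, hN, hid⟩ := exists_pow_idem z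
  refine ⟨N, hN, ?_⟩
  by_contra hne
  have hzc : ∀ g ∈ Y, MonoidAlgebra.single g 1 * z = z * MonoidAlgebra.single g 1 := by
    intro g hg
    have h3 := congrArg (MonoidAlgebra.mapRingHom H (Int.castRingHom (ZMod ℓ)))
      (commute_single_elt Y c hc hg)
    rw [map_mul, map_mul, MonoidAlgebra.mapRingHom_single, map_one] at h3
    exact h3
  have hec : ∀ g ∈ Y, MonoidAlgebra.single g 1 * z ^ N = z ^ N * MonoidAlgebra.single g 1 :=
    fun g hg => (Commute.pow_right (hzc g hg) N : _)
  -- the additive group of elements fixed by the idempotent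
  let K : AddSubgroup (MonoidAlgebra (ZMod ℓ) H) :=
    { carrier := {m | z ^ N * m = m}
      add_mem' := by
        intro a b ha hb
        simp only [Set.mem_ofPred_eq] at ha hb ⊢
        rw [mul_add, ha, hb]
      zero_mem' := by simp
      neg_mem' := by
        intro a ha
        simp only [Set.mem_ofPred_eq] at ha ⊢
        rw [mul_neg, ha] }
  have hkill : ∀ m : MonoidAlgebra (ZMod ℓ) H, ℓ • m = 0 := by
    intro m
    have : (ℓ : ZMod ℓ) • m = 0 := by simp
    rwa [Nat.cast_smul_eq_nsmul] at this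
  let _ : MulAction Q K :=
    { smul := fun q m => ⟨MonoidAlgebra.single (q : H) 1 * m.1, by
        change z ^ N * (MonoidAlgebra.single (q : H) 1 * m.1) = _
        rw [← mul_assoc, ← hec _ (hQY q.2), mul_assoc]
        congr 1
        exact m.2⟩
      one_smul := fun m => Subtype.ext (by
        change MonoidAlgebra.single ((1 : Q) : H) 1 * m.1 = m.1
        rw [OneMemClass.coe_one, ← MonoidAlgebra.one_def, one_mul])
      mul_smul := fun a b m => Subtype.ext (by
        change MonoidAlgebra.single ((a * b : Q) : H) 1 * m.1 =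
          MonoidAlgebra.single (a : H) 1 * (MonoidAlgebra.single (b : H) 1 * m.1)
        rw [← mul_assoc, MonoidAlgebra.single_mul_single, one_mul, Subgroup.coe_mul]) }
  have hdvd : ℓ ∣ Nat.card K := by
    have h1 : addOrderOf (⟨z ^ N, hid⟩ : K) = ℓ := by
      apply addOrderOf_eq_prime
      · exact Subtype.ext (hkill _)
      · intro h0
        exact hne (congrArg Subtype.val h0)
    have h2 := addOrderOf_dvd_natCard (⟨z ^ N, hid⟩ : K)
    rwa [h1] at h2
  obtain ⟨m, hm, hm0⟩ := hQ.exists_fixed_point_of_prime_dvd_card_of_fixed_point K hdvd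
    (a := (0 : K)) (by
      intro q
      apply Subtype.ext
      change MonoidAlgebra.single (q : H) 1 * (0 : MonoidAlgebra (ZMod ℓ) H) = 0
      rw [mul_zero])
  have hfix : ∀ q ∈ Q, MonoidAlgebra.single q 1 * m.1 = m.1 := fun q hq =>
    congrArg Subtype.val (hm ⟨q, hq⟩)
  -- `z` kills `m`
  have hzm : z * m.1 = 0 := by
    rw [hz, elt_map, Finset.sum_mul]
    let _ : MulAction Q H :=
      { smul := fun q y => q.1 * y * q.1⁻¹
        one_smul := fun y => by change ((1 : Q) : H) * y * ((1 : Q) : H)⁻¹ = y; simp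
        mul_smul := fun a b y => by
          change ((a * b : Q) : H) * y * ((a * b : Q) : H)⁻¹ = a.1 * (b.1 * y * b.1⁻¹) * a.1⁻¹
          simp [mul_assoc] }
    have hsmul : ∀ (q : Q) (y : H), q • y = q.1 * y * q.1⁻¹ := fun _ _ => rfl
    rw [sum_eq_sum_fixed hQ hkill]
    · apply Finset.sum_eq_zero
      intro y hy
      have h1 := (Finset.mem_filter.mp hy).2
      have h2 : c y = 0 := by
        by_cases hyY : y ∈ Y
        · apply hc0 y hyY
          intro q hq
          have h3 := h1 ⟨q, hq⟩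
          rw [hsmul] at h3
          exact mul_inv_eq_iff_eq_mul.mp h3
        · exact hc.1 y hyY
      rw [h2]
      simp
    · intro q y
      rw [hsmul, hc.2 _ (hQY q.2)]
      by_cases hyY : y ∈ Y
      · have h1 : (MonoidAlgebra.single (q.1 * y * q.1⁻¹) ((c y : ℤ) : ZMod ℓ)) =
            MonoidAlgebra.single y ((c y : ℤ) : ZMod ℓ) *
              MonoidAlgebra.single (y⁻¹ * q.1 * y) 1 * MonoidAlgebra.single (q.1⁻¹) 1 := by
          rw [MonoidAlgebra.single_mul_single, MonoidAlgebra.single_mul_single]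
          congr 1
          · group
          · ring
        rw [h1, mul_assoc, mul_assoc, hfix _ (Q.inv_mem q.2), hfix]
        have := hn y⁻¹ (Y.inv_mem hyY) q.1 q.2
        simpa using this
      · rw [hc.1 y hyY]
        simp
  apply hm0
  apply Subtype.ext
  obtain ⟨N', rfl⟩ : ∃ N', N = N' + 1 := ⟨N - 1, by omega⟩
  have h1 : z ^ (N' + 1) * m.1 = m.1 := m.2
  rw [pow_succ, mul_assoc, hzm, mul_zero] at h1
  exact h1

/-- Convolution of functions on a group. -/
def conv (c c' : H → ℤ) (x : H) : ℤ := ∑ y, c y * c' (y⁻¹ * x)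

theorem elt_injective : Function.Injective (elt : (H → ℤ) → MonoidAlgebra ℤ H) := by
  intro c c' h
  ext x
  rw [← elt_coeff c, h, elt_coeff]

theorem elt_conv (c c' : H → ℤ) : elt (conv c c') = elt c * elt c' := by
  classical
  rw [elt, elt, elt, Finset.sum_mul]
  simp only [Finset.mul_sum, MonoidAlgebra.single_mul_single]
  have h1 : ∀ y : H, ∑ x : H, MonoidAlgebra.single (y * x) (c y * c' x) =
      ∑ x : H, MonoidAlgebra.single x (c y * c' (y⁻¹ * x)) := by
    intro y
    refine Fintype.sum_equiv (Equiv.mulLeft y) _ _ ?_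
    intro x
    simp
  simp only [h1]
  rw [Finset.sum_comm]
  refine Finset.sum_congr rfl fun x _ => ?_
  rw [conv]
  exact map_sum (MonoidAlgebra.singleAddHom x) _ _

theorem conv_supp (Y : Subgroup H) {c c' : H → ℤ} (hc : SuppClass Y c) (hc' : SuppClass Y c') :
    SuppClass Y (conv c c') := by
  constructor
  · intro x hx
    apply Finset.sum_eq_zero
    intro y _
    by_cases hy : y ∈ Y
    · rw [hc'.1, mul_zero]
      intro h
      apply hx
      have := mul_mem hy h
      simpa using this
    · rw [hc.1 y hy, zero_mul]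
  · intro g hg x
    rw [conv, conv]
    symm
    refine Fintype.sum_equiv (MulAut.conj g).toEquiv _ _ ?_
    intro y
    have h1 : (MulAut.conj g).toEquiv y = g * y * g⁻¹ := rfl
    rw [h1, hc.2 g hg]
    congr 1
    have h2 : (g * y * g⁻¹)⁻¹ * (g * x * g⁻¹) = g * (y⁻¹ * x) * g⁻¹ := by group
    rw [h2, hc'.2 g hg]

end Nilp

end Pool.Agent.Lib_helper13
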