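import Mathlib
import Pool.Agent.Lib_helper13.Brauer
import Pool.Agent.Lib_helper13.Little

set_option linter.unusedSectionVars false

/-! Multiplicativity of induced central functions modulo `𝔐`. -/

namespace Pool.Agent.Lib_helper13

open Representation

section Mult

variable {H : Type*} [Group H] [Fintype H]
variable (𝔐 : Ideal (integralClosure ℤ ℂ))
variable {S : Subgroup H} [Fintype S]

/-- The reduced central value of an integral function on a subgroup. -/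
noncomputable def Lam (ψ : S → ℂ) (c : H → ℤ) : (integralClosure ℤ ℂ) ⧸ 𝔐 :=
  red 𝔐 (wt ψ (fun s => ((c (s : H) : ℤ) : ℂ)))

/-- Multiplicativity on integral class functions of `Y`. -/
def MultOn (ψ : S → ℂ) (Y : Subgroup H) : Prop :=
  ∀ c c' : H → ℤ, SuppClass Y c → SuppClass Y c' →
    Lam 𝔐 ψ (conv c c') = Lam 𝔐 ψ c * Lam 𝔐 ψ c'

theorem isIntegral_wt_int {ψ : S → ℂ} (hψ : IsIrr ψ) (c : H → ℤ)
    (hc : ∀ g ∈ S, ∀ x, c (g * x * g⁻¹) = c x) :
    IsIntegral ℤ (wt ψ (fun s => ((c (s : H) : ℤ) : ℂ))) := by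
  apply isIntegral_wt hψ
  · intro g x
    have := hc g g.2 x
    change ((c ((g : H) * x * (g : H)⁻¹) : ℤ) : ℂ) = _
    rw [this]
  · intro y
    exact isIntegral_algebraMap (R := ℤ) (A := ℂ) (x := c y)

theorem Lam_add {ψ : S → ℂ} (hψ : IsIrr ψ) (c c' : H → ℤ)
    (hc : ∀ g ∈ S, ∀ x, c (g * x * g⁻¹) = c x) (hc' : ∀ g ∈ S, ∀ x, c' (g * x * g⁻¹) = c' x) :
    Lam 𝔐 ψ (fun x => c x + c' x) = Lam 𝔐 ψ c + Lam 𝔐 ψ c' := by
  rw [Lam, Lam, Lam, ← red_add 𝔐 (isIntegral_wt_int hψ c hc) (isIntegral_wt_int hψ c' hc'),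
    ← wt_add]
  congr 2
  ext s
  push_cast
  rfl

theorem Lam_congr (ψ : S → ℂ) (c c' : H → ℤ) (h : ∀ x ∈ S, c x = c' x) :
    Lam 𝔐 ψ c = Lam 𝔐 ψ c' := by
  rw [Lam, Lam]
  congr 2
  ext s
  rw [h s s.2]

theorem Lam_mul_nat {ℓ : ℕ} (hℓ : (ℓ : integralClosure ℤ ℂ) ∈ 𝔐) {ψ : S → ℂ} (hψ : IsIrr ψ)
    (w : H → ℤ) (hw : ∀ g ∈ S, ∀ x, w (g * x * g⁻¹) = w x) :
    Lam 𝔐 ψ (fun x => ℓ * w x) = 0 := by
  have h1 : wt ψ (fun s => (((ℓ * w (s : H) : ℤ)) : ℂ)) =
      (ℓ : ℂ) * wt ψ (fun s => ((w (s : H) : ℤ) : ℂ)) := by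
    rw [← wt_smul]
    congr 1
    ext s
    push_cast
    rfl
  rw [Lam, h1, red_natCast_mul 𝔐 ℓ (isIntegral_wt_int hψ w hw), nsmul_quot_eq_zero 𝔐 hℓ]

theorem multOn_self {ψ : S → ℂ} (hψ : IsIrr ψ) : MultOn 𝔐 ψ S := by
  classical
  intro c c' hc hc'
  have hr : ∀ c : H → ℤ, SuppClass S c → elt (fun s : S => c s) ∈
      Subalgebra.center ℤ (MonoidAlgebra ℤ S) := by
    intro c hc
    apply elt_mem_center
    intro g x
    exact hc.2 g g.2 x
  have h1 : ∀ c : H → ℤ, wt ψ (fun s => ((c (s : H) : ℤ) : ℂ)) =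
      om ψ (elt (fun s : S => c s)) := by
    intro c
    rw [om_elt, wt]
  have h2 : (fun s : S => conv c c' (s : H)) =
      conv (fun s : S => c s) (fun s : S => c' s) := by
    ext s
    rw [conv, conv]
    rw [← Finset.sum_subset (Finset.subset_univ (Finset.univ.filter (fun k => k ∈ S)))]
    · rw [← Finset.sum_subtype_eq_sum_filter, Finset.subtype_univ]
      exact Fintype.sum_equiv (Equiv.refl _) _ _ (fun x => rfl)
    · intro y _ hy
      rw [hc.1 y (fun h => hy (Finset.mem_filter.mpr ⟨Finset.mem_univ _, h⟩)), zero_mul]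
  rw [Lam, Lam, Lam, ← red_mul 𝔐 (isIntegral_wt_int hψ c (fun g hg x => hc.2 g hg x))
    (isIntegral_wt_int hψ c' (fun g hg x => hc'.2 g hg x))]
  congr 1
  rw [h1, h1, h1, ← om_mul hψ (hr c hc) (hr c' hc'), ← elt_conv, h2]

/-- Convolution powers. -/
noncomputable def cpow (c : H → ℤ) : ℕ → (H → ℤ)
  | 0 => open Classical in fun x => if x = 1 then 1 else 0
  | n + 1 => conv (cpow c n) c

theorem elt_cpow (c : H → ℤ) (n : ℕ) : elt (cpow c n) = (elt c) ^ n := by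
  classical
  induction n with
  | zero =>
    rw [pow_zero]
    apply MonoidAlgebra.ext
    ext x
    rw [elt_coeff, cpow, MonoidAlgebra.one_def, MonoidAlgebra.coeff_single, Finsupp.single_apply]
    simp only [eq_comm]
  | succ n ih => rw [cpow, elt_conv, ih, pow_succ]

theorem cpow_supp (Y : Subgroup H) {c : H → ℤ} (hc : SuppClass Y c) (n : ℕ) :
    SuppClass Y (cpow c n) := by
  classical
  induction n with
  | zero =>
    constructor
    · intro x hx
      simp only [cpow]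
      rw [if_neg]
      rintro rfl
      exact hx Y.one_mem
    · intro g _ x
      simp only [cpow]
      by_cases h : x = 1
      · subst h
        simp
      · rw [if_neg, if_neg h]
        intro h1
        apply h
        have : x = g⁻¹ * (g * x * g⁻¹) * g := by group
        rw [this, h1]
        group
  | succ n ih => exact conv_supp Y ih hc

theorem Lam_one {ψ : S → ℂ} (hψ : IsIrr ψ) (c : H → ℤ) : Lam 𝔐 ψ (cpow c 0) = 1 := by
  classical
  rw [Lam, wt, ← red_one 𝔐]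
  congr 1
  rw [div_eq_one_iff_eq hψ.one_ne_zero, Finset.sum_eq_single (1 : S)]
  · simp [cpow]
  · intro b _ hb
    have : (b : H) ≠ 1 := fun h => hb (Subtype.ext h)
    simp [cpow, this]
  · simp

theorem Lam_cpow {ψ : S → ℂ} (hψ : IsIrr ψ) {Y : Subgroup H} (hm : MultOn 𝔐 ψ Y)
    {c : H → ℤ} (hc : SuppClass Y c) (n : ℕ) : Lam 𝔐 ψ (cpow c n) = Lam 𝔐 ψ c ^ n := by
  induction n with
  | zero => rw [pow_zero, Lam_one 𝔐 hψ]
  | succ n ih => rw [cpow, hm _ _ (cpow_supp Y hc n) hc, ih, pow_succ]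

theorem Lam_eq_zero [h𝔐 : 𝔐.IsPrime] {ℓ : ℕ} [Fact ℓ.Prime]
    (hℓ : (ℓ : integralClosure ℤ ℂ) ∈ 𝔐) {ψ : S → ℂ} (hψ : IsIrr ψ) {Y : Subgroup H}
    (hS : S ≤ Y) (hm : MultOn 𝔐 ψ Y) (Q : Subgroup H) (hQY : Q ≤ Y) (hQ : IsPGroup ℓ Q)
    (hn : ∀ g ∈ Y, ∀ q ∈ Q, g * q * g⁻¹ ∈ Q) {c : H → ℤ} (hc : SuppClass Y c)
    (hc0 : ∀ y ∈ Y, (∀ q ∈ Q, q * y = y * q) → c y = 0) : Lam 𝔐 ψ c = 0 := by
  obtain ⟨N, hN, hz⟩ := elt_pow_zero' Y Q hQY hQ hn c hc hc0
  rw [← map_pow, ← elt_cpow] at hz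
  have hdiv : ∀ y, (ℓ : ℤ) ∣ cpow c N y := by
    intro y
    have h1 := congrArg (fun t : MonoidAlgebra (ZMod ℓ) H => t.coeff y) hz
    simp only [MonoidAlgebra.coeff_mapRingHom, MonoidAlgebra.coeff_zero, Finsupp.coe_zero,
      Pi.zero_apply] at h1
    rw [elt_coeff] at h1
    exact (ZMod.intCast_zmod_eq_zero_iff_dvd _ _).mp h1
  choose w hw using hdiv
  have hℓ0 : (ℓ : ℤ) ≠ 0 := by exact_mod_cast (Fact.out : ℓ.Prime).ne_zero
  have h1 : Lam 𝔐 ψ (cpow c N) = 0 := by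
    have h2 : cpow c N = fun x => ℓ * w x := funext hw
    rw [h2]
    apply Lam_mul_nat 𝔐 hℓ hψ
    intro g hg x
    have h3 := (cpow_supp Y hc N).2 g (hS hg) x
    rw [hw, hw x] at h3
    exact mul_left_cancel₀ hℓ0 h3
  rw [Lam_cpow 𝔐 hψ hm hc] at h1
  exact pow_eq_zero_iff (Nat.pos_iff_ne_zero.mp hN) |>.mp h1

theorem multOn_step [h𝔐 : 𝔐.IsPrime] {ℓ : ℕ} [Fact ℓ.Prime]
    (hℓ : (ℓ : integralClosure ℤ ℂ) ∈ 𝔐) {ψ : S → ℂ} (hψ : IsIrr ψ) {Y' Y : Subgroup H}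
    (hS : S ≤ Y') (hY : Y' ≤ Y) (hm : MultOn 𝔐 ψ Y') (Q : Subgroup H) (hQY : Q ≤ Y')
    (hQ : IsPGroup ℓ Q) (hn : ∀ g ∈ Y', ∀ q ∈ Q, g * q * g⁻¹ ∈ Q)
    (hcent : ∀ y ∈ Y, (∀ q ∈ Q, q * y = y * q) → y ∈ Y') : MultOn 𝔐 ψ Y := by
  classical
  intro c c' hc hc'
  -- restriction to `Y'`
  have hres : ∀ c : H → ℤ, SuppClass Y c → SuppClass Y' (fun x => if x ∈ Y' then c x else 0) := by
    intro c hc
    constructor
    · intro x hx
      simp only
      rw [if_neg hx]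
    · intro g hg x
      have h1 : g * x * g⁻¹ ∈ Y' ↔ x ∈ Y' := by
        constructor
        · intro h
          have : x = g⁻¹ * (g * x * g⁻¹) * g := by group
          rw [this]
          exact mul_mem (mul_mem (inv_mem hg) h) hg
        · intro h
          exact mul_mem (mul_mem hg h) (inv_mem hg)
      simp only [h1]
      rw [hc.2 g (hY hg)]
  set c₁ : H → ℤ := fun x => if x ∈ Y' then c x else 0 with hc₁
  set c₁' : H → ℤ := fun x => if x ∈ Y' then c' x else 0 with hc₁'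
  have hs1 : SuppClass Y' c₁ := hres c hc
  have hs1' : SuppClass Y' c₁' := hres c' hc'
  set Δ : H → ℤ := fun x => if x ∈ Y' then conv c c' x - conv c₁ c₁' x else 0 with hΔ
  have hsΔ : SuppClass Y' Δ := by
    constructor
    · intro x hx
      rw [hΔ]
      simp only
      rw [if_neg hx]
    · intro g hg x
      have h1 : g * x * g⁻¹ ∈ Y' ↔ x ∈ Y' := by
        constructor
        · intro h
          have : x = g⁻¹ * (g * x * g⁻¹) * g := by group
          rw [this]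
          exact mul_mem (mul_mem (inv_mem hg) h) hg
        · intro h
          exact mul_mem (mul_mem hg h) (inv_mem hg)
      rw [hΔ]
      simp only [h1]
      rw [(conv_supp Y hc hc').2 g (hY hg), (conv_supp Y' hs1 hs1').2 g hg]
  have hdvd : ∀ x ∈ Y', (∀ q ∈ Q, q * x = x * q) → (ℓ : ℤ) ∣ Δ x := by
    intro x hx hxQ
    have h1 : Δ x = ∑ y : H, if y ∈ Y' then 0 else c y * c' (y⁻¹ * x) := by
      rw [hΔ]
      simp only
      rw [if_pos hx, conv, conv, ← Finset.sum_sub_distrib]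
      refine Finset.sum_congr rfl fun y _ => ?_
      rw [hc₁, hc₁']
      simp only
      by_cases hy : y ∈ Y'
      · rw [if_pos hy, if_pos hy, if_pos (mul_mem (inv_mem hy) hx)]
        ring
      · rw [if_neg hy, if_neg hy]
        ring
    rw [h1, ← ZMod.intCast_zmod_eq_zero_iff_dvd, Int.cast_sum]
    let _ : MulAction Q H :=
      { smul := fun q y => q.1 * y * q.1⁻¹
        one_smul := fun y => by change ((1 : Q) : H) * y * ((1 : Q) : H)⁻¹ = y; simp
        mul_smul := fun a b y => by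
          change ((a * b : Q) : H) * y * ((a * b : Q) : H)⁻¹ = a.1 * (b.1 * y * b.1⁻¹) * a.1⁻¹
          simp [mul_assoc] }
    have hsmul : ∀ (q : Q) (y : H), q • y = q.1 * y * q.1⁻¹ := fun _ _ => rfl
    rw [sum_eq_sum_fixed hQ (M := ZMod ℓ) (by intro m; simp)]
    · apply Finset.sum_eq_zero
      intro y hy
      have h2 := (Finset.mem_filter.mp hy).2
      have h3 : ∀ q ∈ Q, q * y = y * q := by
        intro q hq
        have h3 := h2 ⟨q, hq⟩
        rw [hsmul] at h3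
        exact mul_inv_eq_iff_eq_mul.mp h3
      by_cases hyY : y ∈ Y
      · rw [if_pos (hcent y hyY h3)]
        simp
      · rw [hc.1 y hyY]
        simp
    · intro q y
      rw [hsmul]
      have h4 : q.1 * y * q.1⁻¹ ∈ Y' ↔ y ∈ Y' := by
        constructor
        · intro h
          have : y = q.1⁻¹ * (q.1 * y * q.1⁻¹) * q.1 := by group
          rw [this]
          exact mul_mem (mul_mem (inv_mem (hQY q.2)) h) (hQY q.2)
        · intro h
          exact mul_mem (mul_mem (hQY q.2) h) (inv_mem (hQY q.2))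
      simp only [h4]
      congr 1
      by_cases hy : y ∈ Y'
      · rw [if_pos hy, if_pos hy]
      · rw [if_neg hy, if_neg hy, hc.2 _ (hY (hQY q.2))]
        congr 1
        have h5 : (q.1 * y * q.1⁻¹)⁻¹ * x = q.1 * (y⁻¹ * x) * q.1⁻¹ := by
          have h6 := hxQ q.1⁻¹ (inv_mem q.2)
          calc (q.1 * y * q.1⁻¹)⁻¹ * x = q.1 * y⁻¹ * (q.1⁻¹ * x) := by group
            _ = q.1 * y⁻¹ * (x * q.1⁻¹) := by rw [h6]
            _ = _ := by group
        rw [h5, hc'.2 _ (hY (hQY q.2))]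
  have hcentn : ∀ g ∈ Y', ∀ x, (∀ q ∈ Q, q * (g * x * g⁻¹) = (g * x * g⁻¹) * q) ↔
      (∀ q ∈ Q, q * x = x * q) := by
    intro g hg x
    constructor
    · intro h q hq
      have h1 := h (g * q * g⁻¹) (hn g hg q hq)
      have h2 : g * (q * x) * g⁻¹ = g * (x * q) * g⁻¹ := by
        calc g * (q * x) * g⁻¹ = g * q * g⁻¹ * (g * x * g⁻¹) := by group
          _ = g * x * g⁻¹ * (g * q * g⁻¹) := h1
          _ = _ := by group
      exact mul_left_cancel (mul_right_cancel h2)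
    · intro h q hq
      have h1 := hn g⁻¹ (inv_mem hg) q hq
      rw [inv_inv] at h1
      have h2 := h _ h1
      calc q * (g * x * g⁻¹) = g * ((g⁻¹ * q * g) * x) * g⁻¹ := by group
        _ = g * (x * (g⁻¹ * q * g)) * g⁻¹ := by rw [h2]
        _ = _ := by group
  set Δ₁ : H → ℤ := fun x => if ∀ q ∈ Q, q * x = x * q then 0 else Δ x with hΔ₁
  set Δ₂ : H → ℤ := fun x => if ∀ q ∈ Q, q * x = x * q then Δ x / ℓ else 0 with hΔ₂
  have hs₁ : SuppClass Y' Δ₁ := by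
    constructor
    · intro x hx
      rw [hΔ₁]
      simp only
      rw [hsΔ.1 x hx]
      simp
    · intro g hg x
      rw [hΔ₁]
      simp only [hcentn g hg x]
      rw [hsΔ.2 g hg]
  have hs₂ : SuppClass Y' Δ₂ := by
    constructor
    · intro x hx
      rw [hΔ₂]
      simp only
      rw [hsΔ.1 x hx]
      simp
    · intro g hg x
      rw [hΔ₂]
      simp only [hcentn g hg x]
      rw [hsΔ.2 g hg]
  have hsplit : ∀ x ∈ Y', Δ x = Δ₁ x + ℓ * Δ₂ x := by
    intro x hx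
    rw [hΔ₁, hΔ₂]
    simp only
    by_cases h : ∀ q ∈ Q, q * x = x * q
    · rw [if_pos h, if_pos h, zero_add, Int.mul_ediv_cancel' (hdvd x hx h)]
    · rw [if_neg h, if_neg h, mul_zero, add_zero]
  have hz1 : Lam 𝔐 ψ Δ₁ = 0 := by
    apply Lam_eq_zero 𝔐 hℓ hψ hS hm Q hQY hQ hn hs₁
    intro y _ hy
    rw [hΔ₁]
    simp only
    rw [if_pos hy]
  have hz2 : Lam 𝔐 ψ (fun x => ℓ * Δ₂ x) = 0 :=
    Lam_mul_nat 𝔐 hℓ hψ Δ₂ (fun g hg x => hs₂.2 g (hS hg) x)
  have hcl2 : ∀ g ∈ S, ∀ x, (fun x => (ℓ : ℤ) * Δ₂ x) (g * x * g⁻¹) =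
      (fun x => (ℓ : ℤ) * Δ₂ x) x := by
    intro g hg x
    simp only
    rw [hs₂.2 g (hS hg)]
  have hzΔ : Lam 𝔐 ψ Δ = 0 := by
    have h1 : Lam 𝔐 ψ Δ = Lam 𝔐 ψ (fun x => Δ₁ x + ℓ * Δ₂ x) :=
      Lam_congr 𝔐 ψ _ _ fun x hx => hsplit x (hS hx)
    rw [h1, Lam_add 𝔐 hψ Δ₁ (fun x => ℓ * Δ₂ x) (fun g hg x => hs₁.2 g (hS hg) x) hcl2, hz1, hz2,
      add_zero]
  have h1 : Lam 𝔐 ψ (conv c c') = Lam 𝔐 ψ (fun x => conv c₁ c₁' x + Δ x) := by
    apply Lam_congr
    intro x hx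
    rw [hΔ]
    simp only
    rw [if_pos (hS hx)]
    ring
  rw [h1, Lam_add 𝔐 hψ (conv c₁ c₁') Δ
    (fun g hg x => (conv_supp Y' hs1 hs1').2 g (hS hg) x) (fun g hg x => hsΔ.2 g (hS hg) x),
    hzΔ, add_zero, hm c₁ c₁' hs1 hs1']
  have e1 : Lam 𝔐 ψ c₁ = Lam 𝔐 ψ c := by
    apply Lam_congr
    intro x hx
    rw [hc₁]
    simp only
    rw [if_pos (hS hx)]
  have e2 : Lam 𝔐 ψ c₁' = Lam 𝔐 ψ c' := by
    apply Lam_congr
    intro x hx
    rw [hc₁']
    simp only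
    rw [if_pos (hS hx)]
  rw [e1, e2]

/-- Class functions of `Y` with values congruent on the centralizer of a normal `ℓ`-subgroup of
`Y` have the same weight. -/
theorem red_wt_eq' [h𝔐 : 𝔐.IsPrime] {ℓ : ℕ} [Fact ℓ.Prime]
    (hℓ : (ℓ : integralClosure ℤ ℂ) ∈ 𝔐) {ψ : S → ℂ} (hψ : IsIrr ψ) {Y : Subgroup H}
    (hS : S ≤ Y) (hm : MultOn 𝔐 ψ Y) (Q : Subgroup H) (hQY : Q ≤ Y) (hQ : IsPGroup ℓ Q)
    (hn : ∀ g ∈ Y, ∀ q ∈ Q, g * q * g⁻¹ ∈ Q) (f f' : H → ℂ)
    (hf : ∀ g ∈ Y, ∀ x ∈ Y, f (g * x * g⁻¹) = f x) (hi : ∀ y ∈ Y, IsIntegral ℤ (f y))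
    (hf' : ∀ g ∈ Y, ∀ x ∈ Y, f' (g * x * g⁻¹) = f' x) (hi' : ∀ y ∈ Y, IsIntegral ℤ (f' y))
    (heq : ∀ y ∈ Y, (∀ q ∈ Q, q * y = y * q) → red 𝔐 (f y) = red 𝔐 (f' y)) :
    red 𝔐 (wt ψ (fun s => f s)) = red 𝔐 (wt ψ (fun s => f' s)) := by
  classical
  have hYf : Fintype Y := Fintype.ofFinite _
  obtain ⟨F, hF⟩ := exists_lift_class (fun y : Y => f y) (fun g x => hf g g.2 x x.2)
  obtain ⟨F', hF'⟩ := exists_lift_class (fun y : Y => f' y) (fun g x => hf' g g.2 x x.2)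
  let ι : S → Y := fun s => ⟨s, hS s.2⟩
  have h1 : (fun s : S => f s) = fun s => F (ConjClasses.mk (ι s)) := by ext y; rw [hF]
  have h1' : (fun s : S => f' s) = fun s => F' (ConjClasses.mk (ι s)) := by ext y; rw [hF']
  let ind : Y → H → ℤ := fun x y => if ∃ h : y ∈ Y, ConjClasses.mk (⟨y, h⟩ : Y) =
    ConjClasses.mk x then 1 else 0
  have hind : ∀ x : Y, SuppClass Y (ind x) := by
    intro x
    constructor
    · intro y hy
      simp only [ind]
      rw [if_neg]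
      rintro ⟨h, -⟩
      exact hy h
    · intro g hg y
      simp only [ind]
      congr 1
      apply propext
      constructor
      · rintro ⟨h, h2⟩
        have hy : y ∈ Y := by
          have : y = g⁻¹ * (g * y * g⁻¹) * g := by group
          rw [this]
          exact mul_mem (mul_mem (inv_mem hg) h) hg
        refine ⟨hy, ?_⟩
        rw [← h2, ConjClasses.mk_eq_mk_iff_isConj]
        exact isConj_iff.mpr ⟨⟨g, hg⟩, rfl⟩
      · rintro ⟨h, h2⟩
        refine ⟨mul_mem (mul_mem hg h) (inv_mem hg), ?_⟩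
        rw [← h2, ConjClasses.mk_eq_mk_iff_isConj]
        apply IsConj.symm
        exact isConj_iff.mpr ⟨⟨g, hg⟩, rfl⟩
  have hom : ∀ x : Y, (fun s : S => if ConjClasses.mk (ι s) = ConjClasses.mk x then (1 : ℂ) else 0)
      = fun s : S => ((ind x (s : H) : ℤ) : ℂ) := by
    intro x
    ext s
    simp only [ind]
    by_cases h : ConjClasses.mk (ι s) = ConjClasses.mk x
    · rw [if_pos h, if_pos ⟨hS s.2, h⟩]
      simp
    · rw [if_neg h, if_neg]
      · simp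
      · rintro ⟨h2, h3⟩
        exact h h3
  have hint : ∀ x : Y, IsIntegral ℤ
      (wt ψ (fun s => if ConjClasses.mk (ι s) = ConjClasses.mk x then 1 else 0)) := by
    intro x
    rw [hom]
    exact isIntegral_wt_int hψ _ (fun g hg y => (hind x).2 g (hS hg) y)
  rw [h1, h1', wt_comp_classes, wt_comp_classes, red_sum, red_sum]
  · refine Finset.sum_congr rfl fun L _ => ?_
    obtain ⟨x, rfl⟩ := L.exists_rep
    change red 𝔐 (F (ConjClasses.mk x) * _) = red 𝔐 (F' (ConjClasses.mk x) * _)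
    rw [hF, hF', red_mul 𝔐 (hi x x.2) (hint x), red_mul 𝔐 (hi' x x.2) (hint x)]
    by_cases hx : ∀ q ∈ Q, q * (x : H) = x * q
    · rw [heq x x.2 hx]
    · have : red 𝔐 (wt ψ (fun s => if ConjClasses.mk (ι s) = ConjClasses.mk x then 1 else 0)) =
          0 := by
        rw [hom]
        apply Lam_eq_zero 𝔐 hℓ hψ hS hm Q hQY hQ hn (hind x)
        intro y _ hy
        simp only [ind]
        rw [if_neg]
        rintro ⟨hyY, hxy⟩
        apply hx
        rw [ConjClasses.mk_eq_mk_iff_isConj] at hxy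
        obtain ⟨c, hc⟩ := isConj_iff.mp hxy
        have hc' : (c : H) * y * (c : H)⁻¹ = x := congrArg Subtype.val hc
        rw [← hc']
        intro q hq
        have h1 := hn (c : H)⁻¹ (inv_mem c.2) q hq
        rw [inv_inv] at h1
        have h2 := hy _ h1
        calc q * ((c : H) * y * (c : H)⁻¹) = c * (((c : H)⁻¹ * q * c) * y) * (c : H)⁻¹ := by group
          _ = c * (y * ((c : H)⁻¹ * q * c)) * (c : H)⁻¹ := by rw [h2]
          _ = _ := by group
      rw [this, mul_zero, mul_zero]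
  · intro L _
    obtain ⟨x, rfl⟩ := L.exists_rep
    change IsIntegral ℤ (F' (ConjClasses.mk x) * _)
    rw [hF']
    exact (hi' x x.2).mul (hint x)
  · intro L _
    obtain ⟨x, rfl⟩ := L.exists_rep
    change IsIntegral ℤ (F (ConjClasses.mk x) * _)
    rw [hF]
    exact (hi x x.2).mul (hint x)

end Mult

end Pool.Agent.Lib_helper13
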