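import Mathlib

set_option linter.unusedSectionVars false

/-! Chains of `ℓ`-subgroups. -/

namespace Pool.Agent.Lib_helper13

section Chains

variable {G : Type*} [Group G]

/-- The stabilizer of a set of subgroups, elementwise. -/
def stb (σ : Finset (Subgroup G)) : Subgroup G := ⨅ D ∈ σ, Subgroup.normalizer (D : Set G)

theorem mem_stb {σ : Finset (Subgroup G)} {g : G} :
    g ∈ stb σ ↔ ∀ D ∈ σ, D.map (MulAut.conj g).toMonoidHom = D := by
  simp only [stb, Subgroup.mem_iInf]
  refine forall₂_congr fun D _ => ?_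
  rw [Subgroup.mem_normalizer_iff_map_conj_eq]
  rfl

theorem mem_stb' {σ : Finset (Subgroup G)} {g : G} :
    g ∈ stb σ ↔ ∀ D ∈ σ, ∀ x, x ∈ D ↔ g * x * g⁻¹ ∈ D := by
  simp only [stb, Subgroup.mem_iInf]
  refine forall₂_congr fun D _ => ?_
  rw [Subgroup.mem_normalizer_iff]

theorem stb_empty : stb (∅ : Finset (Subgroup G)) = ⊤ := by
  simp [stb]

/-- `σ` is a chain of `ℓ`-subgroups properly containing `Z`. -/
def IsCh (ℓ : ℕ) (Z : Subgroup G) (σ : Finset (Subgroup G)) : Prop :=
  (∀ D ∈ σ, IsPGroup ℓ D ∧ Z < D) ∧ IsChain (· ≤ ·) (σ : Set (Subgroup G))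

theorem IsCh.total {ℓ : ℕ} {Z : Subgroup G} {σ : Finset (Subgroup G)} (h : IsCh ℓ Z σ)
    {D E : Subgroup G} (hD : D ∈ σ) (hE : E ∈ σ) : D ≤ E ∨ E ≤ D :=
  h.2.total (Finset.mem_coe.mpr hD) (Finset.mem_coe.mpr hE)

theorem IsCh.subset {ℓ : ℕ} {Z : Subgroup G} {σ σ' : Finset (Subgroup G)} (h : IsCh ℓ Z σ)
    (hs : σ' ⊆ σ) : IsCh ℓ Z σ' :=
  ⟨fun D hD => h.1 D (hs hD), h.2.mono (Finset.coe_subset.mpr hs)⟩

theorem IsCh.insert {ℓ : ℕ} {Z : Subgroup G} {σ : Finset (Subgroup G)} (h : IsCh ℓ Z σ)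
    [DecidableEq (Subgroup G)] {E : Subgroup G} (hE : IsPGroup ℓ E) (hZ : Z < E)
    (hc : ∀ D ∈ σ, D ≤ E ∨ E ≤ D) : IsCh ℓ Z (insert E σ) := by
  constructor
  · intro D hD
    rcases Finset.mem_insert.mp hD with rfl | hD
    · exact ⟨hE, hZ⟩
    · exact h.1 D hD
  · rw [Finset.coe_insert]
    apply h.2.insert
    intro D hD _
    exact (hc D hD).symm

theorem isCh_empty (ℓ : ℕ) (Z : Subgroup G) : IsCh ℓ Z ∅ := by
  constructor
  · simp
  · simp

/-- The greatest member of a nonempty chain. -/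
theorem IsCh.exists_top {ℓ : ℕ} {Z : Subgroup G} {σ : Finset (Subgroup G)} (h : IsCh ℓ Z σ)
    (hne : σ.Nonempty) : ∃ T ∈ σ, ∀ D ∈ σ, D ≤ T := by
  obtain ⟨T, hT⟩ := σ.exists_maximal hne
  refine ⟨T, hT.1, fun D hD => ?_⟩
  rcases h.total hD hT.1 with h1 | h1
  · exact h1
  · exact hT.2 hD h1

theorem IsCh.exists_bot {ℓ : ℕ} {Z : Subgroup G} {σ : Finset (Subgroup G)} (h : IsCh ℓ Z σ)
    (hne : σ.Nonempty) : ∃ T ∈ σ, ∀ D ∈ σ, T ≤ D := by
  obtain ⟨T, hT⟩ := σ.exists_minimal hne
  refine ⟨T, hT.1, fun D hD => ?_⟩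
  rcases h.total hD hT.1 with h1 | h1
  · exact hT.2 hD h1
  · exact h1

variable [Fintype G]

open Classical in
/-- All chains. -/
noncomputable def Ch (ℓ : ℕ) (Z : Subgroup G) : Finset (Finset (Subgroup G)) :=
  Finset.univ.filter (IsCh ℓ Z)

theorem mem_Ch {ℓ : ℕ} {Z : Subgroup G} {σ : Finset (Subgroup G)} :
    σ ∈ Ch ℓ Z ↔ IsCh ℓ Z σ := by
  classical
  simp [Ch]

/-- Alternating sums over chains vanish when there is a larger normal `ℓ`-subgroup. -/
theorem sum_chains_eq_zero {ℓ : ℕ} [Fact ℓ.Prime] (Z O : Subgroup G) (hO : IsPGroup ℓ O)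
    [O.Normal] (hZO : Z < O) {M : Type*} [AddCommGroup M] (W : Subgroup G → M) :
    ∑ σ ∈ Ch ℓ Z, (-1 : ℤ) ^ σ.card • W (stb σ) = 0 := by
  classical
  let E : Finset (Subgroup G) → Subgroup G := fun σ =>
    ((σ.filter (fun D => ¬ O ≤ D)).sup id) ⊔ O
  have hOE : ∀ σ, O ≤ E σ := fun σ => le_sup_right
  have hE1 : ∀ σ, E (insert (E σ) σ) = E σ := by
    intro σ
    have : (insert (E σ) σ).filter (fun D => ¬ O ≤ D) = σ.filter (fun D => ¬ O ≤ D) := by
      rw [Finset.filter_insert, if_neg (not_not.mpr (hOE σ))]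
    change ((((insert (E σ) σ).filter (fun D => ¬ O ≤ D))).sup id) ⊔ O = _
    rw [this]
  have hE2 : ∀ σ, E (σ.erase (E σ)) = E σ := by
    intro σ
    have : (σ.erase (E σ)).filter (fun D => ¬ O ≤ D) = σ.filter (fun D => ¬ O ≤ D) := by
      rw [Finset.filter_erase, Finset.erase_eq_of_notMem]
      intro h
      exact (Finset.mem_filter.mp h).2 (hOE σ)
    change ((((σ.erase (E σ)).filter (fun D => ¬ O ≤ D))).sup id) ⊔ O = _
    rw [this]
  have hcomp : ∀ σ, IsCh ℓ Z σ → ∀ D ∈ σ, D ≤ E σ ∨ E σ ≤ D := by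
    intro σ hσ D hD
    by_cases h : O ≤ D
    · right
      apply sup_le _ h
      rw [Finset.sup_le_iff]
      intro D' hD'
      rw [Finset.mem_filter] at hD'
      rcases hσ.total hD'.1 hD with h1 | h1
      · exact h1
      · exact absurd (h.trans h1) hD'.2
    · left
      refine le_trans ?_ le_sup_left
      exact Finset.le_sup (f := id) (Finset.mem_filter.mpr ⟨hD, h⟩)
  have hEp : ∀ σ, IsCh ℓ Z σ → IsPGroup ℓ (E σ) := by
    intro σ hσ
    apply IsPGroup.to_sup_of_normal_right _ hO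
    rcases (σ.filter (fun D => ¬ O ≤ D)).eq_empty_or_nonempty with h | h
    · rw [h, Finset.sup_empty]
      exact IsPGroup.of_bot
    · obtain ⟨T, hT, hT'⟩ := (hσ.subset (Finset.filter_subset _ _)).exists_top h
      have : (σ.filter (fun D => ¬ O ≤ D)).sup id = T := by
        apply le_antisymm
        · rw [Finset.sup_le_iff]
          exact hT'
        · exact Finset.le_sup (f := id) hT
      rw [this]
      exact (hσ.1 T (Finset.mem_filter.mp hT).1).1
  have hmap : ∀ (g : G) (σ : Finset (Subgroup G)),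
      (∀ D ∈ σ, ¬ O ≤ D → D.map (MulAut.conj g).toMonoidHom = D) →
      (E σ).map (MulAut.conj g).toMonoidHom = E σ := by
    intro g σ h
    change (((σ.filter (fun D => ¬ O ≤ D)).sup id) ⊔ O).map _ = _
    rw [Subgroup.map_sup]
    congr 1
    · have h1 : ∀ s : Finset (Subgroup G), (s.sup id).map (MulAut.conj g).toMonoidHom =
          s.sup (fun D => D.map (MulAut.conj g).toMonoidHom) := by
        intro s
        induction s using Finset.induction_on with
        | empty => rw [Finset.sup_empty, Finset.sup_empty, Subgroup.map_bot]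
        | insert a s _ ih =>
          rw [Finset.sup_insert, Finset.sup_insert, Subgroup.map_sup, ih]
          rfl
      rw [h1]
      apply Finset.sup_congr rfl
      intro D hD
      rw [Finset.mem_filter] at hD
      exact h D hD.1 hD.2
    · have := Subgroup.mem_normalizer_iff_map_conj_eq.mp
        (show g ∈ Subgroup.normalizer (O : Set G) by
          rw [Subgroup.normalizer_eq_top_iff.mpr inferInstance]
          trivial)
      exact this
  have hs1 : ∀ σ, stb (insert (E σ) σ) = stb σ := by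
    intro σ
    ext g
    rw [mem_stb, mem_stb]
    constructor
    · intro h D hD
      exact h D (Finset.mem_insert_of_mem hD)
    · intro h D hD
      rcases Finset.mem_insert.mp hD with rfl | hD
      · exact hmap g σ fun D hD _ => h D hD
      · exact h D hD
  have hs2 : ∀ σ, stb (σ.erase (E σ)) = stb σ := by
    intro σ
    ext g
    rw [mem_stb, mem_stb]
    constructor
    · intro h D hD
      by_cases hDE : D = E σ
      · rw [hDE]
        apply hmap
        intro D' hD' hO'
        apply h D'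
        rw [Finset.mem_erase]
        refine ⟨?_, hD'⟩
        rintro rfl
        exact hO' (hOE σ)
      · exact h D (Finset.mem_erase.mpr ⟨hDE, hD⟩)
    · intro h D hD
      exact h D (Finset.mem_of_mem_erase hD)
  apply Finset.sum_involution (fun σ _ => if E σ ∈ σ then σ.erase (E σ) else insert (E σ) σ)
  · intro σ hσ
    split_ifs with h
    · rw [hs2, Finset.card_erase_of_mem h]
      have h1 : 0 < σ.card := Finset.card_pos.mpr ⟨_, h⟩
      obtain ⟨n, hn⟩ : ∃ n, σ.card = n + 1 := ⟨σ.card - 1, by omega⟩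
      rw [hn, Nat.add_sub_cancel, pow_succ, ← add_smul]
      simp
    · rw [hs1, Finset.card_insert_of_notMem h, pow_succ, ← add_smul]
      simp
  · intro σ hσ _
    split_ifs with h
    · intro h1
      have h2 := Finset.notMem_erase (E σ) σ
      rw [h1] at h2
      exact h2 h
    · intro h1
      apply h
      have h2 := Finset.mem_insert_self (E σ) σ
      rw [h1] at h2
      exact h2
  · intro σ hσ
    rw [mem_Ch] at hσ ⊢
    split_ifs with h
    · exact hσ.subset (Finset.erase_subset _ _)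
    · exact hσ.insert (hEp σ hσ) (lt_of_lt_of_le hZO (hOE σ)) (hcomp σ hσ)
  · intro σ hσ
    by_cases h : E σ ∈ σ
    · simp only [h, if_true]
      rw [hE2, if_neg (Finset.notMem_erase _ _), Finset.insert_erase h]
    · simp only [h, if_false]
      rw [hE1, if_pos (Finset.mem_insert_self _ _), Finset.erase_insert h]

end Chains

end Pool.Agent.Lib_helper13
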