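import Mathlib
import Pool.Agent.Lib_helper13.Chains

set_option linter.unusedSectionVars false

/-! Transport of chains along injective homomorphisms. -/

namespace Pool.Agent.Lib_helper13

section ChainMap

variable {A B C : Type*} [Group A] [Group B] [Group C]

open Classical in
/-- The image of a chain. -/
noncomputable def mapCh (i : A →* B) (τ : Finset (Subgroup A)) : Finset (Subgroup B) :=
  τ.image (Subgroup.map i)

theorem mem_mapCh {i : A →* B} {τ : Finset (Subgroup A)} {E : Subgroup B} :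
    E ∈ mapCh i τ ↔ ∃ D ∈ τ, D.map i = E := by
  classical
  simp [mapCh]

theorem card_mapCh {i : A →* B} (hi : Function.Injective i) (τ : Finset (Subgroup A)) :
    (mapCh i τ).card = τ.card := by
  classical
  rw [mapCh, Finset.card_image_of_injective _ (Subgroup.map_injective hi)]

theorem mapCh_injective {i : A →* B} (hi : Function.Injective i) :
    Function.Injective (mapCh i) := by
  classical
  exact Finset.image_injective (Subgroup.map_injective hi)

theorem mapCh_comp (i : A →* B) (j : B →* C) (τ : Finset (Subgroup A)) :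
    mapCh j (mapCh i τ) = mapCh (j.comp i) τ := by
  ext E
  simp only [mem_mapCh]
  constructor
  · rintro ⟨D', ⟨D, hD, rfl⟩, rfl⟩
    exact ⟨D, hD, (Subgroup.map_map _ _ _).symm⟩
  · rintro ⟨D, hD, rfl⟩
    exact ⟨D.map i, ⟨D, hD, rfl⟩, Subgroup.map_map _ _ _⟩

theorem mapCh_id (τ : Finset (Subgroup A)) : mapCh (MonoidHom.id A) τ = τ := by
  ext E
  simp [mem_mapCh]

theorem isCh_mapCh_iff {i : A →* B} (hi : Function.Injective i) {ℓ : ℕ} {Z : Subgroup A}
    {τ : Finset (Subgroup A)} : IsCh ℓ (Z.map i) (mapCh i τ) ↔ IsCh ℓ Z τ := by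
  have hle : ∀ D E : Subgroup A, D.map i ≤ E.map i ↔ D ≤ E := fun D E =>
    Subgroup.map_le_map_iff_of_injective hi
  constructor
  · rintro ⟨h1, h2⟩
    refine ⟨fun D hD => ?_, ?_⟩
    · obtain ⟨h3, h4⟩ := h1 (D.map i) (mem_mapCh.mpr ⟨D, hD, rfl⟩)
      refine ⟨h3.of_injective ((D.equivMapOfInjective i hi).toMonoidHom)
        (D.equivMapOfInjective i hi).injective, ?_⟩
      exact lt_of_le_not_ge ((hle _ _).mp h4.le) (fun h5 => h4.not_ge ((hle _ _).mpr h5))
    · intro D hD E hE _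
      have h3 := h2.total (Finset.mem_coe.mpr (mem_mapCh.mpr ⟨D, hD, rfl⟩))
        (Finset.mem_coe.mpr (mem_mapCh.mpr ⟨E, hE, rfl⟩))
      rwa [hle, hle] at h3
  · rintro ⟨h1, h2⟩
    refine ⟨fun D' hD' => ?_, ?_⟩
    · obtain ⟨D, hD, rfl⟩ := mem_mapCh.mp hD'
      obtain ⟨h3, h4⟩ := h1 D hD
      refine ⟨h3.map i, ?_⟩
      exact lt_of_le_not_ge ((hle _ _).mpr h4.le) (fun h5 => h4.not_ge ((hle _ _).mp h5))
    · intro D' hD' E' hE' _
      obtain ⟨D, hD, rfl⟩ := mem_mapCh.mp (Finset.mem_coe.mp hD')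
      obtain ⟨E, hE, rfl⟩ := mem_mapCh.mp (Finset.mem_coe.mp hE')
      have h3 := h2.total (Finset.mem_coe.mpr hD) (Finset.mem_coe.mpr hE)
      exact h3.imp (hle _ _).mpr (hle _ _).mpr

theorem comap_stb_mapCh {i : A →* B} (hi : Function.Injective i) (τ : Finset (Subgroup A)) :
    (stb (mapCh i τ)).comap i = stb τ := by
  ext g
  rw [Subgroup.mem_comap, mem_stb', mem_stb']
  constructor
  · intro h D hD x
    have h1 := h (D.map i) (mem_mapCh.mpr ⟨D, hD, rfl⟩) (i x)
    have h2 : i g * i x * (i g)⁻¹ = i (g * x * g⁻¹) := by simp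
    rw [h2, Subgroup.mem_map_iff_mem hi, Subgroup.mem_map_iff_mem hi] at h1
    exact h1
  · intro h D' hD' y
    obtain ⟨D, hD, rfl⟩ := mem_mapCh.mp hD'
    constructor
    · rintro ⟨x, hx, rfl⟩
      refine ⟨g * x * g⁻¹, (h D hD x).mp hx, by simp⟩
    · rintro ⟨x, hx, hx'⟩
      refine ⟨g⁻¹ * x * g, ?_, ?_⟩
      · have h3 : g * (g⁻¹ * x * g) * g⁻¹ = x := by group
        have := h D hD (g⁻¹ * x * g)
        rw [h3] at this
        exact this.mpr hx
      · rw [map_mul, map_mul, hx', map_inv]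
        group

theorem stb_mapCh_equiv (e : A ≃* B) (τ : Finset (Subgroup A)) :
    stb (mapCh e.toMonoidHom τ) = (stb τ).map e.toMonoidHom := by
  rw [← comap_stb_mapCh (i := e.toMonoidHom) e.injective τ]
  rw [Subgroup.map_comap_eq_self_of_surjective]
  exact e.surjective

theorem exists_mapCh {i : A →* B} {σ : Finset (Subgroup B)} (h : ∀ D ∈ σ, D ≤ i.range) :
    ∃ τ, mapCh i τ = σ := by
  classical
  refine ⟨σ.image (Subgroup.comap i), ?_⟩
  ext E
  rw [mem_mapCh]
  constructor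
  · rintro ⟨D, hD, rfl⟩
    obtain ⟨D', hD', rfl⟩ := Finset.mem_image.mp hD
    rw [Subgroup.map_comap_eq_self (h D' hD')]
    exact hD'
  · intro hE
    exact ⟨E.comap i, Finset.mem_image_of_mem _ hE, Subgroup.map_comap_eq_self (h E hE)⟩

variable [Fintype A] [Fintype B]

theorem sum_Ch_range {i : A →* B} (hi : Function.Injective i) (ℓ : ℕ) (Z : Subgroup A)
    {M : Type*} [AddCommMonoid M] (F : Finset (Subgroup B) → M)
    [DecidablePred fun σ : Finset (Subgroup B) => ∀ D ∈ σ, D ≤ i.range] :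
    ∑ σ ∈ (Ch ℓ (Z.map i)).filter (fun σ => ∀ D ∈ σ, D ≤ i.range), F σ =
      ∑ τ ∈ Ch ℓ Z, F (mapCh i τ) := by
  classical
  symm
  apply Finset.sum_bij (fun τ _ => mapCh i τ)
  · intro τ hτ
    rw [Finset.mem_filter, mem_Ch, isCh_mapCh_iff hi]
    refine ⟨mem_Ch.mp hτ, ?_⟩
    intro D' hD'
    obtain ⟨D, hD, rfl⟩ := mem_mapCh.mp hD'
    rw [MonoidHom.range_eq_map]
    exact Subgroup.map_mono le_top
  · intro a _ b _ h
    exact mapCh_injective hi h
  · intro σ hσ
    rw [Finset.mem_filter, mem_Ch] at hσ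
    obtain ⟨τ, h1⟩ := exists_mapCh hσ.2
    refine ⟨τ, ?_, h1⟩
    rw [mem_Ch, ← isCh_mapCh_iff hi, h1]
    exact hσ.1
  · intro τ _
    rfl

theorem sum_Ch_equiv (e : A ≃* B) (ℓ : ℕ) (Z : Subgroup A)
    {M : Type*} [AddCommMonoid M] (F : Finset (Subgroup B) → M) :
    ∑ σ ∈ Ch ℓ (Z.map e.toMonoidHom), F σ = ∑ τ ∈ Ch ℓ Z, F (mapCh e.toMonoidHom τ) := by
  classical
  rw [← sum_Ch_range (i := e.toMonoidHom) e.injective, Finset.filter_true_of_mem]
  intro σ _ D _
  rw [MonoidHom.range_eq_top.mpr e.surjective]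
  exact le_top

end ChainMap

end Pool.Agent.Lib_helper13
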