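import Mathlib
import Pool.Agent.Lib_helper13.ChainMap
import Pool.Agent.Lib_helper13.Fourier

set_option linter.unusedSectionVars false

/-! Chains of `ℓ`-subgroups of `V ⋊ H` with `V` abelian of order prime to `ℓ`. -/

namespace Pool.Agent.Lib_helper13

section SdpChains

variable {V H : Type*} [CommGroup V] [Fintype V] [Group H] [Fintype H] {φ : H →* MulAut V}

/-- Every `ℓ`-subgroup of `V ⋊ H` is conjugate to a subgroup of `H` under `V`. -/
theorem exists_conj_inr {ℓ : ℕ} [Fact ℓ.Prime] (hV : ¬ ℓ ∣ Nat.card V) (D : Subgroup (V ⋊[φ] H))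
    (hD : IsPGroup ℓ D) :
    ∃ u : V, ∀ y ∈ D, y = SemidirectProduct.inl u * SemidirectProduct.inr y.right *
      (SemidirectProduct.inl u)⁻¹ := by
  classical
  have hDf : Fintype D := Fintype.ofFinite _
  obtain ⟨k, hk⟩ := hD.exists_card_eq
  have hcop : (Nat.card V).Coprime (Nat.card D) := by
    rw [hk]
    apply Nat.Coprime.pow_right
    exact ((Fact.out : ℓ.Prime).coprime_iff_not_dvd.mpr hV).symm
  set w : V := ∏ x : D, x.1.left with hw
  obtain ⟨u, hu⟩ := (powCoprime hcop).surjective w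
  have hu' : u ^ Nat.card D = w := hu
  refine ⟨u, fun y hy => ?_⟩
  have h1 : y.left ^ Nat.card D * φ y.right w = w := by
    have h2 : ∏ x : D, ((⟨y, hy⟩ * x : D) : V ⋊[φ] H).left = w :=
      Fintype.prod_equiv (Equiv.mulLeft (⟨y, hy⟩ : D)) _ _ (fun x => rfl)
    have h3 : ∀ x : D, ((⟨y, hy⟩ * x : D) : V ⋊[φ] H).left = y.left * φ y.right x.1.left :=
      fun x => rfl
    simp only [h3] at h2
    rw [Finset.prod_mul_distrib, Finset.prod_const, Finset.card_univ,
      ← Nat.card_eq_fintype_card, ← map_prod] at h2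
    exact h2
  have h4 : y.left * φ y.right u = u := by
    apply (powCoprime hcop).injective
    change (y.left * φ y.right u) ^ Nat.card D = u ^ Nat.card D
    rw [mul_pow, ← map_pow, hu', h1]
  ext
  · simp only [SemidirectProduct.mul_left, SemidirectProduct.left_inl,
      SemidirectProduct.right_inl, SemidirectProduct.left_inr, map_one, mul_one,
      SemidirectProduct.mul_right, SemidirectProduct.right_inr, one_mul,
      SemidirectProduct.inv_left, inv_one, map_inv, MulAut.one_apply]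
    rw [eq_mul_inv_iff_mul_eq]
    exact h4
  · simp

/-- The elements of `V` fixed by all members of a set of subgroups of `H`. -/
def fixV (φ : H →* MulAut V) (τ : Finset (Subgroup H)) : Subgroup V where
  carrier := {v | ∀ D ∈ τ, ∀ d ∈ D, φ d v = v}
  one_mem' := by
    intro D _ d _
    exact map_one _
  mul_mem' := by
    intro a b ha hb D hD d hd
    rw [map_mul, ha D hD d hd, hb D hD d hd]
  inv_mem' := by
    intro a ha D hD d hd
    rw [map_inv, ha D hD d hd]

theorem mem_fixV {τ : Finset (Subgroup H)} {v : V} :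
    v ∈ fixV φ τ ↔ ∀ D ∈ τ, ∀ d ∈ D, φ d v = v := Iff.rfl

/-- The embedding of `H` into `V ⋊ H` twisted by conjugation with `v`. -/
def emb (φ : H →* MulAut V) (v : V) : H →* V ⋊[φ] H :=
  (MulAut.conj (SemidirectProduct.inl v : V ⋊[φ] H)).toMonoidHom.comp SemidirectProduct.inr

theorem emb_apply (v : V) (h : H) : emb φ v h = ⟨v * (φ h v)⁻¹, h⟩ := by
  change SemidirectProduct.inl v * SemidirectProduct.inr h * (SemidirectProduct.inl v)⁻¹ = _
  ext <;> simp

theorem emb_injective (v : V) : Function.Injective (emb φ v) := by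
  intro a b h
  rw [emb_apply, emb_apply] at h
  exact congrArg SemidirectProduct.right h

theorem rightHom_comp_emb (v : V) :
    (SemidirectProduct.rightHom : V ⋊[φ] H →* H).comp (emb φ v) = MonoidHom.id H := by
  ext h
  rw [MonoidHom.comp_apply, emb_apply]
  rfl

theorem emb_mapZ {Z : Subgroup H} (hZ : ∀ z ∈ Z, ∀ v, φ z v = v) (v : V) :
    Z.map (emb φ v) = Z.map SemidirectProduct.inr := by
  apply SetLike.ext'
  rw [Subgroup.coe_map, Subgroup.coe_map]
  apply Set.image_congr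
  intro z hz
  rw [emb_apply, hZ z hz]
  ext <;> simp

theorem mapCh_rightHom (v : V) (τ : Finset (Subgroup H)) :
    mapCh (SemidirectProduct.rightHom : V ⋊[φ] H →* H) (mapCh (emb φ v) τ) = τ := by
  rw [mapCh_comp, rightHom_comp_emb, mapCh_id]

theorem isCh_emb {ℓ : ℕ} {Z : Subgroup H} (hZ : ∀ z ∈ Z, ∀ v, φ z v = v) (v : V)
    (τ : Finset (Subgroup H)) :
    IsCh ℓ (Z.map (SemidirectProduct.inr : H →* V ⋊[φ] H)) (mapCh (emb φ v) τ) ↔ IsCh ℓ Z τ := by
  rw [← emb_mapZ hZ v, isCh_mapCh_iff (emb_injective v)]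

theorem exists_emb {ℓ : ℕ} [Fact ℓ.Prime] (hV : ¬ ℓ ∣ Nat.card V) {Z : Subgroup H}
    (hZ : ∀ z ∈ Z, ∀ v, φ z v = v) {σ : Finset (Subgroup (V ⋊[φ] H))}
    (hσ : IsCh ℓ (Z.map SemidirectProduct.inr) σ) :
    ∃ v τ, IsCh ℓ Z τ ∧ mapCh (emb φ v) τ = σ := by
  rcases σ.eq_empty_or_nonempty with rfl | hne
  · refine ⟨1, ∅, isCh_empty _ _, ?_⟩
    simp [mapCh]
  · obtain ⟨T, hT, hT'⟩ := hσ.exists_top hne
    obtain ⟨u, hu⟩ := exists_conj_inr hV T (hσ.1 T hT).1
    obtain ⟨τ, hτ⟩ := exists_mapCh (i := emb φ u) (σ := σ) (by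
      intro D hD y hy
      exact ⟨y.right, (hu y (hT' D hD hy)).symm⟩)
    refine ⟨u, τ, ?_, hτ⟩
    rw [← isCh_emb hZ u, hτ]
    exact hσ

theorem mapCh_emb_eq_iff (v v₀ : V) (τ : Finset (Subgroup H)) :
    mapCh (emb φ v) τ = mapCh (emb φ v₀) τ ↔ v₀⁻¹ * v ∈ fixV φ τ := by
  have hkey : ∀ d : H, emb φ v d = emb φ v₀ d ↔ φ d (v₀⁻¹ * v) = v₀⁻¹ * v := by
    intro d
    rw [emb_apply, emb_apply]
    rw [map_mul, map_inv]
    constructor
    · intro h'
      have h : v * (φ d v)⁻¹ = v₀ * (φ d v₀)⁻¹ := congrArg SemidirectProduct.left h'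
      rw [mul_inv_eq_iff_eq_mul] at h
      rw [eq_inv_mul_iff_mul_eq, ← mul_assoc]
      exact h.symm
    · intro h
      have h2 : v * (φ d v)⁻¹ = v₀ * (φ d v₀)⁻¹ := by
        rw [eq_inv_mul_iff_mul_eq, ← mul_assoc] at h
        rw [mul_inv_eq_iff_eq_mul]
        exact h.symm
      rw [h2]
  constructor
  · intro h D hD d hd
    rw [← hkey]
    have h1 : D.map (emb φ v) ∈ mapCh (emb φ v₀) τ := by
      rw [← h]
      exact mem_mapCh.mpr ⟨D, hD, rfl⟩
    obtain ⟨D', _, h2⟩ := mem_mapCh.mp h1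
    have h3 : emb φ v d ∈ D'.map (emb φ v₀) := by
      rw [h2]
      exact ⟨d, hd, rfl⟩
    obtain ⟨d', _, h4⟩ := h3
    have h5 : d' = d := by
      rw [emb_apply, emb_apply] at h4
      exact congrArg SemidirectProduct.right h4
    rw [← h4, h5]
  · intro h
    ext E
    rw [mem_mapCh, mem_mapCh]
    have h1 : ∀ D ∈ τ, D.map (emb φ v) = D.map (emb φ v₀) := by
      intro D hD
      apply SetLike.ext'
      rw [Subgroup.coe_map, Subgroup.coe_map]
      apply Set.image_congr
      intro d hd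
      exact (hkey d).mpr (h D hD d hd)
    constructor
    · rintro ⟨D, hD, rfl⟩
      exact ⟨D, hD, (h1 D hD).symm⟩
    · rintro ⟨D, hD, rfl⟩
      exact ⟨D, hD, h1 D hD⟩

theorem sum_Ch_sdp {ℓ : ℕ} [Fact ℓ.Prime] (hV : ¬ ℓ ∣ Nat.card V) {Z : Subgroup H}
    (hZ : ∀ z ∈ Z, ∀ v, φ z v = v) (F : Finset (Subgroup (V ⋊[φ] H)) → ℚ)
    (hF : ∀ v τ, F (mapCh (emb φ v) τ) = F (mapCh SemidirectProduct.inr τ)) :
    ∑ σ ∈ Ch ℓ (Z.map (SemidirectProduct.inr : H →* V ⋊[φ] H)), F σ =
      ∑ τ ∈ Ch ℓ Z, (Nat.card V : ℚ) / Nat.card (fixV φ τ) *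
        F (mapCh SemidirectProduct.inr τ) := by
  classical
  have hmaps : ∀ p ∈ (Finset.univ : Finset V) ×ˢ Ch ℓ Z, mapCh (emb φ p.1) p.2 ∈
      Ch ℓ (Z.map (SemidirectProduct.inr : H →* V ⋊[φ] H)) := by
    intro p hp
    rw [Finset.mem_product] at hp
    rw [mem_Ch, isCh_emb hZ]
    exact mem_Ch.mp hp.2
  have h1 := Finset.sum_fiberwise_of_maps_to hmaps
    (fun p => F (mapCh (emb φ p.1) p.2) / Nat.card (fixV φ p.2))
  have h2 : ∀ σ ∈ Ch ℓ (Z.map (SemidirectProduct.inr : H →* V ⋊[φ] H)),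
      ∑ p ∈ (Finset.univ : Finset V) ×ˢ Ch ℓ Z with mapCh (emb φ p.1) p.2 = σ,
        F (mapCh (emb φ p.1) p.2) / Nat.card (fixV φ p.2) = F σ := by
    intro σ hσ
    obtain ⟨v₀, τ₀, hτ₀, rfl⟩ := exists_emb hV hZ (mem_Ch.mp hσ)
    have h3 : ∀ p ∈ (((Finset.univ : Finset V) ×ˢ Ch ℓ Z).filter
        (fun p => mapCh (emb φ p.1) p.2 = mapCh (emb φ v₀) τ₀)),
        F (mapCh (emb φ p.1) p.2) / Nat.card (fixV φ p.2) =
          F (mapCh (emb φ v₀) τ₀) / Nat.card (fixV φ τ₀) := by
      intro p hp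
      have h4 := (Finset.mem_filter.mp hp).2
      have h5 : p.2 = τ₀ := by
        have := congrArg (mapCh (SemidirectProduct.rightHom : V ⋊[φ] H →* H)) h4
        rwa [mapCh_rightHom, mapCh_rightHom] at this
      rw [h4, h5]
    rw [Finset.sum_congr rfl h3, Finset.sum_const, nsmul_eq_mul]
    have h6 : ((((Finset.univ : Finset V) ×ˢ Ch ℓ Z).filter
        (fun p => mapCh (emb φ p.1) p.2 = mapCh (emb φ v₀) τ₀))).card =
          Nat.card (fixV φ τ₀) := by
      have hfin : Fintype (fixV φ τ₀) := Fintype.ofFinite _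
      rw [Nat.card_eq_fintype_card, ← Finset.card_univ]
      symm
      apply Finset.card_bij (fun (w : fixV φ τ₀) _ => ((v₀ * (w : V), τ₀) : V × _))
      · intro w _
        rw [Finset.mem_filter, Finset.mem_product]
        refine ⟨⟨Finset.mem_univ _, mem_Ch.mpr hτ₀⟩, ?_⟩
        rw [mapCh_emb_eq_iff, inv_mul_cancel_left]
        exact w.2
      · intro w _ w' _ h
        rw [Prod.mk.injEq] at h
        exact Subtype.ext (mul_left_cancel h.1)
      · rintro ⟨v, τ⟩ hp
        have h4 := (Finset.mem_filter.mp hp).2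
        have h5 : τ = τ₀ := by
          have := congrArg (mapCh (SemidirectProduct.rightHom : V ⋊[φ] H →* H)) h4
          rwa [mapCh_rightHom, mapCh_rightHom] at this
        subst h5
        rw [mapCh_emb_eq_iff] at h4
        exact ⟨⟨v₀⁻¹ * v, h4⟩, Finset.mem_univ _, by simp⟩
    rw [h6]
    have h7 : (Nat.card (fixV φ τ₀) : ℚ) ≠ 0 := by
      have : Nat.card (fixV φ τ₀) ≠ 0 := Nat.card_pos.ne'
      exact_mod_cast this
    field_simp
  rw [Finset.sum_congr rfl h2] at h1
  rw [h1, Finset.sum_product_right]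
  refine Finset.sum_congr rfl fun τ _ => ?_
  simp only [hF]
  rw [Finset.sum_const, Finset.card_univ, nsmul_eq_mul, Nat.card_eq_fintype_card (α := V)]
  ring

theorem mem_stb_inr {τ : Finset (Subgroup H)} {x : V ⋊[φ] H} :
    x ∈ stb (mapCh (SemidirectProduct.inr : H →* V ⋊[φ] H) τ) ↔
      x.right ∈ stb τ ∧ x.left ∈ fixV φ τ := by
  have hconj : ∀ d : H, x * SemidirectProduct.inr d * x⁻¹ =
      (⟨x.left * (φ (x.right * d * x.right⁻¹) x.left)⁻¹, x.right * d * x.right⁻¹⟩ :
        V ⋊[φ] H) := by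
    intro d
    ext
    · simp [map_mul, MulAut.mul_apply]
    · simp
  constructor
  · intro h
    rw [mem_stb'] at h
    have hA : ∀ D ∈ τ, ∀ d ∈ D, x.right * d * x.right⁻¹ ∈ D ∧
        φ (x.right * d * x.right⁻¹) x.left = x.left := by
      intro D hD d hd
      have h1 := (h (D.map SemidirectProduct.inr) (mem_mapCh.mpr ⟨D, hD, rfl⟩)
        (SemidirectProduct.inr d)).mp ⟨d, hd, rfl⟩
      rw [hconj] at h1
      obtain ⟨d', hd', h2⟩ := h1
      have h3 := congrArg SemidirectProduct.right h2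
      have h4 := congrArg SemidirectProduct.left h2
      simp only [SemidirectProduct.right_inr, SemidirectProduct.left_inr] at h3 h4
      rw [← h3]
      refine ⟨hd', ?_⟩
      rw [h3]
      exact (mul_inv_eq_one.mp h4.symm).symm
    have hB : ∀ D ∈ τ, ∀ d, x.right * d * x.right⁻¹ ∈ D → d ∈ D := by
      intro D hD d hd
      have h1 := (h (D.map SemidirectProduct.inr) (mem_mapCh.mpr ⟨D, hD, rfl⟩)
        (x⁻¹ * SemidirectProduct.inr (x.right * d * x.right⁻¹) * x)).mpr (by
          refine ⟨x.right * d * x.right⁻¹, hd, ?_⟩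
          group)
      obtain ⟨d', hd', h2⟩ := h1
      have h3 := congrArg SemidirectProduct.right h2
      have h4 : d' = d := by
        simp only [SemidirectProduct.right_inr, SemidirectProduct.mul_right,
          SemidirectProduct.inv_right] at h3
        rw [h3]
        group
      rw [← h4]
      exact hd'
    refine ⟨?_, ?_⟩
    · rw [mem_stb']
      intro D hD d
      exact ⟨fun hd => (hA D hD d hd).1, hB D hD d⟩
    · intro D hD d hd
      have h1 : x.right⁻¹ * d * x.right ∈ D := by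
        apply hB D hD
        have : x.right * (x.right⁻¹ * d * x.right) * x.right⁻¹ = d := by group
        rwa [this]
      have h2 := (hA D hD _ h1).2
      have : x.right * (x.right⁻¹ * d * x.right) * x.right⁻¹ = d := by group
      rwa [this] at h2
  · rintro ⟨h1, h2⟩
    rw [mem_stb] at h1 ⊢
    intro D' hD'
    obtain ⟨D, hD, rfl⟩ := mem_mapCh.mp hD'
    have h3 := h1 D hD
    apply SetLike.ext'
    rw [Subgroup.coe_map, Subgroup.coe_map]
    conv_rhs => rw [← h3, Subgroup.coe_map]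
    rw [Set.image_image, Set.image_image]
    apply Set.image_congr
    intro d hd
    change x * SemidirectProduct.inr d * x⁻¹ = SemidirectProduct.inr (x.right * d * x.right⁻¹)
    rw [hconj]
    have h4 : x.right * d * x.right⁻¹ ∈ D := by
      rw [← h3]
      exact ⟨d, hd, rfl⟩
    rw [h2 D hD _ h4, mul_inv_cancel]
    rfl

/-- Restriction of an action by automorphisms. -/
def resAct {V H : Type*} [Group V] [Group H] (φ : H →* MulAut V) (S : Subgroup H)
    (U : Subgroup V) (hU : ∀ s ∈ S, ∀ u ∈ U, φ s u ∈ U) : S →* MulAut U where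
  toFun s :=
    { toFun := fun u => ⟨φ s u, hU s s.2 u u.2⟩
      invFun := fun u => ⟨φ (s : H)⁻¹ u, hU _ (S.inv_mem s.2) u u.2⟩
      left_inv := fun u => Subtype.ext (by
        change φ (s : H)⁻¹ (φ s u) = u
        rw [← MulAut.mul_apply, ← map_mul, inv_mul_cancel, map_one, MulAut.one_apply])
      right_inv := fun u => Subtype.ext (by
        change φ s (φ (s : H)⁻¹ u) = u
        rw [← MulAut.mul_apply, ← map_mul, mul_inv_cancel, map_one, MulAut.one_apply])
      map_mul' := fun u v => Subtype.ext (by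
        change φ s (u * v : V) = φ s u * φ s v
        rw [map_mul]) }
  map_one' := by
    ext u
    change φ ((1 : S) : H) u = u
    rw [OneMemClass.coe_one, map_one, MulAut.one_apply]
  map_mul' := by
    intro a b
    ext u
    change φ ((a * b : S) : H) u = φ a (φ b u)
    rw [Subgroup.coe_mul, map_mul, MulAut.mul_apply]

theorem resAct_apply {V H : Type*} [Group V] [Group H] (φ : H →* MulAut V) (S : Subgroup H)
    (U : Subgroup V) (hU : ∀ s ∈ S, ∀ u ∈ U, φ s u ∈ U) (s : S) (u : U) :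
    ((resAct φ S U hU s u : U) : V) = φ s u := rfl

theorem stb_fixV (τ : Finset (Subgroup H)) : ∀ s ∈ stb τ, ∀ u ∈ fixV φ τ, φ s u ∈ fixV φ τ := by
  intro s hs u hu D hD d hd
  have h1 : s⁻¹ * d * s ∈ D := by
    have := (mem_stb'.mp hs D hD (s⁻¹ * d * s)).mpr (by
      have : s * (s⁻¹ * d * s) * s⁻¹ = d := by group
      rwa [this])
    exact this
  have h2 := hu D hD _ h1
  have h3 : φ d (φ s u) = φ s (φ (s⁻¹ * d * s) u) := by
    rw [← MulAut.mul_apply, ← MulAut.mul_apply, ← map_mul, ← map_mul]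
    have : s * (s⁻¹ * d * s) = d * s := by group
    rw [this]
  rw [h3, h2]

/-- The stabilizer of a chain of `H` in `V ⋊ H`. -/
def stbEquiv (φ : H →* MulAut V) (τ : Finset (Subgroup H)) :
    (fixV φ τ) ⋊[resAct φ (stb τ) (fixV φ τ) (stb_fixV τ)] (stb τ) ≃*
      stb (mapCh (SemidirectProduct.inr : H →* V ⋊[φ] H) τ) where
  toFun x := ⟨⟨x.left, x.right⟩, mem_stb_inr.mpr ⟨x.right.2, x.left.2⟩⟩
  invFun x := ⟨⟨x.1.left, (mem_stb_inr.mp x.2).2⟩, ⟨x.1.right, (mem_stb_inr.mp x.2).1⟩⟩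
  left_inv x := by
    ext <;> rfl
  right_inv x := by
    apply Subtype.ext
    ext <;> rfl
  map_mul' x y := by
    apply Subtype.ext
    ext <;> rfl

end SdpChains

end Pool.Agent.Lib_helper13
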