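import Mathlib
import Pool.Agent.Lib_helper13.Mult
import Pool.Agent.Lib_helper13.SdpChains
import Pool.Agent.Lib_helper13.Cen

set_option linter.unusedSectionVars false

/-! Passing from fixed points to the whole of `V` in the induced central functions. -/

namespace Pool.Agent.Lib_helper13

open Representation

section ChainInd

variable {H : Type*} [Group H] [Fintype H]
variable (𝔐 : Ideal (integralClosure ℤ ℂ)) [h𝔐 : 𝔐.IsPrime]
variable {S : Subgroup H} [Fintype S]

theorem multOn_chain {ℓ : ℕ} [Fact ℓ.Prime] (hℓ : (ℓ : integralClosure ℤ ℂ) ∈ 𝔐)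
    {ψ : S → ℂ} (hψ : IsIrr ψ) (L Z : Subgroup H) : ∀ (n : ℕ) (τ : Finset (Subgroup H)),
    τ.card = n → IsCh ℓ Z τ → (∀ D ∈ τ, D ≤ L) → S ≤ L ⊓ stb τ → MultOn 𝔐 ψ (L ⊓ stb τ) →
      MultOn 𝔐 ψ L := by
  classical
  intro n
  induction n with
  | zero =>
    intro τ hn _ _ _ hm
    rw [Finset.card_eq_zero] at hn
    subst hn
    rwa [stb_empty, inf_top_eq] at hm
  | succ n ih =>
    intro τ hn hτ hL hS hm
    have hne : τ.Nonempty := by
      rw [← Finset.card_pos]; omega
    obtain ⟨D₁, hD₁, hbot⟩ := hτ.exists_bot hne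
    have hle : L ⊓ stb τ ≤ L ⊓ stb (τ.erase D₁) := by
      apply inf_le_inf_left
      intro g hg
      rw [mem_stb'] at hg ⊢
      intro D hD
      exact hg D (Finset.mem_of_mem_erase hD)
    apply ih (τ.erase D₁)
    · rw [Finset.card_erase_of_mem hD₁, hn, Nat.add_sub_cancel]
    · exact hτ.subset (Finset.erase_subset _ _)
    · intro D hD
      exact hL D (Finset.mem_of_mem_erase hD)
    · exact hS.trans hle
    · apply multOn_step 𝔐 hℓ hψ hS hle hm D₁ _ (hτ.1 D₁ hD₁).1
      · intro g hg q hq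
        exact (mem_stb'.mp hg.2 D₁ hD₁ q).mp hq
      · intro y hy hyc
        refine ⟨hy.1, mem_stb'.mpr ?_⟩
        intro D hD
        by_cases h : D = D₁
        · subst h
          have hfix : ∀ q ∈ D, y * q * y⁻¹ = q := by
            intro q hq
            rw [← hyc q hq]
            group
          intro x
          constructor
          · intro hx
            rw [hfix x hx]
            exact hx
          · intro hx
            have h1 := hfix _ hx
            have h2 : y * x * y⁻¹ = x := by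
              have h3 : y * (y * x * y⁻¹) * y⁻¹ = y * x * y⁻¹ := h1
              exact mul_left_cancel (mul_right_cancel h3)
            rw [h2] at hx
            exact hx
        · exact mem_stb'.mp hy.2 D (Finset.mem_erase.mpr ⟨h, hD⟩)
      · intro x hx
        refine ⟨hL D₁ hD₁ hx, mem_stb'.mpr ?_⟩
        intro D hD z
        have hxD : x ∈ D := hbot D hD hx
        constructor
        · intro hz
          exact mul_mem (mul_mem hxD hz) (inv_mem hxD)
        · intro hz
          have h4 : z = x⁻¹ * (x * z * x⁻¹) * x := by group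
          rw [h4]
          exact mul_mem (mul_mem (inv_mem hxD) hz) hxD

end ChainInd

theorem isIntegral_linChar {V : Type*} [CommGroup V] [Finite V] (lam : V →* ℂˣ) (v : V) :
    IsIntegral ℤ ((lam v : ℂˣ) : ℂ) := by
  apply IsIntegral.of_pow (n := Nat.card V) Nat.card_pos
  rw [← Units.val_pow_eq_pow_val, ← map_pow, pow_card_eq_one', map_one, Units.val_one]
  exact isIntegral_one

section ClaimC

variable {V H : Type*} [CommGroup V] [Fintype V] [Group H] [Fintype H] {φ : H →* MulAut V}
variable (𝔐 : Ideal (integralClosure ℤ ℂ)) [h𝔐 : 𝔐.IsPrime]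

theorem claimC {ℓ : ℕ} [Fact ℓ.Prime] (hℓ : (ℓ : integralClosure ℤ ℂ) ∈ 𝔐) (lam : V →* ℂˣ)
    {Z : Subgroup H} {τ : Finset (Subgroup H)} (hτ : IsCh ℓ Z τ)
    (hlam : ∀ D ∈ τ, D ≤ stab φ lam) [Fintype (stb τ ⊓ stab φ lam : Subgroup H)]
    [Fintype (fixV φ τ)]
    {ψ : (stb τ ⊓ stab φ lam : Subgroup H) → ℂ} (hψ : IsIrr ψ) (f : V ⋊[φ] H → ℂ)
    (hf : ∀ g x, f (g * x * g⁻¹) = f x) (hi : ∀ x, IsIntegral ℤ (f x)) :
    red 𝔐 (wt ψ (fun k => ∑ a : fixV φ τ, f ⟨(a : V), (k : H)⟩ * ((lam (a : V) : ℂˣ) : ℂ))) =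
      red 𝔐 (wt ψ (fun k => ∑ v : V, f ⟨v, (k : H)⟩ * ((lam v : ℂˣ) : ℂ))) := by
  classical
  rcases τ.eq_empty_or_nonempty with rfl | hne
  · congr 2
    ext k
    refine Fintype.sum_bijective (fun a : fixV φ ∅ => (a : V)) ⟨Subtype.val_injective, ?_⟩ _ _
      (fun a => rfl)
    intro v
    refine ⟨⟨v, ?_⟩, rfl⟩
    intro D hD
    simp at hD
  obtain ⟨T, hT, hT'⟩ := hτ.exists_top hne
  have hTp : IsPGroup ℓ T := (hτ.1 T hT).1
  have hTlam : T ≤ stab φ lam := hlam T hT
  have hTY : T ≤ stab φ lam ⊓ Subgroup.normalizer (T : Set H) :=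
    le_inf hTlam Subgroup.le_normalizer
  -- the group on which the averaging argument takes place
  have hY : (stab φ lam ⊓ Subgroup.normalizer (T : Set H)) ⊓ stb τ = stb τ ⊓ stab φ lam := by
    apply le_antisymm
    · intro x hx
      exact ⟨hx.2, hx.1.1⟩
    · intro x hx
      refine ⟨⟨hx.2, ?_⟩, hx.1⟩
      have := mem_stb'.mp hx.1 T hT
      exact Subgroup.mem_normalizer_iff.mpr this
  have hm : MultOn 𝔐 ψ (stab φ lam ⊓ Subgroup.normalizer (T : Set H)) := by
    apply multOn_chain 𝔐 hℓ hψ _ Z τ.card τ rfl hτ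
    · intro D hD
      exact (hT' D hD).trans hTY
    · rw [hY]
    · rw [hY]
      exact multOn_self 𝔐 hψ
  have hS : (stb τ ⊓ stab φ lam : Subgroup H) ≤
      stab φ lam ⊓ Subgroup.normalizer (T : Set H) := by
    rw [← hY]
    exact inf_le_left
  have hfix : ∀ v, v ∈ fixV φ τ ↔ ∀ t ∈ T, φ t v = v := by
    intro v
    constructor
    · intro h t ht
      exact h T hT t ht
    · intro h D hD d hd
      exact h d (hT' D hD hd)
  have hconj : ∀ h ∈ stab φ lam, ∀ x v, f ⟨φ h v, h * x * h⁻¹⟩ * ((lam (φ h v) : ℂˣ) : ℂ) =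
      f ⟨v, x⟩ * ((lam v : ℂˣ) : ℂ) := by
    intro h hh x v
    rw [← conj_inr, hf, hh v]
  refine red_wt_eq' 𝔐 hℓ hψ hS hm T hTY hTp ?_
    (fun k => ∑ a : fixV φ τ, f ⟨(a : V), k⟩ * ((lam (a : V) : ℂˣ) : ℂ))
    (fun k => ∑ v : V, f ⟨v, k⟩ * ((lam v : ℂˣ) : ℂ)) ?_ ?_ ?_ ?_ ?_
  · intro g hg q hq
    exact (Subgroup.mem_normalizer_iff.mp hg.2 q).mp hq
  · intro h hh x _
    have hpres : ∀ h ∈ stab φ lam ⊓ Subgroup.normalizer (T : Set H), ∀ v ∈ fixV φ τ,
        φ h v ∈ fixV φ τ := by
      intro h hh v hv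
      rw [hfix] at hv ⊢
      intro t ht
      have h1 : h⁻¹ * t * h ∈ T := by
        have := (Subgroup.mem_normalizer_iff.mp (inv_mem hh.2) t).mp ht
        simpa using this
      have h3 : φ t (φ h v) = φ h (φ (h⁻¹ * t * h) v) := by
        rw [← MulAut.mul_apply, ← MulAut.mul_apply, ← map_mul, ← map_mul]
        have : h * (h⁻¹ * t * h) = t * h := by group
        rw [this]
      rw [h3, hv _ h1]
    symm
    refine Fintype.sum_bijective (fun a : fixV φ τ => (⟨φ h a, hpres h hh a a.2⟩ : fixV φ τ))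
      ⟨?_, ?_⟩ _ _ ?_
    · intro a b hab
      apply Subtype.ext
      exact (φ h).injective (congrArg Subtype.val hab)
    · intro a
      refine ⟨⟨φ h⁻¹ a, hpres h⁻¹ (inv_mem hh) a a.2⟩, ?_⟩
      apply Subtype.ext
      change φ h (φ h⁻¹ a) = a
      rw [← MulAut.mul_apply, ← map_mul, mul_inv_cancel, map_one, MulAut.one_apply]
    · intro a
      exact (hconj h hh.1 x a).symm
  · intro y _
    exact isIntegral_sum _ _ fun a _ => (hi _).mul (isIntegral_linChar lam _)
  · intro h hh x _
    symm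
    refine Fintype.sum_equiv (φ h).toEquiv _ _ ?_
    intro v
    exact (hconj h hh.1 x v).symm
  · intro y _
    exact isIntegral_sum _ _ fun a _ => (hi _).mul (isIntegral_linChar lam _)
  · intro y _ hyc
    rw [red_sum, red_sum]
    · let _ : MulAction T V :=
        { smul := fun t v => φ t v
          one_smul := fun v => by
            change φ ((1 : T) : H) v = v
            rw [OneMemClass.coe_one, map_one, MulAut.one_apply]
          mul_smul := fun a b v => by
            change φ ((a * b : T) : H) v = φ a (φ b v)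
            rw [Subgroup.coe_mul, map_mul, MulAut.mul_apply] }
      rw [sum_eq_sum_fixed hTp (nsmul_quot_eq_zero 𝔐 hℓ)
        (fun v : V => red 𝔐 (f ⟨v, y⟩ * ((lam v : ℂˣ) : ℂ)))]
      · rw [← Finset.sum_subtype_eq_sum_filter, Finset.subtype_univ]
        refine Fintype.sum_equiv (Equiv.subtypeEquivRight ?_) _ _ ?_
        · intro v
          rw [hfix]
          constructor
          · intro h q
            exact h q q.2
          · intro h t ht
            exact h ⟨t, ht⟩
        · intro a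
          rfl
      · intro t v
        change red 𝔐 (f ⟨φ t v, y⟩ * ((lam (φ t v) : ℂˣ) : ℂ)) = _
        congr 1
        have h1 : (t : H) * y * (t : H)⁻¹ = y := by
          rw [hyc t t.2]
          group
        have h2 := hconj t (hTlam t.2) y v
        rw [h1] at h2
        exact h2
    · intro v _
      exact (hi _).mul (isIntegral_linChar lam _)
    · intro v _
      exact (hi _).mul (isIntegral_linChar lam _)

end ClaimC

end Pool.Agent.Lib_helper13
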