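import Mathlib
import Pool.Agent.Lib_helper13.SdpChains
import Pool.Agent.Lib_helper13.LittleCount

set_option linter.unusedSectionVars false

/-! Invariant linear characters of `V` are the linear characters of the fixed points. -/

namespace Pool.Agent.Lib_helper13

section DualFix

variable {V H : Type*} [CommGroup V] [Fintype V] [Group H] [Fintype H] {φ : H →* MulAut V}

theorem IsCh.exists_join {ℓ : ℕ} {Z : Subgroup H} {τ : Finset (Subgroup H)} (h : IsCh ℓ Z τ) :
    ∃ T : Subgroup H, IsPGroup ℓ T ∧ ∀ S : Subgroup H, (∀ D ∈ τ, D ≤ S) ↔ T ≤ S := by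
  rcases τ.eq_empty_or_nonempty with rfl | hne
  · refine ⟨⊥, IsPGroup.of_bot, fun S => ?_⟩
    simp
  · obtain ⟨T, hT, hT'⟩ := h.exists_top hne
    exact ⟨T, (h.1 T hT).1, fun S => ⟨fun h1 => h1 T hT, fun h1 D hD => (hT' D hD).trans h1⟩⟩

/-- The stabilizer of a point. -/
def ptStab (φ : H →* MulAut V) (v : V) : Subgroup H where
  carrier := {h | φ h v = v}
  one_mem' := by simp
  mul_mem' := by
    intro a b ha hb
    simp only [Set.mem_ofPred_eq] at ha hb ⊢
    rw [map_mul, MulAut.mul_apply, hb, ha]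
  inv_mem' := by
    intro a ha
    simp only [Set.mem_ofPred_eq] at ha ⊢
    conv_lhs => rw [← ha]
    rw [← MulAut.mul_apply, ← map_mul, inv_mul_cancel, map_one, MulAut.one_apply]

theorem mem_fixV_iff {τ : Finset (Subgroup H)} {T : Subgroup H}
    (hT : ∀ S : Subgroup H, (∀ D ∈ τ, D ≤ S) ↔ T ≤ S) (v : V) :
    v ∈ fixV φ τ ↔ ∀ t ∈ T, φ t v = v := hT (ptStab φ v)

/-- The norm map of an `ℓ`-subgroup acting on `V`. -/
noncomputable def normT (φ : H →* MulAut V) (T : Subgroup H) [Fintype T] : V →* V :=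
  ∏ t : T, (φ t).toMonoidHom

theorem normT_apply (T : Subgroup H) [Fintype T] (v : V) :
    normT φ T v = ∏ t : T, φ t v := by
  rw [normT, MonoidHom.finsetProd_apply]
  rfl

theorem normT_fixed (T : Subgroup H) [Fintype T] (v : V) (s : H) (hs : s ∈ T) :
    φ s (normT φ T v) = normT φ T v := by
  rw [normT_apply, map_prod]
  refine Fintype.prod_equiv (Equiv.mulLeft (⟨s, hs⟩ : T)) _ _ ?_
  intro t
  change φ s (φ t v) = φ ((⟨s, hs⟩ * t : T) : H) v
  rw [← MulAut.mul_apply, ← map_mul]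
  rfl

theorem normT_of_fixed (T : Subgroup H) [Fintype T] (v : V) (hv : ∀ t ∈ T, φ t v = v) :
    normT φ T v = v ^ Nat.card T := by
  rw [normT_apply, Finset.prod_congr rfl (fun (t : T) _ => hv t t.2), Finset.prod_const,
    Finset.card_univ, Nat.card_eq_fintype_card]

theorem lin_normT (T : Subgroup H) [Fintype T] (lam : V →* ℂˣ) (hT : T ≤ stab φ lam) (v : V) :
    lam (normT φ T v) = lam v ^ Nat.card T := by
  rw [normT_apply, map_prod, Finset.prod_congr rfl (fun (t : T) _ => hT t.2 v),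
    Finset.prod_const, Finset.card_univ, Nat.card_eq_fintype_card]

variable {ℓ : ℕ} [Fact ℓ.Prime]

theorem coprime_card (hV : ¬ ℓ ∣ Nat.card V) {T : Subgroup H} (hT : IsPGroup ℓ T) :
    (Nat.card V).Coprime (Nat.card T) := by
  obtain ⟨k, hk⟩ := hT.exists_card_eq
  rw [hk]
  apply Nat.Coprime.pow_right
  exact ((Fact.out : ℓ.Prime).coprime_iff_not_dvd.mpr hV).symm

/-- An invariant character is determined by its restriction to the fixed points. -/
theorem lin_ext_fixV (hV : ¬ ℓ ∣ Nat.card V) {Z : Subgroup H} {τ : Finset (Subgroup H)}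
    (hτ : IsCh ℓ Z τ) {lam lam' : V →* ℂˣ} (h : ∀ D ∈ τ, D ≤ stab φ lam)
    (h' : ∀ D ∈ τ, D ≤ stab φ lam') (heq : ∀ v ∈ fixV φ τ, lam v = lam' v) : lam = lam' := by
  obtain ⟨T, hTp, hT⟩ := hτ.exists_join
  have : Fintype T := Fintype.ofFinite _
  have hc := coprime_card hV hTp
  ext v
  congr 1
  have h1 : (v ^ Nat.card T) ^ (Nat.card V).gcdB (Nat.card T) = v := (powCoprime hc).left_inv v
  have h2 : lam (normT φ T v) = lam' (normT φ T v) :=
    heq _ ((mem_fixV_iff hT _).mpr fun t ht => normT_fixed T v t ht)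
  rw [lin_normT T lam ((hT _).mp h), lin_normT T lam' ((hT _).mp h')] at h2
  rw [← h1, map_zpow, map_pow, map_zpow, map_pow, h2]

theorem exists_lin_ext_fixV (hV : ¬ ℓ ∣ Nat.card V) {Z : Subgroup H} {τ : Finset (Subgroup H)}
    (hτ : IsCh ℓ Z τ) (μ : fixV φ τ →* ℂˣ) :
    ∃ lam : V →* ℂˣ, (∀ D ∈ τ, D ≤ stab φ lam) ∧ lam.comp (fixV φ τ).subtype = μ := by
  obtain ⟨T, hTp, hT⟩ := hτ.exists_join
  have : Fintype T := Fintype.ofFinite _
  have hc := coprime_card hV hTp
  let N : V →* fixV φ τ := (normT φ T).codRestrict (fixV φ τ)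
    (fun v => (mem_fixV_iff hT _).mpr fun t ht => normT_fixed T v t ht)
  let m : ℤ := (Nat.card V).gcdB (Nat.card T)
  refine ⟨(zpowGroupHom m).comp (μ.comp N), ?_, ?_⟩
  · rw [hT]
    intro t ht v
    have h1 : N (φ t v) = N v := by
      apply Subtype.ext
      change normT φ T (φ t v) = normT φ T v
      rw [normT_apply, normT_apply]
      refine Fintype.prod_equiv (Equiv.mulRight (⟨t, ht⟩ : T)) _ _ ?_
      intro s
      change φ s (φ t v) = φ ((s * ⟨t, ht⟩ : T) : H) v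
      rw [← MulAut.mul_apply, ← map_mul]
      rfl
    change (μ (N (φ t v))) ^ m = (μ (N v)) ^ m
    rw [h1]
  · ext v
    congr 1
    change (μ (N (v : V))) ^ m = μ v
    have h1 : N (v : V) = v ^ Nat.card T := by
      apply Subtype.ext
      change normT φ T (v : V) = ((v ^ Nat.card T : fixV φ τ) : V)
      rw [normT_of_fixed T (v : V) ((mem_fixV_iff hT _).mp v.2)]
      rfl
    have h2 : (v ^ Nat.card T) ^ m = v := by
      apply Subtype.ext
      have := (powCoprime hc).left_inv (v : V)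
      exact this
    rw [h1, ← map_zpow, h2]

theorem sum_dual_fixV (hV : ¬ ℓ ∣ Nat.card V) {Z : Subgroup H} {τ : Finset (Subgroup H)}
    (hτ : IsCh ℓ Z τ) {M : Type*} [AddCommMonoid M] (F : (fixV φ τ →* ℂˣ) → M)
    [DecidablePred fun lam : V →* ℂˣ => ∀ D ∈ τ, D ≤ stab φ lam] :
    ∑ μ : fixV φ τ →* ℂˣ, F μ = ∑ lam : V →* ℂˣ with ∀ D ∈ τ, D ≤ stab φ lam,
      F (lam.comp (fixV φ τ).subtype) := by
  symm
  apply Finset.sum_bij (fun lam _ => lam.comp (fixV φ τ).subtype)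
  · intro lam _
    exact Finset.mem_univ _
  · intro lam hlam lam' hlam' h
    apply lin_ext_fixV hV hτ (Finset.mem_filter.mp hlam).2 (Finset.mem_filter.mp hlam').2
    intro v hv
    exact congrArg (fun f : fixV φ τ →* ℂˣ => f ⟨v, hv⟩) h
  · intro μ _
    obtain ⟨lam, h1, h2⟩ := exists_lin_ext_fixV hV hτ μ
    exact ⟨lam, Finset.mem_filter.mpr ⟨Finset.mem_univ _, h1⟩, h2⟩
  · intro _ _
    rfl

theorem mem_stab_res (hV : ¬ ℓ ∣ Nat.card V) {Z : Subgroup H} {τ : Finset (Subgroup H)}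
    (hτ : IsCh ℓ Z τ) {lam : V →* ℂˣ} (h : ∀ D ∈ τ, D ≤ stab φ lam) (k : stb τ) :
    k ∈ stab (resAct φ (stb τ) (fixV φ τ) (stb_fixV τ)) (lam.comp (fixV φ τ).subtype) ↔
      (k : H) ∈ stab φ lam := by
  constructor
  · intro hk
    have h1 : lam.comp (φ (k : H)).toMonoidHom = lam := by
      apply lin_ext_fixV hV hτ _ h
      · intro v hv
        exact hk ⟨v, hv⟩
      · intro D hD d hd v
        change lam (φ (k : H) (φ d v)) = lam (φ (k : H) v)
        have h2 : (k : H) * d * (k : H)⁻¹ ∈ D := (mem_stb'.mp k.2 D hD d).mp hd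
        have h3 : φ (k : H) (φ d v) = φ ((k : H) * d * (k : H)⁻¹) (φ (k : H) v) := by
          rw [← MulAut.mul_apply, ← MulAut.mul_apply, ← map_mul, ← map_mul]
          have : (k : H) * d * (k : H)⁻¹ * k = k * d := by group
          rw [this]
        rw [h3]
        exact h D hD h2 _
    intro v
    exact congrArg (fun f : V →* ℂˣ => f v) h1
  · intro hk v
    exact hk v

/-- The inertia group in the chain stabilizer. -/
def stabEquiv (hV : ¬ ℓ ∣ Nat.card V) {Z : Subgroup H} {τ : Finset (Subgroup H)}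
    (hτ : IsCh ℓ Z τ) {lam : V →* ℂˣ} (h : ∀ D ∈ τ, D ≤ stab φ lam) :
    stab (resAct φ (stb τ) (fixV φ τ) (stb_fixV τ)) (lam.comp (fixV φ τ).subtype) ≃*
      (stb τ ⊓ stab φ lam : Subgroup H) where
  toFun k := ⟨((k : stb τ) : H), ⟨(k : stb τ).2, (mem_stab_res hV hτ h k.1).mp k.2⟩⟩
  invFun k := ⟨⟨(k : H), k.2.1⟩, (mem_stab_res hV hτ h ⟨(k : H), k.2.1⟩).mpr k.2.2⟩
  left_inv k := rfl
  right_inv k := rfl
  map_mul' a b := rfl

theorem stabEquiv_coe (hV : ¬ ℓ ∣ Nat.card V) {Z : Subgroup H} {τ : Finset (Subgroup H)}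
    (hτ : IsCh ℓ Z τ) {lam : V →* ℂˣ} (h : ∀ D ∈ τ, D ≤ stab φ lam)
    (k : stab (resAct φ (stb τ) (fixV φ τ) (stb_fixV τ)) (lam.comp (fixV φ τ).subtype)) :
    ((stabEquiv hV hτ h k : (stb τ ⊓ stab φ lam : Subgroup H)) : H) = ((k : stb τ) : H) := rfl

end DualFix

end Pool.Agent.Lib_helper13
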