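import Mathlib
import Pool.Agent.Lib_helper13.DualFix
import Pool.Agent.Lib_helper13.ClaimC

set_option linter.unusedSectionVars false

/-! The chain sum of `V ⋊ H` in terms of the stabilizers in `H` of characters of `V`. -/

namespace Pool.Agent.Lib_helper13

open Representation

noncomputable instance (priority := 2000) subFintype {G : Type*} [Group G] [Finite G]
    (S : Subgroup G) : Fintype S := Fintype.ofFinite S

section Counts

variable {Y Y' G : Type*} [Group Y] [Fintype Y] [Group Y'] [Fintype Y']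
variable (𝔐 : Ideal (integralClosure ℤ ℂ))

/-- Irreducible characters of defect `d` with prescribed reduced sums. -/
noncomputable def cntF (ℓ d : ℕ) (F : G → Y → ℂ) (ω : G → (integralClosure ℤ ℂ) ⧸ 𝔐) : ℕ :=
  Nat.card {ψ : Y → ℂ // IsIrr ψ ∧ (HasDefect ℓ ψ d ∧ ∀ g, red 𝔐 (wt ψ (F g)) = ω g)}

theorem cntF_equiv (ℓ d : ℕ) (e : Y ≃* Y') (F : G → Y → ℂ) (F' : G → Y' → ℂ)
    (h : ∀ g y, F g y = F' g (e y)) (ω : G → (integralClosure ℤ ℂ) ⧸ 𝔐) :
    cntF 𝔐 ℓ d F ω = cntF 𝔐 ℓ d F' ω := by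
  apply card_irr_equiv e
  intro ψ _
  rw [hasDefect_comp_equiv]
  have : ∀ g, F g = fun y => F' g (e y) := fun g => funext fun y => h g y
  simp only [this, wt_comp_equiv]

end Counts

section KK

variable {G : Type*} [Group G] [Fintype G]
variable (𝔐 : Ideal (integralClosure ℤ ℂ))

/-- The chain sum (weighted over all chains instead of over orbits). -/
noncomputable def KK (ℓ d : ℕ) (Z : Subgroup G) (ω : G → (integralClosure ℤ ℂ) ⧸ 𝔐) : ℚ :=
  ∑ σ ∈ Ch ℓ Z, (-1 : ℚ) ^ σ.card * (Nat.card (stb σ) * cnt 𝔐 ℓ d (stb σ).subtype ω)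

theorem card_map_conj (S : Subgroup G) (g : G) :
    Nat.card (S.map (MulAut.conj g).toMonoidHom) = Nat.card S :=
  (Nat.card_congr (S.equivMapOfInjective _ (MulAut.conj g).injective).toEquiv).symm

theorem cnt_map_conj (ℓ d : ℕ) (S : Subgroup G) (g : G)
    (ω : G → (integralClosure ℤ ℂ) ⧸ 𝔐) :
    cnt 𝔐 ℓ d (S.map (MulAut.conj g).toMonoidHom).subtype ω = cnt 𝔐 ℓ d S.subtype ω := by
  rw [← cnt_comp_equiv 𝔐 ℓ d (S.equivMapOfInjective _ (MulAut.conj g).injective)]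
  apply cnt_conj
  intro y
  apply IsConj.symm
  exact isConj_iff.mpr ⟨g, rfl⟩

end KK

section MainLemma

variable {V H : Type*} [CommGroup V] [Fintype V] [Group H] [Fintype H] {φ : H →* MulAut V}
variable (𝔐 : Ideal (integralClosure ℤ ℂ)) [h𝔐 : 𝔐.IsPrime]

/-- The function on `H` attached to a character of `V` and an element of `V ⋊ H`. -/
noncomputable def Fl (φ : H →* MulAut V) (lam : V →* ℂˣ) (g : V ⋊[φ] H) (k : H) : ℂ :=
  ∑ v : V, conjInd (⟨v, k⟩ : V ⋊[φ] H) g * ((lam v : ℂˣ) : ℂ)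

theorem cnt_little {ℓ : ℕ} [Fact ℓ.Prime] (hℓ : (ℓ : integralClosure ℤ ℂ) ∈ 𝔐) (d : ℕ)
    (hV : ¬ ℓ ∣ Nat.card V) {Z : Subgroup H} {τ : Finset (Subgroup H)} (hτ : IsCh ℓ Z τ)
    (ω : V ⋊[φ] H → (integralClosure ℤ ℂ) ⧸ 𝔐) {lam : V →* ℂˣ}
    (h : ∀ D ∈ τ, D ≤ stab φ lam) :
    Nat.card {ψ : stab (resAct φ (stb τ) (fixV φ τ) (stb_fixV τ))
        (lam.comp (fixV φ τ).subtype) → ℂ // IsIrr ψ ∧
          (HasDefect ℓ (indChar _ (lam.comp (fixV φ τ).subtype) ψ) d ∧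
            ∀ g, cen 𝔐 ((stb (mapCh (SemidirectProduct.inr : H →* V ⋊[φ] H) τ)).subtype.comp
              (stbEquiv φ τ).toMonoidHom) (indChar _ (lam.comp (fixV φ τ).subtype) ψ) g = ω g)} =
      cntF 𝔐 ℓ d (fun g (k : (stb τ ⊓ stab φ lam : Subgroup H)) => Fl φ lam g k) ω := by
  classical
  apply card_irr_equiv (stabEquiv hV hτ h)
  intro ψ hψ
  have hψ' : IsIrr (fun y => ψ (stabEquiv hV hτ h y)) := hψ.comp_mulEquiv (stabEquiv hV hτ h)
  have hA : ¬ ℓ ∣ Nat.card (fixV φ τ) :=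
    fun h1 => hV (h1.trans (Subgroup.card_subgroup_dvd_card _))
  rw [hasDefect_indChar _ hA hψ', hasDefect_comp_equiv]
  have hcen : ∀ g, cen 𝔐 ((stb (mapCh (SemidirectProduct.inr : H →* V ⋊[φ] H) τ)).subtype.comp
      (stbEquiv φ τ).toMonoidHom) (indChar _ (lam.comp (fixV φ τ).subtype)
        (fun y => ψ (stabEquiv hV hτ h y))) g =
      red 𝔐 (wt ψ (fun k : (stb τ ⊓ stab φ lam : Subgroup H) => Fl φ lam g k)) := by
    intro g
    rw [cen, wt_indChar]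
    · have h1 := claimC 𝔐 hℓ lam hτ h hψ (fun x : V ⋊[φ] H => conjInd x g)
        (fun a x => conjInd_conj a x g) (fun x => isIntegral_conjInd x g)
      refine Eq.trans ?_ h1
      rw [← wt_comp_equiv (stabEquiv hV hτ h) ψ]
      rfl
    · intro a x
      rw [map_mul, map_mul, map_inv, conjInd_conj]
  simp only [hcen]

theorem stb_emb (v : V) (τ : Finset (Subgroup H)) :
    stb (mapCh (emb φ v) τ) = (stb (mapCh (SemidirectProduct.inr : H →* V ⋊[φ] H) τ)).map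
      (MulAut.conj (SemidirectProduct.inl v : V ⋊[φ] H)).toMonoidHom := by
  rw [← stb_mapCh_equiv, mapCh_comp]
  rfl

/-- The contribution of one chain. -/
noncomputable def term (ℓ d : ℕ) (φ : H →* MulAut V)
    (ω : V ⋊[φ] H → (integralClosure ℤ ℂ) ⧸ 𝔐) (τ : Finset (Subgroup H)) (lam : V →* ℂˣ) : ℚ :=
  (Nat.card (stb τ ⊓ stab φ lam : Subgroup H) : ℚ) *
    cntF 𝔐 ℓ d (fun g (k : (stb τ ⊓ stab φ lam : Subgroup H)) => Fl φ lam g k) ω

theorem KK_sdp_aux {ℓ : ℕ} [Fact ℓ.Prime] (hℓ : (ℓ : integralClosure ℤ ℂ) ∈ 𝔐) (d : ℕ)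
    (hV : ¬ ℓ ∣ Nat.card V) {Z : Subgroup H}
    (ω : V ⋊[φ] H → (integralClosure ℤ ℂ) ⧸ 𝔐) {τ : Finset (Subgroup H)} (hτ : IsCh ℓ Z τ)
    [DecidablePred fun lam : V →* ℂˣ => ∀ D ∈ τ, D ≤ stab φ lam] :
    (Nat.card V : ℚ) / Nat.card (fixV φ τ) * ((-1) ^ τ.card *
      (Nat.card (stb (mapCh (SemidirectProduct.inr : H →* V ⋊[φ] H) τ)) *
        cnt 𝔐 ℓ d (stb (mapCh (SemidirectProduct.inr : H →* V ⋊[φ] H) τ)).subtype ω)) =
    Nat.card V * ∑ lam : V →* ℂˣ with ∀ D ∈ τ, D ≤ stab φ lam,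
      (-1) ^ τ.card * term 𝔐 ℓ d φ ω τ lam := by
  have h1 : Nat.card (stb (mapCh (SemidirectProduct.inr : H →* V ⋊[φ] H) τ)) =
      Nat.card (fixV φ τ) * Nat.card (stb τ) := by
    rw [← Nat.card_congr (stbEquiv φ τ).toEquiv, natCard_sdp]
  have h2 : cnt 𝔐 ℓ d (stb (mapCh (SemidirectProduct.inr : H →* V ⋊[φ] H) τ)).subtype ω *
      Nat.card (stb τ) = ∑ lam : V →* ℂˣ with ∀ D ∈ τ, D ≤ stab φ lam,
        (Nat.card (stb τ ⊓ stab φ lam : Subgroup H)) *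
          cntF 𝔐 ℓ d (fun g (k : (stb τ ⊓ stab φ lam : Subgroup H)) => Fl φ lam g k) ω := by
    rw [← cnt_comp_equiv 𝔐 ℓ d (stbEquiv φ τ), cnt, card_irr_sdp, sum_dual_fixV hV hτ]
    refine Finset.sum_congr rfl fun lam hlam => ?_
    have h := (Finset.mem_filter.mp hlam).2
    rw [cnt_little 𝔐 hℓ d hV hτ ω h, Nat.card_congr (stabEquiv hV hτ h).toEquiv]
  have h3 : (cnt 𝔐 ℓ d (stb (mapCh (SemidirectProduct.inr : H →* V ⋊[φ] H) τ)).subtype ω : ℚ) *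
      Nat.card (stb τ) = ∑ lam : V →* ℂˣ with ∀ D ∈ τ, D ≤ stab φ lam,
        term 𝔐 ℓ d φ ω τ lam := by
    simp only [term]
    exact_mod_cast h2
  rw [← Finset.mul_sum, ← h3, h1]
  have h4 : (Nat.card (fixV φ τ) : ℚ) ≠ 0 := by
    have : Nat.card (fixV φ τ) ≠ 0 := Nat.card_pos.ne'
    exact_mod_cast this
  push_cast
  field_simp

theorem term_mapCh (ℓ d : ℕ) (ω : V ⋊[φ] H → (integralClosure ℤ ℂ) ⧸ 𝔐) (lam : V →* ℂˣ)
    (τ : Finset (Subgroup (stab φ lam))) :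
    term 𝔐 ℓ d φ ω (mapCh (stab φ lam).subtype τ) lam =
      Nat.card (stb τ) * cntF 𝔐 ℓ d (fun g (k : stb τ) => Fl φ lam g ((k : stab φ lam) : H)) ω := by
  have h1 : (stb τ).map (stab φ lam).subtype =
      stb (mapCh (stab φ lam).subtype τ) ⊓ stab φ lam := by
    rw [← comap_stb_mapCh (i := (stab φ lam).subtype) Subtype.val_injective τ]
    exact Subgroup.subgroupOf_map_subtype _ _
  let e : stb τ ≃* (stb (mapCh (stab φ lam).subtype τ) ⊓ stab φ lam : Subgroup H) :=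
    ((stb τ).equivMapOfInjective (stab φ lam).subtype Subtype.val_injective).trans
      (MulEquiv.subgroupCongr h1)
  rw [term, Nat.card_congr e.toEquiv]
  congr 2
  symm
  apply cntF_equiv 𝔐 ℓ d e
  intro g y
  rfl

/-- The chain sum for `V ⋊ H`. -/
theorem KK_sdp {ℓ : ℕ} [Fact ℓ.Prime] (hℓ : (ℓ : integralClosure ℤ ℂ) ∈ 𝔐) (d : ℕ)
    (hV : ¬ ℓ ∣ Nat.card V) {Z : Subgroup H} (hZ : ∀ z ∈ Z, ∀ v, φ z v = v)
    (ω : V ⋊[φ] H → (integralClosure ℤ ℂ) ⧸ 𝔐) :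
    KK 𝔐 ℓ d (Z.map (SemidirectProduct.inr : H →* V ⋊[φ] H)) ω =
      (Nat.card V : ℚ) * ∑ lam : V →* ℂˣ, ∑ τ ∈ Ch ℓ (Z.subgroupOf (stab φ lam)),
        (-1 : ℚ) ^ τ.card * (Nat.card (stb τ) *
          cntF 𝔐 ℓ d (fun g (k : stb τ) => Fl φ lam g ((k : stab φ lam) : H)) ω) := by
  classical
  rw [KK, sum_Ch_sdp hV hZ]
  · have h1 : ∀ τ ∈ Ch ℓ Z, (Nat.card V : ℚ) / Nat.card (fixV φ τ) *
        ((-1) ^ (mapCh (SemidirectProduct.inr : H →* V ⋊[φ] H) τ).card *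
        (Nat.card (stb (mapCh (SemidirectProduct.inr : H →* V ⋊[φ] H) τ)) *
        cnt 𝔐 ℓ d (stb (mapCh (SemidirectProduct.inr : H →* V ⋊[φ] H) τ)).subtype ω)) =
        Nat.card V * ∑ lam : V →* ℂˣ with ∀ D ∈ τ, D ≤ stab φ lam,
          (-1) ^ τ.card * term 𝔐 ℓ d φ ω τ lam := by
      intro τ hτ
      rw [card_mapCh SemidirectProduct.inr_injective]
      exact KK_sdp_aux 𝔐 hℓ d hV ω (mem_Ch.mp hτ)
    rw [Finset.sum_congr rfl h1, ← Finset.mul_sum]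
    congr 1
    simp only [Finset.sum_filter]
    rw [Finset.sum_comm]
    refine Finset.sum_congr rfl fun lam _ => ?_
    rw [← Finset.sum_filter]
    have hZle : Z ≤ stab φ lam := by
      intro z hz v
      rw [hZ z hz]
    have h2 : (Z.subgroupOf (stab φ lam)).map (stab φ lam).subtype = Z := by
      rw [Subgroup.subgroupOf_map_subtype, inf_eq_left.mpr hZle]
    have h3 := sum_Ch_range (i := (stab φ lam).subtype) Subtype.val_injective ℓ
      (Z.subgroupOf (stab φ lam)) (fun τ => (-1) ^ τ.card * term 𝔐 ℓ d φ ω τ lam)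
    rw [h2, Subgroup.range_subtype] at h3
    rw [h3]
    refine Finset.sum_congr rfl fun τ _ => ?_
    rw [term_mapCh, card_mapCh Subtype.val_injective]
  · intro v τ
    rw [card_mapCh (emb_injective v), card_mapCh SemidirectProduct.inr_injective, stb_emb,
      card_map_conj, cnt_map_conj]

end MainLemma

end Pool.Agent.Lib_helper13
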