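import Mathlib
import Pool.Agent.Lib_helper13.MainLemma

set_option linter.unusedSectionVars false

/-! Groups for which the chain sums of positive defect vanish, and their behaviour under
semidirect products with abelian `ℓ'`-groups. -/

namespace Pool.Agent.Lib_helper13

open Representation

theorem conjInd_eq {G : Type*} [Group G] {x g : G} {P : Prop} [Decidable P]
    (h : P ↔ IsConj x g) : (if P then (1 : ℂ) else 0) = conjInd x g := by
  classical
  by_cases hP : P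
  · rw [if_pos hP, conjInd, if_pos (h.mp hP)]
  · rw [if_neg hP, conjInd, if_neg (fun h' => hP (h.mpr h'))]

section Pair

variable {Y L G : Type*} [Group Y] [Fintype Y] [Group L] [Fintype L]
variable (𝔐 : Ideal (integralClosure ℤ ℂ))

/-- Pairing of an integral class function with a central function. -/
noncomputable def pair (f : L → ℂ) (c : L → (integralClosure ℤ ℂ) ⧸ 𝔐) :
    (integralClosure ℤ ℂ) ⧸ 𝔐 :=
  ∑ᶠ C : ConjClasses L, red 𝔐 (f C.out) * c C.out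

theorem red_wt_eq_pair (i : Y →* L) {ψ : Y → ℂ} (hψ : IsIrr ψ) (f : L → ℂ)
    (hf : ∀ g x, f (g * x * g⁻¹) = f x) (hi : ∀ x, IsIntegral ℤ (f x)) :
    red 𝔐 (wt ψ (fun y => f (i y))) = pair 𝔐 f (cen 𝔐 i ψ) := by
  classical
  obtain ⟨F, hF⟩ := exists_lift_class f hf
  have h1 : (fun y => f (i y)) = fun y => F (ConjClasses.mk (i y)) := by ext y; rw [hF]
  have hind : ∀ C : ConjClasses L, (fun y : Y => if ConjClasses.mk (i y) = C then (1 : ℂ) else 0) =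
      fun y => conjInd (i y) C.out := by
    intro C
    ext y
    have h2 : ConjClasses.mk C.out = C := Quotient.out_eq C
    apply conjInd_eq
    conv_lhs => rw [← h2]
    rw [ConjClasses.mk_eq_mk_iff_isConj]
  have hint : ∀ x : L, IsIntegral ℤ (wt ψ (fun y => conjInd (i y) x)) := by
    intro x
    apply isIntegral_wt hψ
    · intro g y
      rw [map_mul, map_mul, map_inv, conjInd_conj]
    · intro y
      exact isIntegral_conjInd _ _
  rw [h1, wt_comp_classes, red_sum, pair, finsum_eq_sum_of_fintype]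
  · refine Finset.sum_congr rfl fun C _ => ?_
    rw [hind, red_mul, cen]
    · have h2 : ConjClasses.mk C.out = C := Quotient.out_eq C
      rw [← hF C.out, h2]
    · have h2 : ConjClasses.mk C.out = C := Quotient.out_eq C
      rw [← h2, hF]
      exact hi _
    · exact hint _
  · intro C _
    rw [hind]
    apply IsIntegral.mul _ (hint _)
    have h2 : ConjClasses.mk C.out = C := Quotient.out_eq C
    rw [← h2, hF]
    exact hi _

theorem finite_cen (i : Y →* L) :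
    {c : L → (integralClosure ℤ ℂ) ⧸ 𝔐 | ∃ ψ : Y → ℂ, IsIrr ψ ∧ cen 𝔐 i ψ = c}.Finite := by
  have h := (finite_isIrr (H := Y)).image (fun ψ => cen 𝔐 i ψ)
  refine h.subset ?_
  rintro c ⟨ψ, hψ, rfl⟩
  exact ⟨ψ, hψ, rfl⟩

theorem cntF_eq_sum (ℓ d : ℕ) (i : Y →* L) (F : G → L → ℂ)
    (hF : ∀ u g x, F u (g * x * g⁻¹) = F u x) (hi : ∀ u x, IsIntegral ℤ (F u x))
    (ω : G → (integralClosure ℤ ℂ) ⧸ 𝔐) (C : Finset (L → (integralClosure ℤ ℂ) ⧸ 𝔐))
    (hC : ∀ ψ : Y → ℂ, IsIrr ψ → cen 𝔐 i ψ ∈ C)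
    [DecidablePred fun c : L → (integralClosure ℤ ℂ) ⧸ 𝔐 => ∀ u, pair 𝔐 (F u) c = ω u] :
    cntF 𝔐 ℓ d (fun u y => F u (i y)) ω =
      ∑ c ∈ C with ∀ u, pair 𝔐 (F u) c = ω u, cnt 𝔐 ℓ d i c := by
  classical
  have hfin : ∀ Q : (Y → ℂ) → Prop, (Set.Finite {ψ : Y → ℂ | IsIrr ψ ∧ Q ψ}) :=
    fun Q => finite_isIrr.subset fun θ h => h.1
  have hcard : ∀ Q : (Y → ℂ) → Prop, Nat.card {ψ : Y → ℂ // IsIrr ψ ∧ Q ψ} =
      (hfin Q).toFinset.card := by
    intro Q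
    have : Nat.card {ψ : Y → ℂ // IsIrr ψ ∧ Q ψ} = Nat.card (hfin Q).toFinset :=
      Nat.card_congr (Equiv.subtypeEquivRight fun θ => by simp)
    rw [this, Nat.card_eq_fintype_card, Fintype.card_coe]
  have hcnt : ∀ c, cnt 𝔐 ℓ d i c = (hfin (fun ψ => HasDefect ℓ ψ d ∧
      ∀ g, cen 𝔐 i ψ g = c g)).toFinset.card := fun c => hcard _
  simp only [hcnt]
  rw [cntF, hcard]
  rw [Finset.card_eq_sum_card_fiberwise (f := fun ψ => cen 𝔐 i ψ)
    (t := C.filter (fun c => ∀ u, pair 𝔐 (F u) c = ω u))]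
  · refine Finset.sum_congr rfl fun c hc => ?_
    congr 1
    ext ψ
    simp only [Finset.mem_filter, Set.Finite.mem_toFinset, Set.mem_ofPred_eq]
    constructor
    · rintro ⟨⟨h1, h2, h3⟩, h4⟩
      exact ⟨h1, h2, fun g => congrFun h4 g⟩
    · rintro ⟨h1, h2, h3⟩
      have h4 : cen 𝔐 i ψ = c := funext h3
      refine ⟨⟨h1, h2, fun u => ?_⟩, h4⟩
      rw [red_wt_eq_pair 𝔐 i h1 (F u) (hF u) (hi u), h4]
      exact (Finset.mem_filter.mp hc).2 u
  · intro ψ hψ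
    simp only [Set.Finite.coe_toFinset, Set.mem_ofPred_eq] at hψ
    rw [Finset.mem_coe, Finset.mem_filter]
    refine ⟨hC ψ hψ.1, fun u => ?_⟩
    rw [← red_wt_eq_pair 𝔐 i hψ.1 (F u) (hF u) (hi u)]
    exact hψ.2.2 u

theorem exists_cen_set (ℓ : ℕ) (Z : Subgroup L) : ∃ C : Finset (L → (integralClosure ℤ ℂ) ⧸ 𝔐),
    ∀ τ ∈ Ch ℓ Z, ∀ ψ : stb τ → ℂ, IsIrr ψ → cen 𝔐 (stb τ).subtype ψ ∈ C := by
  have h : (⋃ τ ∈ Ch ℓ Z, {c : L → (integralClosure ℤ ℂ) ⧸ 𝔐 | ∃ ψ : stb τ → ℂ, IsIrr ψ ∧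
      cen 𝔐 (stb τ).subtype ψ = c}).Finite := by
    apply Set.Finite.biUnion (Finset.finite_toSet _)
    intro τ _
    exact finite_cen 𝔐 _
  refine ⟨h.toFinset, fun τ hτ ψ hψ => ?_⟩
  rw [Set.Finite.mem_toFinset, Set.mem_iUnion₂]
  exact ⟨τ, hτ, ψ, hψ, rfl⟩

theorem sum_cntF (ℓ : ℕ) (Z : Subgroup L) (F : G → L → ℂ)
    (hF : ∀ u g x, F u (g * x * g⁻¹) = F u x) (hi : ∀ u x, IsIntegral ℤ (F u x))
    (ω : G → (integralClosure ℤ ℂ) ⧸ 𝔐) : ∃ C : Finset (L → (integralClosure ℤ ℂ) ⧸ 𝔐),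
      (∀ c ∈ C, ∀ u, pair 𝔐 (F u) c = ω u) ∧
      (∀ d, ∑ τ ∈ Ch ℓ Z, (-1 : ℚ) ^ τ.card * (Nat.card (stb τ) *
          cntF 𝔐 ℓ d (fun u (k : stb τ) => F u (k : L)) ω) = ∑ c ∈ C, KK 𝔐 ℓ d Z c) ∧
      (∀ (c : L → (integralClosure ℤ ℂ) ⧸ 𝔐) τ, τ ∈ Ch ℓ Z → ∀ ψ : stb τ → ℂ, IsIrr ψ →
        cen 𝔐 (stb τ).subtype ψ = c → (∀ u, pair 𝔐 (F u) c = ω u) → c ∈ C) := by
  classical
  obtain ⟨C, hC⟩ := exists_cen_set 𝔐 ℓ Z
  refine ⟨C.filter (fun c => ∀ u, pair 𝔐 (F u) c = ω u), ?_, ?_, ?_⟩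
  · intro c hc
    exact (Finset.mem_filter.mp hc).2
  · intro d
    have h1 : ∀ τ ∈ Ch ℓ Z, (-1 : ℚ) ^ τ.card * (Nat.card (stb τ) *
          cntF 𝔐 ℓ d (fun u (k : stb τ) => F u (k : L)) ω) =
        ∑ c ∈ C with ∀ u, pair 𝔐 (F u) c = ω u,
          (-1 : ℚ) ^ τ.card * (Nat.card (stb τ) * cnt 𝔐 ℓ d (stb τ).subtype c) := by
      intro τ hτ
      have h2 := cntF_eq_sum 𝔐 ℓ d (stb τ).subtype F hF hi ω C (hC τ hτ)
      rw [← Finset.mul_sum, ← Finset.mul_sum]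
      congr 2
      have h3 : cntF 𝔐 ℓ d (fun u (k : stb τ) => F u (k : L)) ω =
        cntF 𝔐 ℓ d (fun u y => F u ((stb τ).subtype y)) ω := rfl
      rw [h3, h2]
      push_cast
      rfl
    rw [Finset.sum_congr rfl h1, Finset.sum_comm]
    rfl
  · intro c τ hτ ψ hψ hc hp
    rw [Finset.mem_filter]
    refine ⟨?_, hp⟩
    rw [← hc]
    exact hC τ hτ ψ hψ

end Pair

section Good

variable (𝔐 : Ideal (integralClosure ℤ ℂ))

/-- All chain sums (from the trivial subgroup) of positive defect vanish, and those of defect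
`0` are supported on central functions of characters of defect `0`. -/
def Good (ℓ : ℕ) (G : Type*) [Group G] [Fintype G] : Prop :=
  ∀ ω : G → (integralClosure ℤ ℂ) ⧸ 𝔐,
    (∀ d, 0 < d → KK 𝔐 ℓ d (⊥ : Subgroup G) ω = 0) ∧
    (KK 𝔐 ℓ 0 (⊥ : Subgroup G) ω ≠ 0 → ∃ χ : G → ℂ, IsIrr χ ∧ HasDefect ℓ χ 0 ∧
      ∀ g, cen 𝔐 (MonoidHom.id G) χ g = ω g)

theorem KK_eq_zero {G : Type*} [Group G] [Fintype G] {ℓ : ℕ} [Fact ℓ.Prime] (d : ℕ)
    {Z O : Subgroup G} [O.Normal] (hO : IsPGroup ℓ O) (hZO : Z < O)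
    (ω : G → (integralClosure ℤ ℂ) ⧸ 𝔐) : KK 𝔐 ℓ d Z ω = 0 := by
  have h := sum_chains_eq_zero Z O hO hZO (fun S : Subgroup G =>
    ((Nat.card S : ℚ) * cnt 𝔐 ℓ d S.subtype ω))
  rw [KK, ← h]
  refine Finset.sum_congr rfl fun σ _ => ?_
  rw [zsmul_eq_mul]
  push_cast
  rfl

theorem good_of_normal {G : Type*} [Group G] [Fintype G] {ℓ : ℕ} [Fact ℓ.Prime]
    {O : Subgroup G} [O.Normal] (hO : IsPGroup ℓ O) (hne : O ≠ ⊥) : Good 𝔐 ℓ G := by
  intro ω
  have h := fun d => KK_eq_zero 𝔐 (ℓ := ℓ) d hO (bot_lt_iff_ne_bot.mpr hne) ω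
  exact ⟨fun d _ => h d, fun h1 => absurd (h 0) h1⟩

theorem good_of_coprime {G : Type*} [Group G] [Fintype G] {ℓ : ℕ} [Fact ℓ.Prime]
    (hG : ¬ ℓ ∣ Nat.card G) : Good 𝔐 ℓ G := by
  classical
  have hCh : Ch ℓ (⊥ : Subgroup G) = {∅} := by
    ext σ
    rw [mem_Ch, Finset.mem_singleton]
    constructor
    · intro h
      by_contra hne
      obtain ⟨D, hD⟩ := Finset.nonempty_iff_ne_empty.mpr hne
      obtain ⟨h1, h2⟩ := h.1 D hD
      obtain ⟨k, hk⟩ := h1.exists_card_eq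
      rcases Nat.eq_zero_or_pos k with rfl | hk0
      · rw [pow_zero, Subgroup.card_eq_one] at hk
        rw [hk] at h2
        exact lt_irrefl _ h2
      · apply hG
        have h3 : ℓ ∣ Nat.card D := by
          rw [hk]
          exact dvd_pow_self ℓ hk0.ne'
        exact h3.trans (Subgroup.card_subgroup_dvd_card D)
    · rintro rfl
      exact isCh_empty _ _
  have hnd : ∀ d, 0 < d → ∀ (Y : Subgroup G) (χ : Y → ℂ), ¬ HasDefect ℓ χ d := by
    rintro d hd Y χ ⟨n, _, hn⟩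
    have h1 : padicValNat ℓ (Nat.card Y) = 0 :=
      padicValNat.eq_zero_of_not_dvd fun h => hG (h.trans (Subgroup.card_subgroup_dvd_card Y))
    omega
  intro ω
  constructor
  · intro d hd
    rw [KK, hCh, Finset.sum_singleton]
    have : cnt 𝔐 ℓ d (stb (∅ : Finset (Subgroup G))).subtype ω = 0 := by
      rw [cnt, Nat.card_eq_zero]
      left
      constructor
      rintro ⟨χ, _, h, _⟩
      exact hnd d hd _ χ h
    rw [this]
    simp
  · intro h
    rw [KK, hCh, Finset.sum_singleton, stb_empty] at h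
    have h1 : cnt 𝔐 ℓ 0 (⊤ : Subgroup G).subtype ω ≠ 0 := by
      intro h0
      rw [h0] at h
      simp at h
    have h2 : cnt 𝔐 ℓ 0 (MonoidHom.id G) ω ≠ 0 := by
      have h3 := cnt_comp_equiv 𝔐 ℓ 0 (Subgroup.topEquiv (G := G)) (MonoidHom.id G) ω
      rw [← h3]
      exact h1
    rw [cnt] at h2
    obtain ⟨⟨χ, h3, h4, h5⟩⟩ := (Nat.card_ne_zero.mp h2).1
    exact ⟨χ, h3, h4, h5⟩

theorem KK_equiv {G G' : Type*} [Group G] [Fintype G] [Group G'] [Fintype G'] (ℓ d : ℕ)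
    (e : G ≃* G') (Z : Subgroup G) (ω : G' → (integralClosure ℤ ℂ) ⧸ 𝔐) :
    KK 𝔐 ℓ d (Z.map e.toMonoidHom) ω = KK 𝔐 ℓ d Z (fun g => ω (e g)) := by
  rw [KK, KK, sum_Ch_equiv]
  refine Finset.sum_congr rfl fun τ _ => ?_
  rw [card_mapCh (i := e.toMonoidHom) e.injective, stb_mapCh_equiv]
  congr 2
  · congr 1
    exact (Nat.card_congr ((stb τ).equivMapOfInjective _ e.injective).toEquiv).symm
  · congr 1
    rw [← cnt_comp_equiv 𝔐 ℓ d ((stb τ).equivMapOfInjective e.toMonoidHom e.injective)]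
    have h1 : ((stb τ).map e.toMonoidHom).subtype.comp
        ((stb τ).equivMapOfInjective e.toMonoidHom e.injective).toMonoidHom =
        e.toMonoidHom.comp (stb τ).subtype := rfl
    rw [h1]
    have h2 : ∀ (θ : stb τ → ℂ) g, cen 𝔐 (e.toMonoidHom.comp (stb τ).subtype) θ (e g) =
        cen 𝔐 (stb τ).subtype θ g := by
      intro θ g
      rw [cen, cen]
      congr 2
      ext y
      apply conjInd_congr
      constructor
      · intro h
        have := (e.symm : G' →* G).map_isConj h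
        simpa using this
      · intro h
        exact (e : G →* G').map_isConj h
    rw [cnt, cnt]
    have h3 : ∀ θ : stb τ → ℂ, (∀ g, cen 𝔐 (e.toMonoidHom.comp (stb τ).subtype) θ g = ω g) ↔
        (∀ g, cen 𝔐 (stb τ).subtype θ g = ω (e g)) := by
      intro θ
      constructor
      · intro h g
        rw [← h2]
        exact h _
      · intro h g
        obtain ⟨g, rfl⟩ := e.surjective g
        rw [h2]
        exact h g
    simp only [h3]

theorem Good.equiv {G G' : Type*} [Group G] [Fintype G] [Group G'] [Fintype G'] {ℓ : ℕ}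
    (h : Good 𝔐 ℓ G) (e : G ≃* G') : Good 𝔐 ℓ G' := by
  intro ω
  have hb : (⊥ : Subgroup G).map e.toMonoidHom = ⊥ := Subgroup.map_bot _
  obtain ⟨h1, h2⟩ := h (fun g => ω (e g))
  constructor
  · intro d hd
    rw [← hb, KK_equiv]
    exact h1 d hd
  · intro h0
    rw [← hb, KK_equiv] at h0
    obtain ⟨χ, h3, h4, h5⟩ := h2 h0
    refine ⟨fun g => χ (e.symm g), h3.comp_mulEquiv e.symm, ?_, ?_⟩
    · exact (hasDefect_comp_equiv e.symm).mpr h4
    · intro g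
      obtain ⟨g, rfl⟩ := e.surjective g
      rw [← h5 g]
      have h6 := cen_comp_equiv 𝔐 e.symm (MonoidHom.id G) χ
      rw [← h6, cen, cen]
      congr 2
      ext y
      apply conjInd_congr
      obtain ⟨y, rfl⟩ := e.surjective y
      constructor
      · intro h
        have := (e.symm : G' →* G).map_isConj h
        simpa using this
      · intro h
        have := (e : G →* G').map_isConj h
        simpa using this

variable [h𝔐 : 𝔐.IsPrime]

theorem Fl_class {V H : Type*} [CommGroup V] [Fintype V] [Group H] [Fintype H]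
    {φ : H →* MulAut V} (lam : V →* ℂˣ) (u : V ⋊[φ] H) (g x : stab φ lam) :
    Fl φ lam u ((g * x * g⁻¹ : stab φ lam) : H) = Fl φ lam u (x : H) := by
  rw [Fl, Fl]
  symm
  refine Fintype.sum_equiv (φ (g : H)).toEquiv _ _ ?_
  intro v
  change _ = conjInd (⟨φ (g : H) v, (g : H) * x * (g : H)⁻¹⟩ : V ⋊[φ] H) u *
    ((lam (φ (g : H) v) : ℂˣ) : ℂ)
  rw [← conj_inr, conjInd_conj, g.2 v]

theorem isIntegral_Fl {V H : Type*} [CommGroup V] [Fintype V] [Group H] [Fintype H]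
    {φ : H →* MulAut V} (lam : V →* ℂˣ) (u : V ⋊[φ] H) (x : H) : IsIntegral ℤ (Fl φ lam u x) :=
  isIntegral_sum _ _ fun v _ => (isIntegral_conjInd _ _).mul (isIntegral_linChar lam v)

theorem cen_indChar {V H : Type*} [CommGroup V] [Fintype V] [Group H] [Fintype H]
    {φ : H →* MulAut V} (lam : V →* ℂˣ) {ψ : stab φ lam → ℂ} (hψ : IsIrr ψ) (u : V ⋊[φ] H) :
    cen 𝔐 (MonoidHom.id _) (indChar φ lam ψ) u =
      pair 𝔐 (fun x : stab φ lam => Fl φ lam u x) (cen 𝔐 (MonoidHom.id _) ψ) := by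
  rw [← red_wt_eq_pair 𝔐 (MonoidHom.id _) hψ _ (fun g x => Fl_class lam u g x)
    (fun x => isIntegral_Fl lam u x), cen, wt_indChar]
  · rfl
  · intro g x
    simp only [MonoidHom.id_apply]
    exact conjInd_conj _ _ _

theorem good_sdp {V H : Type*} [CommGroup V] [Fintype V] [Group H] [Fintype H]
    {φ : H →* MulAut V} {ℓ : ℕ} [Fact ℓ.Prime] (hℓ : (ℓ : integralClosure ℤ ℂ) ∈ 𝔐)
    (hV : ¬ ℓ ∣ Nat.card V) (h : ∀ lam : V →* ℂˣ, Good 𝔐 ℓ (stab φ lam)) :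
    Good 𝔐 ℓ (V ⋊[φ] H) := by
  classical
  intro ω
  have hb : (⊥ : Subgroup H).map (SemidirectProduct.inr : H →* V ⋊[φ] H) = ⊥ :=
    Subgroup.map_bot _
  have hZ : ∀ z ∈ (⊥ : Subgroup H), ∀ v, φ z v = v := by
    intro z hz v
    rw [Subgroup.mem_bot] at hz
    rw [hz, map_one, MulAut.one_apply]
  have hsub : ∀ lam : V →* ℂˣ, (⊥ : Subgroup H).subgroupOf (stab φ lam) = ⊥ := fun lam => by
    rw [Subgroup.bot_subgroupOf]
  have hS := fun lam : V →* ℂˣ => sum_cntF 𝔐 ℓ (⊥ : Subgroup (stab φ lam))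
    (fun (u : V ⋊[φ] H) (x : stab φ lam) => Fl φ lam u x) (fun u g x => Fl_class lam u g x)
    (fun u x => isIntegral_Fl lam u x) ω
  choose C hC1 hC2 hC3 using hS
  have hKK' : ∀ d, KK 𝔐 ℓ d (⊥ : Subgroup (V ⋊[φ] H)) ω =
      (Nat.card V : ℚ) * ∑ lam : V →* ℂˣ, ∑ c ∈ C lam, KK 𝔐 ℓ d (⊥ : Subgroup (stab φ lam)) c := by
    intro d
    rw [← hb, KK_sdp 𝔐 hℓ d hV hZ ω]
    congr 1
    refine Finset.sum_congr rfl fun lam _ => ?_
    rw [hsub, ← hC2 lam d]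
  constructor
  · intro d hd
    rw [hKK']
    rw [Finset.sum_eq_zero, mul_zero]
    intro lam _
    apply Finset.sum_eq_zero
    intro c _
    exact (h lam c).1 d hd
  · intro h0
    rw [hKK'] at h0
    have h1 := right_ne_zero_of_mul h0
    obtain ⟨lam, _, h2⟩ := Finset.exists_ne_zero_of_sum_ne_zero h1
    obtain ⟨c, hc, h3⟩ := Finset.exists_ne_zero_of_sum_ne_zero h2
    obtain ⟨ψ, hψ, hd, hcen⟩ := (h lam c).2 h3
    refine ⟨indChar φ lam ψ, isIrr_indChar lam hψ, (hasDefect_indChar lam hV hψ 0).mpr hd, ?_⟩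
    intro g
    rw [cen_indChar 𝔐 lam hψ]
    have h4 : cen 𝔐 (MonoidHom.id _) ψ = c := funext hcen
    rw [h4]
    exact hC1 lam c hc g

end Good

end Pool.Agent.Lib_helper13
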