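import Mathlib
import Pool.Agent.Lib_helper13.Good
import Pool.Agent.Lib_helper13.DadeDefs

set_option linter.unusedSectionVars false

/-! From weighted sums over all chains to Dade's alternating sums over orbits. -/

namespace Pool.Agent.Lib_helper13

open Representation Dade

section Bridge

variable {G : Type*} [Group G] [Fintype G]
variable (𝔐 : Ideal (integralClosure ℤ ℂ))

theorem indCentral_eq (S : Subgroup G) (θ : S → ℂ) (g : G) :
    indCentral S θ g = wt θ (fun s => conjInd (S.subtype s) g) := by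
  classical
  rw [indCentral, wt, finsum_eq_sum_of_fintype]
  congr 1
  refine Finset.sum_congr rfl fun s _ => ?_
  rw [finsum_eq_if, conjInd]
  by_cases h : IsConj (s : G) g
  · have h' : IsConj (S.subtype s) g := h
    rw [if_pos h, if_pos h', one_mul]
  · have h' : ¬ IsConj (S.subtype s) g := h
    rw [if_neg h, if_neg h', zero_mul]

theorem central_eq (χ : G → ℂ) (g : G) :
    central χ g = wt χ (fun x => conjInd (MonoidHom.id G x) g) := by
  classical
  rw [central, wt, finsum_eq_sum_of_fintype]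
  congr 1
  refine Finset.sum_congr rfl fun s _ => ?_
  rw [finsum_eq_if, conjInd]
  by_cases h : IsConj s g
  · rw [if_pos h, MonoidHom.id_apply, if_pos h, one_mul]
  · rw [if_neg h, MonoidHom.id_apply, if_neg h, zero_mul]

theorem isIntegral_wt_conj {Y : Type*} [Group Y] [Fintype Y] (i : Y →* G) {θ : Y → ℂ}
    (hθ : IsIrr θ) (g : G) : IsIntegral ℤ (wt θ (fun y => conjInd (i y) g)) := by
  apply isIntegral_wt hθ
  · intro a y
    rw [map_mul, map_mul, map_inv, conjInd_conj]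
  · intro y
    exact isIntegral_conjInd _ _

theorem inducesTo_iff {S : Subgroup G} {θ : S → ℂ} (hθ : IsIrr θ) {χ : G → ℂ} (hχ : IsIrr χ) :
    InducesTo 𝔐 S θ χ ↔ ∀ g, cen 𝔐 S.subtype θ g = cen 𝔐 (MonoidHom.id G) χ g := by
  refine forall_congr' fun g => ?_
  rw [indCentral_eq, central_eq, cen, cen]
  exact (red_eq_iff 𝔐 (isIntegral_wt_conj _ hθ g) (isIntegral_wt_conj _ hχ g)).symm

theorem sameBlock_iff {χ χ' : G → ℂ} (hχ : IsIrr χ) (hχ' : IsIrr χ') :
    SameBlock 𝔐 χ χ' ↔ cen 𝔐 (MonoidHom.id G) χ = cen 𝔐 (MonoidHom.id G) χ' := by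
  rw [funext_iff]
  refine forall_congr' fun g => ?_
  rw [central_eq, central_eq, cen, cen]
  exact (red_eq_iff 𝔐 (isIntegral_wt_conj _ hχ g) (isIntegral_wt_conj _ hχ' g)).symm

theorem kd_eq (ℓ d : ℕ) {χ : G → ℂ} (hχ : IsIrr χ) (S : Subgroup G) :
    kd 𝔐 ℓ χ d S = cnt 𝔐 ℓ d S.subtype (cen 𝔐 (MonoidHom.id G) χ) := by
  rw [kd, cnt]
  apply Nat.card_congr
  apply Equiv.subtypeEquivRight
  intro θ
  constructor
  · rintro ⟨h1, h2, h3⟩
    exact ⟨h1, h2, (inducesTo_iff 𝔐 h1 hχ).mp h3⟩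
  · rintro ⟨h1, h2, h3⟩
    exact ⟨h1, h2, (inducesTo_iff 𝔐 h1 hχ).mpr h3⟩

theorem isLChain_iff (ℓ : ℕ) (σ : Finset (Subgroup G)) :
    IsLChain ℓ σ ↔ IsCh ℓ (pCore ℓ G) σ := by
  constructor
  · rintro ⟨h1, h2⟩
    refine ⟨h1, ?_⟩
    intro D hD E hE _
    exact h2 D hD E hE
  · intro h
    exact ⟨h.1, fun D hD E hE => h.total hD hE⟩

theorem chainSetoid_iff {ℓ : ℕ} (σ τ : {σ : Finset (Subgroup G) // IsLChain ℓ σ}) :
    (chainSetoid ℓ G) σ τ ↔ ∃ g : G, mapCh (MulAut.conj g).toMonoidHom σ.1 = τ.1 := by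
  classical
  refine exists_congr fun g => ?_
  rw [mapCh, ← Finset.coe_inj, Finset.coe_image, eq_comm]

theorem mapCh_conj_mul (a b : G) (σ : Finset (Subgroup G)) :
    mapCh (MulAut.conj a).toMonoidHom (mapCh (MulAut.conj b).toMonoidHom σ) =
      mapCh (MulAut.conj (a * b)).toMonoidHom σ := by
  rw [mapCh_comp, map_mul]
  rfl

theorem mapCh_conj_one (σ : Finset (Subgroup G)) :
    mapCh (MulAut.conj (1 : G)).toMonoidHom σ = σ := by
  have : (MulAut.conj (1 : G)).toMonoidHom = MonoidHom.id G := by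
    ext x
    simp
  rw [this, mapCh_id]

theorem mapCh_conj_eq_iff {ℓ : ℕ} {Z : Subgroup G} {σ : Finset (Subgroup G)}
    (hσ : IsCh ℓ Z σ) (g : G) :
    mapCh (MulAut.conj g).toMonoidHom σ = σ ↔ g ∈ stb σ := by
  have hcard : ∀ D : Subgroup G, Nat.card (D.map (MulAut.conj g).toMonoidHom) = Nat.card D :=
    fun D => card_map_conj D g
  constructor
  · intro h
    rw [mem_stb]
    intro D hD
    have h1 : D.map (MulAut.conj g).toMonoidHom ∈ σ := by
      rw [← h]
      exact mem_mapCh.mpr ⟨D, hD, rfl⟩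
    rcases hσ.total h1 hD with h2 | h2
    · exact Subgroup.eq_of_le_of_card_ge h2 (hcard D).ge
    · exact (Subgroup.eq_of_le_of_card_ge h2 (hcard D).le).symm
  · intro h
    rw [mem_stb] at h
    ext E
    rw [mem_mapCh]
    constructor
    · rintro ⟨D, hD, rfl⟩
      rw [h D hD]
      exact hD
    · intro hE
      exact ⟨E, hE, h E hE⟩

/-- Orbit counting. -/
theorem sum_orbits (ℓ : ℕ) (f : Finset (Subgroup G) → ℚ)
    (hf : ∀ (g : G) σ, f (mapCh (MulAut.conj g).toMonoidHom σ) = f σ)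
    [Fintype (Quotient (chainSetoid ℓ G))] :
    (Nat.card G : ℚ) * ∑ o : Quotient (chainSetoid ℓ G), f o.out.1 =
      ∑ σ ∈ Ch ℓ (pCore ℓ G), Nat.card (stb σ) * f σ := by
  classical
  have hfin : Finite {σ : Finset (Subgroup G) // IsLChain ℓ σ} := inferInstance
  have hft : Fintype {σ : Finset (Subgroup G) // IsLChain ℓ σ} := Fintype.ofFinite _
  -- sum over the subtype
  have h1 : ∑ σ ∈ Ch ℓ (pCore ℓ G), (Nat.card (stb σ) : ℚ) * f σ =
      ∑ σ : {σ : Finset (Subgroup G) // IsLChain ℓ σ}, (Nat.card (stb σ.1) : ℚ) * f σ.1 := by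
    symm
    apply Finset.sum_bij (fun σ _ => σ.1)
    · intro σ _
      rw [mem_Ch, ← isLChain_iff]
      exact σ.2
    · intro a _ b _ h
      exact Subtype.ext h
    · intro σ hσ
      rw [mem_Ch, ← isLChain_iff] at hσ
      exact ⟨⟨σ, hσ⟩, Finset.mem_univ _, rfl⟩
    · intro _ _
      rfl
  rw [h1]
  rw [← Finset.sum_fiberwise_of_maps_to (s := Finset.univ)
    (t := (Finset.univ : Finset (Quotient (chainSetoid ℓ G))))
    (g := fun σ => Quotient.mk (chainSetoid ℓ G) σ) (fun _ _ => Finset.mem_univ _),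
    Finset.mul_sum]
  refine Finset.sum_congr rfl fun o _ => ?_
  -- the orbit `o`
  have hrel : ∀ σ : {σ : Finset (Subgroup G) // IsLChain ℓ σ},
      Quotient.mk (chainSetoid ℓ G) σ = o ↔
        ∃ g : G, mapCh (MulAut.conj g).toMonoidHom o.out.1 = σ.1 := by
    intro σ
    rw [← chainSetoid_iff]
    constructor
    · intro h
      apply Quotient.exact
      rw [Quotient.out_eq, h]
    · intro h
      rw [← Quotient.out_eq o]
      exact (Quotient.sound h).symm
  have hterm : ∀ σ ∈ Finset.univ.filter (fun σ : {σ : Finset (Subgroup G) // IsLChain ℓ σ} =>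
      Quotient.mk (chainSetoid ℓ G) σ = o), (Nat.card (stb σ.1) : ℚ) * f σ.1 =
        Nat.card (stb o.out.1) * f o.out.1 := by
    intro σ hσ
    obtain ⟨g, hg⟩ := (hrel σ).mp (Finset.mem_filter.mp hσ).2
    rw [← hg, hf, stb_mapCh_equiv, card_map_conj]
  rw [Finset.sum_congr rfl hterm, Finset.sum_const, nsmul_eq_mul]
  -- orbit-stabilizer
  have hcount : Nat.card G = (Finset.univ.filter
      (fun σ : {σ : Finset (Subgroup G) // IsLChain ℓ σ} =>
        Quotient.mk (chainSetoid ℓ G) σ = o)).card * Nat.card (stb o.out.1) := by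
    have hact : ∀ g : G, IsLChain ℓ (mapCh (MulAut.conj g).toMonoidHom o.out.1) := by
      intro g
      have h2 := (isLChain_iff ℓ o.out.1).mp o.out.2
      rw [isLChain_iff]
      have h3 : (pCore ℓ G).map (MulAut.conj g).toMonoidHom = pCore ℓ G := by
        have hle : ∀ g : G, (pCore ℓ G).map (MulAut.conj g).toMonoidHom ≤ pCore ℓ G := by
          intro g
          rw [Subgroup.map_le_iff_le_comap]
          apply sSup_le
          rintro N ⟨hN1, hN2⟩ x hx
          rw [Subgroup.mem_comap]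
          have h4 : (MulAut.conj g).toMonoidHom x ∈ N := hN1.conj_mem x hx g
          exact (le_sSup (show N ∈ {N : Subgroup G | N.Normal ∧ IsPGroup ℓ N} from
            ⟨hN1, hN2⟩)) h4
        apply Subgroup.eq_of_le_of_card_ge (hle g)
        rw [card_map_conj]
      rw [← h3]
      exact (isCh_mapCh_iff (MulAut.conj g).injective).mpr h2
    rw [Nat.card_eq_fintype_card, ← Finset.card_univ]
    rw [Finset.card_eq_sum_card_fiberwise
      (f := fun g : G => (⟨mapCh (MulAut.conj g).toMonoidHom o.out.1, hact g⟩ :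
        {σ : Finset (Subgroup G) // IsLChain ℓ σ}))
      (t := Finset.univ.filter (fun σ : {σ : Finset (Subgroup G) // IsLChain ℓ σ} =>
        Quotient.mk (chainSetoid ℓ G) σ = o))]
    · rw [Finset.card_eq_sum_ones, Finset.sum_mul]
      refine Finset.sum_congr rfl fun σ hσ => ?_
      obtain ⟨g₀, hg₀⟩ := (hrel σ).mp (Finset.mem_filter.mp hσ).2
      rw [one_mul, Nat.card_eq_fintype_card, ← Finset.card_univ]
      symm
      apply Finset.card_bij (fun (s : stb o.out.1) _ => g₀ * (s : G))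
      · intro s _
        rw [Finset.mem_filter]
        refine ⟨Finset.mem_univ _, Subtype.ext ?_⟩
        change mapCh (MulAut.conj (g₀ * (s : G))).toMonoidHom o.out.1 = σ.1
        rw [← mapCh_conj_mul, (mapCh_conj_eq_iff ((isLChain_iff ℓ _).mp o.out.2) (s : G)).mpr s.2,
          hg₀]
      · intro s _ s' _ h
        exact Subtype.ext (mul_left_cancel h)
      · intro g hg
        have h2 := congrArg Subtype.val (Finset.mem_filter.mp hg).2
        have h3 : mapCh (MulAut.conj g).toMonoidHom o.out.1 = σ.1 := h2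
        refine ⟨⟨g₀⁻¹ * g, ?_⟩, Finset.mem_univ _, by simp⟩
        rw [← mapCh_conj_eq_iff ((isLChain_iff ℓ _).mp o.out.2), ← mapCh_conj_mul, h3, ← hg₀,
          mapCh_conj_mul, inv_mul_cancel, mapCh_conj_one]
    · intro g _
      rw [Finset.mem_coe, Finset.mem_filter]
      exact ⟨Finset.mem_univ _, (hrel _).mpr ⟨g, rfl⟩⟩
  rw [hcount]
  push_cast
  ring

theorem dadeSum_eq (ℓ d : ℕ) {χ : G → ℂ} (hχ : IsIrr χ) :
    (Nat.card G : ℚ) * (dadeSum 𝔐 ℓ χ d : ℚ) =
      KK 𝔐 ℓ d (pCore ℓ G) (cen 𝔐 (MonoidHom.id G) χ) := by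
  classical
  have hft : Fintype (Quotient (chainSetoid ℓ G)) := Fintype.ofFinite _
  rw [dadeSum, finsum_eq_sum_of_fintype]
  have h := sum_orbits ℓ (fun σ : Finset (Subgroup G) => (-1 : ℚ) ^ σ.card *
    cnt 𝔐 ℓ d (stb σ).subtype (cen 𝔐 (MonoidHom.id G) χ)) (by
      intro g σ
      rw [card_mapCh (MulAut.conj g).injective, stb_mapCh_equiv, cnt_map_conj])
  push_cast
  simp only [kd_eq 𝔐 ℓ d hχ]
  refine Eq.trans h ?_
  rw [KK]
  refine Finset.sum_congr rfl fun σ _ => ?_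
  ring

theorem isIntegral_char {χ : G → ℂ} (hχ : IsIrr χ) (x : G) : IsIntegral ℤ (χ x) := by
  obtain ⟨n, ρ, _, rfl⟩ := hχ
  have h1 : ρ.character x = LinearMap.trace ℂ _ (ρ x) := rfl
  rw [h1, Module.End.trace_eq_sum_roots_charpoly_of_splits (IsAlgClosed.splits _)]
  apply Multiset.sum_induction (p := fun z : ℂ => IsIntegral ℤ z)
  · intro a b ha hb
    exact ha.add hb
  · exact isIntegral_zero
  · intro μ hμ
    have h2 : (ρ x).charpoly.IsRoot μ := (Polynomial.mem_roots'.mp hμ).2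
    rw [← Module.End.hasEigenvalue_iff_isRoot_charpoly] at h2
    obtain ⟨v, hv⟩ := h2.exists_hasEigenvector
    have h3 : (ρ x ^ Nat.card G) v = μ ^ Nat.card G • v := by
      rw [hv.pow_apply]
    rw [← map_pow, pow_card_eq_one', map_one, Module.End.one_apply] at h3
    have h4 : μ ^ Nat.card G = 1 := by
      have h5 : (μ ^ Nat.card G - 1) • v = 0 := by
        rw [sub_smul, one_smul, ← h3, sub_self]
      rcases smul_eq_zero.mp h5 with h6 | h6
      · exact sub_eq_zero.mp h6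
      · exact absurd h6 hv.2
    apply IsIntegral.of_pow (n := Nat.card G) Nat.card_pos
    rw [h4]
    exact isIntegral_one

/-- A character of defect zero is alone in its block. -/
theorem eq_of_defect_zero [h𝔐 : 𝔐.IsPrime] {ℓ : ℕ} [Fact ℓ.Prime]
    (hℓ : (ℓ : integralClosure ℤ ℂ) ∈ 𝔐) {χ χ' : G → ℂ} (hχ : IsIrr χ) (hχ' : IsIrr χ')
    (hd : Dade.HasDefect ℓ χ 0)
    (hb : cen 𝔐 (MonoidHom.id G) χ = cen 𝔐 (MonoidHom.id G) χ') : χ = χ' := by
  classical
  by_contra hne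
  obtain ⟨n, hn, hv⟩ := hd
  rw [zero_add] at hv
  have hn0 : n ≠ 0 := by
    rintro rfl
    exact hχ.one_ne_zero (by rw [hn]; simp)
  -- class function `x ↦ χ(x⁻¹)`
  have hcl : ∀ g x : G, χ (g * x * g⁻¹)⁻¹ = χ x⁻¹ := by
    intro g x
    have : (g * x * g⁻¹)⁻¹ = g * x⁻¹ * g⁻¹ := by group
    rw [this, hχ.conj_eq]
  have hint : ∀ x : G, IsIntegral ℤ (χ x⁻¹) := fun x => isIntegral_char hχ _
  have h1 := red_wt_eq_pair 𝔐 (MonoidHom.id G) hχ (fun x => χ x⁻¹) hcl hint
  have h2 := red_wt_eq_pair 𝔐 (MonoidHom.id G) hχ' (fun x => χ x⁻¹) hcl hint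
  rw [hb, ← h2] at h1
  have h3 : wt χ (fun y => χ (MonoidHom.id G y)⁻¹) = Nat.card G / n := by
    rw [wt, hn]
    congr 1
    rw [← hχ.sum_self]
    refine Finset.sum_congr rfl fun y _ => ?_
    rw [mul_comm]
    rfl
  have h4 : wt χ' (fun y => χ (MonoidHom.id G y)⁻¹) = 0 := by
    rw [wt]
    have : ∑ y, χ (MonoidHom.id G y)⁻¹ * χ' y = 0 := by
      rw [← hχ'.sum_ne hχ (fun h => hne h.symm)]
      refine Finset.sum_congr rfl fun y _ => ?_
      rw [mul_comm]
      rfl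
    rw [this, zero_div]
  rw [h3, h4, red_zero] at h1
  -- `|G|/n` is integral and lies in `𝔐`
  have h5 : IsIntegral ℤ ((Nat.card G : ℂ) / n) := by
    rw [← h3]
    exact isIntegral_wt hχ _ hcl hint
  rw [red_of_integral 𝔐 h5, Ideal.Quotient.eq_zero_iff_mem] at h1
  -- the `ℓ'`-parts
  have hG0 : Nat.card G ≠ 0 := Nat.card_pos.ne'
  obtain ⟨a, ha⟩ : ∃ a, Nat.card G = ℓ ^ (padicValNat ℓ (Nat.card G)) * a := by
    obtain ⟨a, ha⟩ := pow_padicValNat_dvd (p := ℓ) (n := Nat.card G)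
    exact ⟨a, ha⟩
  obtain ⟨b, hb'⟩ : ∃ b, n = ℓ ^ (padicValNat ℓ n) * b := by
    obtain ⟨b, hb'⟩ := pow_padicValNat_dvd (p := ℓ) (n := n)
    exact ⟨b, hb'⟩
  have hℓ0 : (ℓ : ℕ) ≠ 0 := (Fact.out : ℓ.Prime).ne_zero
  have ha' : ¬ ℓ ∣ a := by
    intro hdvd
    have h6 : ℓ ^ (padicValNat ℓ (Nat.card G) + 1) ∣ Nat.card G := by
      rw [pow_succ]
      conv_rhs => rw [ha]
      exact Nat.mul_dvd_mul_left _ hdvd
    exact pow_succ_padicValNat_not_dvd hG0 h6
  have hq : (b : ℂ) * ((Nat.card G : ℂ) / n) = a := by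
    have h7 : (n : ℂ) = (ℓ : ℂ) ^ (padicValNat ℓ n) * b := by exact_mod_cast hb'
    have h8 : (Nat.card G : ℂ) = (ℓ : ℂ) ^ (padicValNat ℓ (Nat.card G)) * a := by
      exact_mod_cast ha
    have hb0 : (b : ℂ) ≠ 0 := by
      intro h
      apply hn0
      have : (n : ℂ) = 0 := by rw [h7, h, mul_zero]
      exact_mod_cast this
    have hl0 : (ℓ : ℂ) ≠ 0 := by exact_mod_cast hℓ0
    rw [h7, h8, hv]
    field_simp
  have h9 : (a : integralClosure ℤ ℂ) ∈ 𝔐 := by
    have h10 : (a : integralClosure ℤ ℂ) = (b : integralClosure ℤ ℂ) *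
        ⟨(Nat.card G : ℂ) / n, h5⟩ := by
      apply Subtype.ext
      push_cast
      rw [hq]
    rw [h10]
    exact 𝔐.mul_mem_left _ h1
  apply h𝔐.ne_top
  rw [Ideal.eq_top_iff_one]
  have h11 : Nat.Coprime ℓ a := (Fact.out : ℓ.Prime).coprime_iff_not_dvd.mpr ha'
  have h12 : IsCoprime (ℓ : ℤ) (a : ℤ) := Nat.isCoprime_iff_coprime.mpr h11
  obtain ⟨s, t, hst⟩ := h12
  have h13 : (1 : integralClosure ℤ ℂ) = (s : integralClosure ℤ ℂ) * ℓ +
      (t : integralClosure ℤ ℂ) * a := by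
    exact_mod_cast congrArg (fun z : ℤ => (z : integralClosure ℤ ℂ)) hst.symm
  rw [h13]
  exact 𝔐.add_mem (𝔐.mul_mem_left _ hℓ) (𝔐.mul_mem_left _ h9)

/-- Good groups with trivial `O_ℓ` satisfy Dade's conjecture. -/
theorem dadeHolds_of_good {ℓ : ℕ} [Fact ℓ.Prime]
    (hG : ∀ 𝔐 : Ideal (integralClosure ℤ ℂ), 𝔐.IsMaximal → (ℓ : integralClosure ℤ ℂ) ∈ 𝔐 →
      Good 𝔐 ℓ G) (hcore : pCore ℓ G = ⊥) : DadeHolds ℓ G := by
  rintro 𝔐 h𝔐 hℓ χ hχ ⟨χ', e, hχ', hb, hd, he⟩ d
  have := h𝔐.isPrime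
  have hχi : IsIrr χ := hχ
  have hχi' : IsIrr χ' := hχ'
  have hcen := (sameBlock_iff 𝔐 hχi' hχi).mp hb
  have he0 : 0 < e := by
    rcases Nat.eq_zero_or_pos e with rfl | h
    · rw [hcore] at he
      simp at he
    · exact h
  obtain ⟨h1, h2⟩ := hG 𝔐 h𝔐 hℓ (cen 𝔐 (MonoidHom.id G) χ)
  have h3 : KK 𝔐 ℓ d (pCore ℓ G) (cen 𝔐 (MonoidHom.id G) χ) = 0 := by
    rw [hcore]
    rcases Nat.eq_zero_or_pos d with rfl | hd0
    · by_contra hne
      obtain ⟨χ₁, h4, h5, h6⟩ := h2 hne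
      have h7 : cen 𝔐 (MonoidHom.id G) χ₁ = cen 𝔐 (MonoidHom.id G) χ' := by
        rw [hcen]
        exact funext h6
      have h8 := eq_of_defect_zero 𝔐 hℓ h4 hχi' h5 h7
      rw [h8] at h5
      obtain ⟨n, hn, hn'⟩ := h5
      obtain ⟨m, hm, hm'⟩ := hd
      rw [hn] at hm
      have : n = m := by exact_mod_cast hm
      subst this
      omega
    · exact h1 d hd0
  rw [← dadeSum_eq 𝔐 ℓ d hχi] at h3
  have h4 : (Nat.card G : ℚ) ≠ 0 := by
    have : Nat.card G ≠ 0 := Nat.card_pos.ne'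
    exact_mod_cast this
  rcases mul_eq_zero.mp h3 with h5 | h5
  · exact absurd h5 h4
  · exact_mod_cast h5

end Bridge

end Pool.Agent.Lib_helper13
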