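import Mathlib
import Pool.Agent.Lib_helper13.Bridge

set_option linter.unusedSectionVars false

/-! Characters, multiplicities, expansion of class functions in irreducible characters. -/

namespace Pool.Agent.Lib_helper13

open Representation

section Chr

variable {Y Y' : Type*} [Group Y] [Group Y']

/-- `ψ` is the character of a finite-dimensional complex representation. -/
def IsChr (ψ : Y → ℂ) : Prop :=
  ∃ (n : ℕ) (ρ : Representation ℂ Y (Fin n → ℂ)), ρ.character = ψ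

theorem isChr_of_rep {V : Type*} [AddCommGroup V] [Module ℂ V] [FiniteDimensional ℂ V]
    (ρ : Representation ℂ Y V) : IsChr ρ.character := by
  let b := Module.finBasis ℂ V
  exact ⟨_, transport b.equivFun ρ, transport_character _ _⟩

theorem IsIrr.isChr {ψ : Y → ℂ} (h : IsIrr ψ) : IsChr ψ := by
  obtain ⟨n, ρ, _, h⟩ := h
  exact ⟨n, ρ, h⟩

theorem IsChr.mul {ψ φ : Y → ℂ} (h : IsChr ψ) (h' : IsChr φ) : IsChr (fun x => ψ x * φ x) := by
  obtain ⟨n, ρ, rfl⟩ := h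
  obtain ⟨m, σ, rfl⟩ := h'
  have h1 := isChr_of_rep (tprod ρ σ)
  rw [char_tensor] at h1
  exact h1

theorem isChr_one : IsChr (fun _ : Y => (1 : ℂ)) := by
  refine ⟨1, (1 : Y →* ((Fin 1 → ℂ) →ₗ[ℂ] (Fin 1 → ℂ))), ?_⟩
  ext y
  change LinearMap.trace ℂ (Fin 1 → ℂ) (1 : (Fin 1 → ℂ) →ₗ[ℂ] (Fin 1 → ℂ)) = 1
  rw [LinearMap.trace_one]
  simp

theorem IsChr.prod {ι : Type*} (s : Finset ι) (ψ : ι → Y → ℂ) (h : ∀ j, IsChr (ψ j)) :
    IsChr (fun x => ∏ j ∈ s, ψ j x) := by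
  classical
  induction s using Finset.induction_on with
  | empty =>
    simp only [Finset.prod_empty]
    exact isChr_one
  | insert a s ha ih =>
    simp only [Finset.prod_insert ha]
    exact (h a).mul ih

theorem IsChr.comp {ψ : Y → ℂ} (h : IsChr ψ) (f : Y' →* Y) : IsChr (fun x => ψ (f x)) := by
  obtain ⟨n, ρ, rfl⟩ := h
  exact ⟨n, (ρ.comp f : Y' →* ((Fin n → ℂ) →ₗ[ℂ] (Fin n → ℂ))), rfl⟩

theorem IsChr.conj_eq {ψ : Y → ℂ} (h : IsChr ψ) (g x : Y) : ψ (g * x * g⁻¹) = ψ x := by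
  obtain ⟨n, ρ, rfl⟩ := h
  exact char_conj ρ x g

theorem IsChr.isIrr [Fintype Y] {ψ : Y → ℂ} (h : IsChr ψ)
    (hs : ∑ g, ψ g * ψ g⁻¹ = Nat.card Y) : IsIrr ψ := by
  obtain ⟨n, ρ, rfl⟩ := h
  exact isIrr_of_rep_sum ρ hs

theorem IsChr.exists_mult [Fintype Y] {ψ φ : Y → ℂ} (h : IsChr ψ) (h' : IsChr φ) :
    ∃ m : ℕ, ∑ g, ψ g * φ g⁻¹ = Nat.card Y * m := by
  obtain ⟨n, ρ, rfl⟩ := h
  obtain ⟨m, σ, rfl⟩ := h'
  exact ⟨_, sum_char_eq_finrank σ ρ⟩

end Chr

section Expand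

variable {Y : Type*} [Group Y] [Fintype Y]

/-- The finite set of irreducible characters. -/
noncomputable def irrF (Y : Type*) [Group Y] [Fintype Y] : Finset (Y → ℂ) :=
  (finite_isIrr (H := Y)).toFinset

theorem mem_irrF {χ : Y → ℂ} : χ ∈ irrF Y ↔ IsIrr χ := by
  rw [irrF, Set.Finite.mem_toFinset]
  rfl

/-- The inner product of functions, normalized. -/
noncomputable def ip (f χ : Y → ℂ) : ℂ := (∑ g, f g * χ g⁻¹) / Nat.card Y

theorem ip_self {χ : Y → ℂ} (h : IsIrr χ) : ip χ χ = 1 := by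
  rw [ip, h.sum_self, div_self natCard_ne_zero]

theorem ip_ne {χ χ' : Y → ℂ} (h : IsIrr χ) (h' : IsIrr χ') (hne : χ ≠ χ') : ip χ χ' = 0 := by
  rw [ip, h.sum_ne h' hne, zero_div]

theorem ip_sum {α : Type*} (s : Finset α) (c : α → ℂ) (f : α → Y → ℂ) (χ : Y → ℂ) :
    ip (fun x => ∑ a ∈ s, c a * f a x) χ = ∑ a ∈ s, c a * ip (f a) χ := by
  simp only [ip, Finset.sum_mul]
  rw [Finset.sum_comm, Finset.sum_div]
  refine Finset.sum_congr rfl fun a _ => ?_
  rw [← mul_div_assoc, Finset.mul_sum]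
  congr 1
  exact Finset.sum_congr rfl fun g _ => by ring

theorem class_fn_expand (f : Y → ℂ) (hf : ∀ g x, f (g * x * g⁻¹) = f x) :
    f = fun x => ∑ χ ∈ irrF Y, ip f χ * χ x := by
  classical
  have h := class_fn_eq_zero (fun x => f x - ∑ χ ∈ irrF Y, ip f χ * χ x) ?_ ?_
  · ext x
    have := congrFun h x
    exact sub_eq_zero.mp this
  · intro g x
    rw [hf]
    congr 1
    refine Finset.sum_congr rfl fun χ hχ => ?_
    rw [(mem_irrF.mp hχ).conj_eq]
  · intro χ hχ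
    have h1 : ip (fun x => ∑ χ ∈ irrF Y, ip f χ * χ x) χ = ip f χ := by
      rw [ip_sum, Finset.sum_eq_single χ]
      · rw [ip_self hχ, mul_one]
      · intro χ' hχ' hne
        rw [ip_ne (mem_irrF.mp hχ') hχ hne, mul_zero]
      · intro h
        exact absurd (mem_irrF.mpr hχ) h
    rw [ip, ip, div_left_inj' natCard_ne_zero] at h1
    simp only [sub_mul]
    rw [Finset.sum_sub_distrib, h1, sub_self]

theorem ip_expand (f f' : Y → ℂ) (hf : ∀ g x, f (g * x * g⁻¹) = f x) :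
    ip f f' = ∑ χ ∈ irrF Y, ip f χ * ip χ f' := by
  conv_lhs => rw [class_fn_expand f hf]
  exact ip_sum _ _ _ _

theorem ip_comm (f f' : Y → ℂ) : ip f f' = ip f' f := by
  rw [ip, ip]
  congr 1
  refine Fintype.sum_equiv (Equiv.inv Y) _ _ fun g => ?_
  simp [mul_comm]

theorem IsChr.exists_ip {ψ φ : Y → ℂ} (h : IsChr ψ) (h' : IsChr φ) : ∃ m : ℕ, ip ψ φ = m := by
  obtain ⟨m, hm⟩ := h.exists_mult h'
  refine ⟨m, ?_⟩
  rw [ip, hm, mul_comm, mul_div_assoc, div_self natCard_ne_zero, mul_one]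

theorem sum_sq : ∑ χ ∈ irrF Y, χ 1 * χ 1 = (Nat.card Y : ℂ) := by
  classical
  have h := class_fn_expand (Y := Y) (fun x => if x = 1 then 1 else 0) (by
    intro g x
    by_cases h : x = 1
    · subst h
      simp
    · rw [if_neg, if_neg h]
      intro h'
      apply h
      have : x = g⁻¹ * (g * x * g⁻¹) * g := by group
      rw [this, h']
      group)
  have h1 := congrFun h 1
  simp only [if_true] at h1
  have h2 : ∀ χ : Y → ℂ, ip (fun x : Y => if x = 1 then (1 : ℂ) else 0) χ =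
      χ 1 / Nat.card Y := by
    intro χ
    rw [ip]
    congr 1
    rw [Finset.sum_eq_single (1 : Y)]
    · simp
    · intro b _ hb
      rw [if_neg hb, zero_mul]
    · simp
  simp only [h2] at h1
  have h3 : ∑ χ ∈ irrF Y, χ 1 / (Nat.card Y : ℂ) * χ 1 =
      (∑ χ ∈ irrF Y, χ 1 * χ 1) / Nat.card Y := by
    rw [Finset.sum_div]
    exact Finset.sum_congr rfl fun _ _ => by ring
  rw [h3, eq_div_iff natCard_ne_zero, one_mul] at h1
  exact h1.symm

/-- The degree divides the group order. -/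
theorem IsIrr.degree_dvd {χ : Y → ℂ} (h : IsIrr χ) {n : ℕ} (hn : χ 1 = n) :
    n ∣ Nat.card Y := by
  have hn0 : n ≠ 0 := by
    rintro rfl
    exact h.one_ne_zero (by rw [hn]; simp)
  have h1 : IsIntegral ℤ (wt χ (fun x => χ x⁻¹)) := by
    apply isIntegral_wt h
    · intro g x
      have : (g * x * g⁻¹)⁻¹ = g * x⁻¹ * g⁻¹ := by group
      rw [this, h.conj_eq]
    · intro x
      exact isIntegral_char h _
  have h2 : wt χ (fun x => χ x⁻¹) = Nat.card Y / n := by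
    rw [wt, hn, ← h.sum_self]
    congr 1
    exact Finset.sum_congr rfl fun x _ => mul_comm _ _
  rw [h2] at h1
  have h3 : ((Nat.card Y : ℂ) / n) = algebraMap ℚ ℂ ((Nat.card Y : ℚ) / n) := by
    rw [map_div₀, map_natCast, map_natCast]
  rw [h3, isIntegral_algebraMap_iff (algebraMap ℚ ℂ).injective] at h1
  obtain ⟨z, hz⟩ := IsIntegrallyClosed.isIntegral_iff.mp h1
  have h4 : (Nat.card Y : ℚ) = z * n := by
    have h5 : (z : ℚ) = (Nat.card Y : ℚ) / n := hz
    rw [h5]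
    field_simp
  have h5 : (Nat.card Y : ℤ) = z * n := by exact_mod_cast h4
  have h6 : (n : ℤ) ∣ Nat.card Y := ⟨z, by rw [h5, mul_comm]⟩
  exact_mod_cast h6

theorem HasDefect.unique {ℓ : ℕ} {χ : Y → ℂ} {d e : ℕ} (h : HasDefect ℓ χ d)
    (h' : HasDefect ℓ χ e) : d = e := by
  obtain ⟨n, hn, hn'⟩ := h
  obtain ⟨m, hm, hm'⟩ := h'
  rw [hn] at hm
  have : n = m := by exact_mod_cast hm
  subst this
  omega

theorem IsIrr.exists_defect {ℓ : ℕ} [Fact ℓ.Prime] {χ : Y → ℂ} (h : IsIrr χ) :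
    ∃ d, HasDefect ℓ χ d := by
  obtain ⟨n, hn, hn'⟩ := h.exists_degree
  obtain ⟨m, hm⟩ := h.degree_dvd hn'
  have hm0 : m ≠ 0 := by
    rintro rfl
    exact Nat.card_pos.ne' (by rw [hm, mul_zero])
  refine ⟨padicValNat ℓ m, n, hn', ?_⟩
  rw [hm, padicValNat.mul hn.ne' hm0, add_comm]

end Expand

end Pool.Agent.Lib_helper13
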